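import Pool.Agent.H25.STL.Dead

/-!
# The count, with the digits of the time
-/

set_option autoImplicit false

namespace Pool.STL

open Finset MvPolynomial
open Pool.Agent.H49.Ent Pool.Agent.H32.Dense Pool.STK Pool.KS3
open Pool.BFL (Pl CB Pb P2 MC alt)
open Pool.STAT

theorem floor_near {x y : ℝ} (h : |x - y| ≤ 1) : ⌊x⌋ = ⌊y⌋ + -1 ∨ ⌊x⌋ = ⌊y⌋ + 0 ∨ ⌊x⌋ = ⌊y⌋ + 1 := by
  have h1 := abs_le.1 h
  have h2 : ⌊x⌋ ≤ ⌊y + 1⌋ := Int.floor_le_floor (by linarith [h1.2])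
  have h3 : ⌊y⌋ ≤ ⌊x + 1⌋ := Int.floor_le_floor (by linarith [h1.1])
  rw [Int.floor_add_one] at h2 h3
  omega

/-- **The count** for the digits of the time and the digits of the other coordinates. -/
theorem cnt_tm {D : NDat} {n K J z M : ℕ} {d : ℕ → ℕ} {C₁ : ℝ} {q : D.Ω → ℝ}
    (h : OkL D n K J z M (fun i => d i) C₁ q) (hn : 0 < n) (hz : 1 ≤ z) {U k : ℕ}
    (hk : k + 3 * U ≤ M) {ρ a Cc : ℝ} (hρ : 0 ≤ ρ) (hC : D.Cnt d z n (k + U) U ρ a Cc q)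
    (ω : D.Ω) :
    (Set.ncard {t : ℤ | ∃ ω', 0 < q ω' ∧ D.cs (k + U) ω' = D.cs (k + U) ω ∧
      D.tm J z (k + 3 * U) ω' = D.tm J z (k + 3 * U) ω ∧
      (∀ i : Fin n, i ≠ ⟨0, hn⟩ → ⌊(2 : ℝ) ^ (U * z) * D.pT (k + U) ω' i⌋ =
        ⌊(2 : ℝ) ^ (U * z) * D.pT (k + U) ω i⌋) ∧
      ⌊D.pN d z (k + U) n ω'⌋ = ⌊D.pN d z (k + U) n ω⌋ ∧
      t = ⌊(2 : ℝ) ^ ⌊ρ * ((U * z : ℕ) : ℝ)⌋₊ * D.pN d z (k + U) n ω'⌋} : ℝ) ≤
    Real.exp ((1 - a) * ⌊ρ * ((U * z : ℕ) : ℝ)⌋₊ * Real.log 2 + (Cc + 2) * z) := by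
  obtain ⟨P, hP⟩ : ∃ P : ℕ, P = ⌊ρ * ((U * z : ℕ) : ℝ)⌋₊ := ⟨_, rfl⟩
  have hPρ : (P : ℝ) ≤ ρ * (U * z) := by
    rw [hP]
    refine (Nat.floor_le (by positivity)).trans (le_of_eq ?_)
    push_cast
    ring
  rw [← hP]
  have hzr : (1 : ℝ) ≤ z := by exact_mod_cast hz
  obtain ⟨x, hx⟩ : ∃ x : D.Ω → ℤ, ∀ ω, x ω =
    ⌊(2 : ℝ) ^ (U * z) * D.pT (k + U) ω (⟨0, hn⟩ : Fin n)⌋ := ⟨_, fun _ => rfl⟩
  obtain ⟨A, hA⟩ : ∃ A : ℤ → Set ℤ, ∀ e, A e = {t : ℤ | ∃ ω', 0 < q ω' ∧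
      D.cs (k + U) ω' = D.cs (k + U) ω ∧ x ω' = x ω + e ∧
      (∀ i : Fin n, i ≠ ⟨0, hn⟩ → ⌊(2 : ℝ) ^ (U * z) * D.pT (k + U) ω' i⌋ =
        ⌊(2 : ℝ) ^ (U * z) * D.pT (k + U) ω i⌋) ∧
      ⌊D.pN d z (k + U) n ω'⌋ = ⌊D.pN d z (k + U) n ω⌋ ∧
      t = ⌊(2 : ℝ) ^ P * D.pN d z (k + U) n ω'⌋} := ⟨_, fun _ => rfl⟩
  have hfin : ∀ e, (A e).Finite := by
    intro e
    rw [hA]
    refine (Set.finite_range fun ω' : D.Ω => ⌊(2 : ℝ) ^ P * D.pN d z (k + U) n ω'⌋).subset ?_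
    rintro t ⟨ω', -, -, -, -, -, ht⟩
    exact ⟨ω', ht.symm⟩
  obtain ⟨B, hB⟩ : ∃ B : ℝ, B = Real.exp ((1 - a) * P * Real.log 2 + Cc * z) := ⟨_, rfl⟩
  -- one digit of the time
  have hone : ∀ e, ((A e).ncard : ℝ) ≤ B := by
    intro e
    rcases Set.eq_empty_or_nonempty (A e) with h0 | ⟨t₀, h0⟩
    · rw [h0, Set.ncard_empty, Nat.cast_zero, hB]
      exact (Real.exp_pos _).le
    rw [hA] at h0
    obtain ⟨ω₀, a1, a2, a3, a4, a5, -⟩ := h0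
    have h1 := hC P hPρ ω₀ a1
    rw [← hB] at h1
    refine le_trans ?_ h1
    have hf : Set.Finite {t : ℤ | ∃ ω', 0 < q ω' ∧ D.c (k + U) ω' = D.c (k + U) ω₀ ∧
        (∀ i : Fin n, ⌊(2 : ℝ) ^ (U * z) * D.pT (k + U) ω' i⌋ =
          ⌊(2 : ℝ) ^ (U * z) * D.pT (k + U) ω₀ i⌋) ∧
        ⌊D.pN d z (k + U) n ω'⌋ = ⌊D.pN d z (k + U) n ω₀⌋ ∧
        t = ⌊(2 : ℝ) ^ P * D.pN d z (k + U) n ω'⌋} := by
      refine (Set.finite_range fun ω' : D.Ω => ⌊(2 : ℝ) ^ P * D.pN d z (k + U) n ω'⌋).subset ?_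
      rintro t ⟨ω', -, -, -, -, ht⟩
      exact ⟨ω', ht.symm⟩
    refine Nat.cast_le.2 (Set.ncard_le_ncard ?_ hf)
    rw [hA]
    rintro t ⟨ω', b1, b2, b3, b4, b5, b6⟩
    refine ⟨ω', b1, ?_, fun i => ?_, b5.trans a5.symm, b6⟩
    · have g6 := congrFun (b2.trans a2.symm) (k + U)
      simpa [NDat.cs] using g6
    · by_cases hi : i = ⟨0, hn⟩
      · subst hi
        have := b3.trans a3.symm
        rw [hx, hx] at this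
        exact this
      · exact (b4 i hi).trans (a4 i hi).symm
  -- the digits of the time
  have hsub : {t : ℤ | ∃ ω', 0 < q ω' ∧ D.cs (k + U) ω' = D.cs (k + U) ω ∧
      D.tm J z (k + 3 * U) ω' = D.tm J z (k + 3 * U) ω ∧
      (∀ i : Fin n, i ≠ ⟨0, hn⟩ → ⌊(2 : ℝ) ^ (U * z) * D.pT (k + U) ω' i⌋ =
        ⌊(2 : ℝ) ^ (U * z) * D.pT (k + U) ω i⌋) ∧
      ⌊D.pN d z (k + U) n ω'⌋ = ⌊D.pN d z (k + U) n ω⌋ ∧
      t = ⌊(2 : ℝ) ^ P * D.pN d z (k + U) n ω'⌋} ⊆ A (-1) ∪ (A 0 ∪ A 1) := by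
    rintro t ⟨ω', b1, b2, b3, b4, b5, b6⟩
    have hc : D.c (k + U) ω' = D.c (k + U) ω := by
      have g6 := congrFun b2 (k + U)
      simpa [NDat.cs] using g6
    have hvJ : (k + 3 * U) * z ≤ J :=
      (Nat.mul_le_mul_right z (hk.trans (Nat.le_succ M))).trans h.top
    have ht : D.T ω' / 2 ^ (J - (k + 3 * U) * z) = D.T ω / 2 ^ (J - (k + 3 * U) * z) := by
      have : ((D.T ω' / 2 ^ (J - (k + 3 * U) * z) : ℕ) : ℤ) =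
        ((D.T ω / 2 ^ (J - (k + 3 * U) * z) : ℕ) : ℤ) := b3
      exact_mod_cast this
    have hX : |D.X ω' 0 - D.X ω 0| ≤ 1 / 2 ^ ((k + 3 * U) * z) := by
      rw [h.X_zero, h.X_zero]
      have := Nonw.T_close hvJ ht
      rwa [abs_sub_comm] at this
    have hlab : eval (D.X ω') (D.P (k + U) (D.c (k + U) ω') 0) =
        eval (D.X ω) (D.P (k + U) (D.c (k + U) ω) 0) := by
      rw [hc]
      exact Pool.SYS35.eval_congr (h.P_tri _ _ 0) fun i hi => absurd hi (Nat.not_lt_zero _)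
    have hxx : |(2 : ℝ) ^ (U * z) * D.pT (k + U) ω' (⟨0, hn⟩ : Fin n) -
        (2 : ℝ) ^ (U * z) * D.pT (k + U) ω (⟨0, hn⟩ : Fin n)| ≤ 1 := by
      unfold NDat.pT NDat.rh
      simp only
      rw [hlab, h.g_zero]
      have e1 : (2 : ℝ) ^ (U * z) * (2 ^ ((k + U) * z) *
          (D.X ω' 0 - eval (D.X ω) (D.P (k + U) (D.c (k + U) ω) 0))) -
          2 ^ (U * z) * (2 ^ ((k + U) * z) *
          (D.X ω 0 - eval (D.X ω) (D.P (k + U) (D.c (k + U) ω) 0))) =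
          2 ^ (U * z + (k + U) * z) * (D.X ω' 0 - D.X ω 0) := by
        rw [pow_add]
        ring
      rw [e1, abs_mul, abs_of_pos (by positivity)]
      have e2 : (2 : ℝ) ^ (U * z + (k + U) * z) ≤ 2 ^ ((k + 3 * U) * z) := by
        refine pow_le_pow_right₀ (by norm_num) ?_
        rw [← add_mul]
        exact Nat.mul_le_mul_right z (by omega)
      refine (mul_le_mul e2 hX (abs_nonneg _) (by positivity)).trans (le_of_eq ?_)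
      rw [mul_one_div]
      exact div_self (by positivity)
    have hcase := floor_near hxx
    rw [← hx, ← hx] at hcase
    rcases hcase with hcase | hcase | hcase
    · refine Or.inl ?_
      rw [hA]
      exact ⟨ω', b1, b2, hcase, b4, b5, b6⟩
    · refine Or.inr (Or.inl ?_)
      rw [hA]
      exact ⟨ω', b1, b2, hcase, b4, b5, b6⟩
    · refine Or.inr (Or.inr ?_)
      rw [hA]
      exact ⟨ω', b1, b2, hcase, b4, b5, b6⟩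
  have h2 := Set.ncard_le_ncard hsub ((hfin _).union ((hfin _).union (hfin _)))
  have h3 := Set.ncard_union_le (A (-1)) (A 0 ∪ A 1)
  have h4 := Set.ncard_union_le (A 0) (A 1)
  have h5 : ((Set.ncard {t : ℤ | ∃ ω', 0 < q ω' ∧ D.cs (k + U) ω' = D.cs (k + U) ω ∧
      D.tm J z (k + 3 * U) ω' = D.tm J z (k + 3 * U) ω ∧
      (∀ i : Fin n, i ≠ ⟨0, hn⟩ → ⌊(2 : ℝ) ^ (U * z) * D.pT (k + U) ω' i⌋ =
        ⌊(2 : ℝ) ^ (U * z) * D.pT (k + U) ω i⌋) ∧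
      ⌊D.pN d z (k + U) n ω'⌋ = ⌊D.pN d z (k + U) n ω⌋ ∧
      t = ⌊(2 : ℝ) ^ P * D.pN d z (k + U) n ω'⌋} : ℕ) : ℝ) ≤ B + (B + B) := by
    have h6 := hone (-1)
    have h7 := hone 0
    have h8 := hone 1
    have h9 : ((Set.ncard {t : ℤ | ∃ ω', 0 < q ω' ∧ D.cs (k + U) ω' = D.cs (k + U) ω ∧
      D.tm J z (k + 3 * U) ω' = D.tm J z (k + 3 * U) ω ∧
      (∀ i : Fin n, i ≠ ⟨0, hn⟩ → ⌊(2 : ℝ) ^ (U * z) * D.pT (k + U) ω' i⌋ =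
        ⌊(2 : ℝ) ^ (U * z) * D.pT (k + U) ω i⌋) ∧
      ⌊D.pN d z (k + U) n ω'⌋ = ⌊D.pN d z (k + U) n ω⌋ ∧
      t = ⌊(2 : ℝ) ^ P * D.pN d z (k + U) n ω'⌋} : ℕ) : ℝ) ≤
      (((A (-1)).ncard + ((A 0).ncard + (A 1).ncard) : ℕ) : ℝ) := by
      exact_mod_cast h2.trans (h3.trans (Nat.add_le_add_left h4 _))
    push_cast at h9
    linarith
  refine h5.trans ?_
  have e1 : Real.exp ((1 - a) * P * Real.log 2 + (Cc + 2) * z) = B * Real.exp (2 * z) := by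
    rw [hB, ← Real.exp_add]
    congr 1
    ring
  have e2 : (3 : ℝ) ≤ Real.exp (2 * z) := by
    have := Real.add_one_le_exp (2 * (z : ℝ))
    linarith
  have e3 : 0 < B := by
    rw [hB]
    exact Real.exp_pos _
  rw [e1]
  nlinarith

end Pool.STL
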