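import Pool.Agent.H25.STL.Lab0
import Pool.Agent.H25.LIVE.Thm
import Pool.Agent.H84.LIV.Core

/-!
# The core for live times, with absolute probabilities

`coreP_thm`: as `core_of`, but the walks over the base have to be submersions only with probability
`15 / 16`. `sbmP_thm`: as `sbm_of`, but for the conclusion with probability `1 - η` the walks over
the base have to be submersions only with probability `1 - η / 16`. So the density of the dead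
levels can be chosen before the liveness `k`.
-/

set_option autoImplicit false

namespace Pool.LIV

open Finset MvPolynomial
open Pool.Agent.H49.Ent Pool.Agent.H32.Dense Pool.STK Pool.KS3
open Pool.BFL (Pl CB Pb P2 MC alt)
open Pool.KAF (Pr)
open Pool.STAT
open Pool.STAT84

/-- **The core for live times.** -/
theorem coreP_thm (c j D L : ℕ) (d : Fin c → ℕ) (i₀ : Fin c) (C₀ a ρ : ℝ) (hL : 1 ≤ L)
    (hC₀ : 1 ≤ C₀) (ha : 0 < a) (hρ : 0 < ρ) (hρ1 : ρ ≤ 1) :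
    ∃ η₀ : ℝ, 0 < η₀ ∧ ∀ (k : ℕ) (b : ℝ), 1 ≤ k → 0 < b →
    ∃ κ ρ' τ₀ η' : ℝ, 0 < κ ∧ κ ≤ 1 ∧ 0 < ρ' ∧ ρ' ≤ 1 ∧ 0 < τ₀ ∧ 0 < η' ∧ ∃ U₀ : ℕ,
    ∀ τ : ℝ, 0 < τ → τ ≤ τ₀ → ∀ U m : ℕ, U₀ ≤ U → (m : ℝ) ≤ C₀ * U →
    ∀ (Ω G B 𝔅 𝒱 : Type) [Fintype Ω] (p : Ω → ℝ) (g : Ω → G) (bk : Ω → B) (β : Ω → 𝔅)
      (V : Ω → 𝒱) (tm : Ω → ℤ) (pT : Ω → Fin c → ℝ) (pN : Ω → ℝ)
      (ΘT : B → (Fin c → ℝ) → Fin c → ℝ) (FN : B → (Fin c → ℝ) → ℝ)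
      (ξT : 𝒱 → 𝔅 → Fin c → Pl c) (ξN : 𝒱 → 𝔅 → Pl c) (Dd : ℕ → Set Ω) (yc : Ω → Fin c → ℤ),
      LC d i₀ j D U m C₀ (τ * U) τ p g bk β V tm pT pN ΘT FN ξT ξN →
      Sbm d m p g bk β V tm ξT L (Real.exp (-(τ * U))) (1 / 16) →
      (∀ i ω, 0 < p ω → ω ∉ Dd i → dead p g tm m k i ω ≤ 1 - b) →
      ∑ i ∈ range U, Pr p (Dd i) ≤ η₀ * U →
      ∑ i ∈ range ⌊ρ' * U⌋₊, Pr p (Dd i) ≤ η₀ * ⌊ρ' * U⌋₊ →
      (∀ ω, 0 < p ω → ∀ i, i ≠ i₀ → |(yc ω i : ℝ) - 2 ^ U * pT ω i| ≤ C₀) →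
      (∀ ω, 0 < p ω →
        (Set.ncard {n : ℤ | ∃ ω', 0 < p ω' ∧ β ω' = β ω ∧ tm ω' = tm ω ∧
          (∀ i, i ≠ i₀ → yc ω' i = yc ω i) ∧ ⌊pN ω'⌋ = ⌊pN ω⌋ ∧
          n = ⌊(2 : ℝ) ^ ⌊ρ * U⌋₊ * pN ω'⌋} : ℝ) ≤
          Real.exp ((1 - a) * ⌊ρ * U⌋₊ * Real.log 2 + τ * U)) →
      Vis84 d j U C₀ p g bk ΘT FN κ η' := by
  obtain ⟨η₀, hη₀, h⟩ := cntL_of lful_thm c j D (2 * L + 1) d i₀ C₀ a ρ (1 / 2) (by omega) hC₀ ha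
    hρ hρ1 (by norm_num)
  refine ⟨η₀, hη₀, ?_⟩
  intro k b hk hb
  obtain ⟨κ₁, ρ', τ₁, hκ₁, hρ'0, hρ'1, hτ₁, U₁, h1⟩ := h k b hk hb
  obtain ⟨τ₂, η', hτ₂, hη', U₂, h2⟩ := wlab0P_thm c j L d C₀ (1 / 2) (min κ₁ 1) hL hC₀
    (by norm_num) (lt_min hκ₁ one_pos) (min_le_right _ _)
  refine ⟨min κ₁ 1, ρ', min (min τ₁ τ₂) (1 / 16), η', lt_min hκ₁ one_pos, min_le_right _ _, hρ'0,
    hρ'1, lt_min (lt_min hτ₁ hτ₂) (by norm_num), hη', max U₁ U₂, ?_⟩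
  intro τ hτ0 hττ U m hU hm Ω G B 𝔅 𝒱 _ p g bk β V tm pT pN ΘT FN ξT ξN Dd yc hW hS hD hs1 hs2
    hyc hcnt
  have hU0 : (0 : ℝ) ≤ U := Nat.cast_nonneg _
  have t1 : τ ≤ τ₁ := hττ.trans ((min_le_left _ _).trans (min_le_left _ _))
  have t2 : τ ≤ τ₂ := hττ.trans ((min_le_left _ _).trans (min_le_right _ _))
  have t3 : τ ≤ 1 / 16 := hττ.trans (min_le_right _ _)
  have hle1 : τ * U ≤ τ₁ * U := mul_le_mul_of_nonneg_right t1 hU0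
  have hflt := h1 U m ((le_max_left _ _).trans hU) hm Ω G B 𝔅 𝒱 p g bk β V tm pT pN ΘT FN ξT ξN
    Dd yc (hW.mono84 hle1 t1) hD hs1 hs2 hyc (fun ω hω => (hcnt ω hω).trans
      (Real.exp_le_exp.2 (by linarith only [hle1])))
  have hflt' : Flt d j p g bk β V ξT ξN (2 * L + 1) (Real.exp (-(min κ₁ 1 * U))) (1 / 2) := by
    have h3 := Flt.mono84 (r' := Real.exp (-(min κ₁ 1 * U))) (Real.exp_le_exp.2 (by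
      have := mul_le_mul_of_nonneg_right (min_le_left κ₁ (1 : ℝ)) hU0
      linarith only [this])) hflt
    rwa [show (1 : ℝ) - 1 / 2 = 1 / 2 by norm_num] at h3
  rw [show (1 : ℝ) / 16 = 1 / 2 / 8 by norm_num] at hS
  exact h2 τ hτ0 t2 U m ((le_max_right _ _).trans hU) Ω G B 𝔅 𝒱 p g bk β V tm ΘT FN ξT ξN
    (hW.mono84 le_rfl (by linarith only [t3])).toWL84 hS hflt'

/-- **The next layer for live times**: no visible polynomial, so the walks of `2 L + 1` legs are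
submersions onto the base and the height. -/
theorem sbmP_thm (c j L : ℕ) (d : Fin c → ℕ) (C₀ τ' η : ℝ) (hL : 1 ≤ L) (hC₀ : 1 ≤ C₀)
    (hτ' : 0 < τ') (hη : 0 < η) :
    ∃ κ ρ η₀ η' τ₀ : ℝ, 0 < κ ∧ κ ≤ 1 ∧ 0 < ρ ∧ ρ ≤ 1 ∧ 0 < η₀ ∧
      η₀ = η / (16 * ((2 * L + 1 : ℕ) : ℝ) ^ (c + 2)) ∧ 0 < η' ∧ 0 < τ₀ ∧
      ∀ (k : ℕ) (a : ℝ), 1 ≤ k → 0 < a →
      ∃ τ₁ : ℝ, 0 < τ₁ ∧ ∃ U₀ : ℕ, ∀ τ : ℝ, 0 < τ → τ ≤ min τ₀ τ₁ → ∀ U m : ℕ, U₀ ≤ U →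
      ∀ (i₀ : Fin c) (D : ℕ) (Ω G B 𝔅 𝒱 : Type) [Fintype Ω] (p : Ω → ℝ) (g : Ω → G)
        (bk : Ω → B) (β : Ω → 𝔅) (V : Ω → 𝒱) (tm : Ω → ℤ) (pT : Ω → Fin c → ℝ) (pN : Ω → ℝ)
        (ΘT : B → (Fin c → ℝ) → Fin c → ℝ) (FN : B → (Fin c → ℝ) → ℝ)
        (ξT : 𝒱 → 𝔅 → Fin c → Pl c) (ξN : 𝒱 → 𝔅 → Pl c) (Dd : ℕ → Set Ω),
        LC d i₀ j D U m C₀ (τ * U) τ p g bk β V tm pT pN ΘT FN ξT ξN →
        Sbm d m p g bk β V tm ξT L (Real.exp (-(τ₀ * U))) (η / 16) →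
        (∀ i ω, 0 < p ω → ω ∉ Dd i → dead p g tm m k i ω ≤ 1 - a) →
        ∑ i ∈ range ⌊ρ * U⌋₊, Pr p (Dd i) ≤ η₀ * ⌊ρ * U⌋₊ →
        ¬ Vis84 d j U C₀ p g bk ΘT FN κ η' →
        ∀ (W : Type) [Fintype W] (q : W → ℝ) (z : ℕ → W → Ω),
        MC p (alt g bk) (2 * (2 * L + 1) - 1) q z →
        Pb q (fun w => ¬ ∃ e : Fin (c + 1) → Fin (2 * L + 1), Real.exp (-(τ' * U)) ≤
          |eval (len tm m (2 * L + 1) z w) (minA d j (lgT β V ξT (2 * L + 1) z w)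
            (lgN β V ξN (2 * L + 1) z w) e)|) ≤ η := by
  obtain ⟨κ₁, ρ, η₀, hκ₁, hρ0, hρ1, hη₀, he, h⟩ := Pool.LIV84.bigL c j (2 * L + 1) d τ' η
    (by omega) hτ' hη
  obtain ⟨τ₂, η', hτ₂, hη', U₂, h2⟩ := wlab0P_thm c j L d C₀ (η / 2) (min κ₁ 1) hL hC₀
    (half_pos hη) (lt_min hκ₁ one_pos) (min_le_right _ _)
  refine ⟨min κ₁ 1, ρ, η₀, η', τ₂, lt_min hκ₁ one_pos, min_le_right _ _, hρ0, hρ1, hη₀, he, hη',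
    hτ₂, ?_⟩
  intro k a hk ha
  obtain ⟨τ, hτ, U₁, h1⟩ := h k a hk ha
  refine ⟨min τ (η / 16), lt_min hτ (by positivity), max U₁ U₂, ?_⟩
  intro τ₁ hτ₁ hττ U m hU i₀ D Ω G B 𝔅 𝒱 _ p g bk β V tm pT pN ΘT FN ξT ξN Dd hW hS hD hs hV W _ q
    z hMC
  have hU0 : (0 : ℝ) ≤ U := Nat.cast_nonneg _
  have t1 : τ₁ ≤ τ := hττ.trans ((min_le_right _ _).trans (min_le_left _ _))
  have t2 : τ₁ ≤ τ₂ := hττ.trans (min_le_left _ _)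
  have t3 : τ₁ ≤ η / 16 := hττ.trans ((min_le_right _ _).trans (min_le_right _ _))
  refine h1 τ₁ t1 U m ((le_max_left _ _).trans hU) i₀ D C₀ Ω G B 𝔅 𝒱 p g
    bk β V tm pT pN ΘT FN ξT ξN Dd hW hD hs ?_ W q z hMC
  intro hflt
  apply hV
  have hle2 : τ₁ * U ≤ τ₂ * U := mul_le_mul_of_nonneg_right t2 hU0
  have hflt' : Flt d j p g bk β V ξT ξN (2 * L + 1) (Real.exp (-(min κ₁ 1 * U))) (η / 2) :=
    Flt.mono84 (Real.exp_le_exp.2 (by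
      have := mul_le_mul_of_nonneg_right (min_le_left κ₁ (1 : ℝ)) hU0
      linarith only [this])) hflt
  rw [show η / 16 = η / 2 / 8 by ring] at hS
  exact h2 τ₂ hτ₂ le_rfl U m ((le_max_right _ _).trans hU) Ω G B 𝔅 𝒱 p g bk β V tm ΘT FN ξT ξN
    (hW.mono84 hle2 (by linarith only [t3])).toWL84 hS hflt'

end Pool.LIV
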