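import Pool.Agent.H25.STL.Lc

/-!
# Dead levels of the live time
-/

set_option autoImplicit false

namespace Pool.STL

open Finset MvPolynomial
open Pool.Agent.H49.Ent Pool.Agent.H32.Dense Pool.STK Pool.KS3
open Pool.BFL (Pl CB Pb P2 MC alt)
open Pool.KAF (Pr Pr_eq)
open Pool.STAT
open Pool.LIV (win dead)

/-- Markov. -/
theorem pr_half {Ω A B : Type} [Fintype Ω] {q : Ω → ℝ} (hq : ∀ ω, 0 ≤ q ω) (Z : Ω → A)
    (Z' : Ω → B) (R R' : Ω → Ω → Prop) (hZ : ∀ ω ω', Z ω = Z ω' ↔ Z' ω = Z' ω')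
    (hR : ∀ ω ω', Z ω = Z ω' → R ω ω' → R' ω ω') :
    Pr q {ω | ¬ Pr (cond q Z (Z ω)) {v | R ω v} ≤ 1 / 2} ≤ 2 * P2 q Z' R' := by
  classical
  have hl : ∀ ω, law q Z (Z ω) = law q Z' (Z' ω) := by
    intro ω
    unfold law
    refine Finset.sum_congr rfl fun v _ => ?_
    by_cases h : Z v = Z ω
    · rw [if_pos h, if_pos ((hZ v ω).1 h)]
    · rw [if_neg h, if_neg (fun h' => h ((hZ v ω).2 h'))]
  rw [Pr_eq]
  unfold P2
  rw [Finset.mul_sum]
  refine Finset.sum_le_sum fun ω _ => ?_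
  have hP0 : 0 ≤ ∑ ω', (if Z' ω = Z' ω' ∧ R' ω ω' then q ω * q ω' / law q Z' (Z' ω) else 0) :=
    Finset.sum_nonneg fun ω' _ => by
      split_ifs
      · exact div_nonneg (mul_nonneg (hq ω) (hq ω')) (law_nonneg hq _ _)
      · exact le_rfl
  by_cases hω : ω ∈ {ω | ¬ Pr (cond q Z (Z ω)) {v | R ω v} ≤ 1 / 2}
  · rw [if_pos hω]
    have h1 : 1 / 2 < Pr (cond q Z (Z ω)) {v | R ω v} := not_le.1 hω
    have h2 : q ω * Pr (cond q Z (Z ω)) {v | R ω v} ≤
        ∑ ω', (if Z' ω = Z' ω' ∧ R' ω ω' then q ω * q ω' / law q Z' (Z' ω) else 0) := by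
      rw [Pr_eq, Finset.mul_sum]
      refine Finset.sum_le_sum fun v _ => ?_
      have h0 : 0 ≤ q ω * q v / law q Z' (Z' ω) :=
        div_nonneg (mul_nonneg (hq ω) (hq v)) (law_nonneg hq _ _)
      by_cases hv : v ∈ {v | R ω v}
      · rw [if_pos hv]
        unfold Pool.Agent.H49.Ent.cond
        by_cases hz : Z v = Z ω
        · rw [if_pos hz, if_pos ⟨(hZ ω v).1 hz.symm, hR ω v hz.symm hv⟩, hl ω]
          exact le_of_eq (by ring)
        · rw [if_neg hz, mul_zero]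
          split_ifs
          · exact h0
          · exact le_rfl
      · rw [if_neg hv, mul_zero]
        split_ifs
        · exact h0
        · exact le_rfl
    nlinarith [hq ω]
  · rw [if_neg hω]
    linarith

section

variable {D : NDat} {n K J z M : ℕ} {σ : ℕ → ℝ} {C₁ : ℝ} {q : D.Ω → ℝ}

/-- The dead samples of a level. -/
def DdS (D : NDat) (q : D.Ω → ℝ) (J z U k k' i : ℕ) : Set D.Ω :=
  {ω | ¬ dead q (D.wn J ((k + U) * z)) (D.tm J z (k + 3 * U)) (2 * U * z) (k' + 1) i ω ≤ 1 / 2}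

/-- **The dead levels are rare.** -/
theorem dead_lvl (h : OkL D n K J z M σ C₁ q) {U k k' i : ℕ} (hk : k + 3 * U ≤ M)
    (hi : i + k' + 1 ≤ 2 * U * z) :
    Pr q (DdS D q J z U k k' i) ≤ 2 * P2 q (D.wn J ((k + U) * z + i)) (fun ω ω' =>
      |(D.T ω : ℝ) - D.T ω'| * 2 ^ ((k + U) * z + i + k') < 2 ^ J) := by
  have hJ : (k + 3 * U) * z ≤ J := (Nat.mul_le_mul_right z (hk.trans (Nat.le_succ M))).trans h.top
  obtain ⟨a, ha⟩ : ∃ a : ℕ, a = (k + U) * z := ⟨_, rfl⟩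
  obtain ⟨m, hm⟩ : ∃ m : ℕ, m = 2 * U * z := ⟨_, rfl⟩
  have ham : (k + 3 * U) * z = a + m := by
    rw [ha, hm]
    ring
  rw [ham] at hJ
  rw [← hm] at hi
  unfold DdS dead
  rw [← hm, ← ha]
  refine pr_half h.isLaw.nonneg (fun v => (D.wn J a v, win (D.tm J z (k + 3 * U)) m i v))
    (D.wn J (a + i)) (fun ω v => ((|D.tm J z (k + 3 * U) v - D.tm J z (k + 3 * U) ω| : ℤ) : ℝ) /
      2 ^ m < 1 / 2 ^ (i + (k' + 1))) _ ?_ ?_
  · -- the windows
    have hw : ∀ ω, win (D.tm J z (k + 3 * U)) m i ω = ((D.T ω / 2 ^ (J - (a + i)) : ℕ) : ℤ) := by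
      intro ω
      unfold win NDat.tm
      rw [ham, ← Int.natCast_div, Nat.div_div_eq_div_mul, ← pow_add]
      congr 3
      omega
    have hd : ∀ ω, D.T ω / 2 ^ (J - a) = D.T ω / 2 ^ (J - (a + i)) / 2 ^ i := by
      intro ω
      rw [Nat.div_div_eq_div_mul, ← pow_add]
      congr 2
      omega
    intro ω ω'
    constructor
    · intro e
      have e1 := Prod.ext_iff.1 e
      have e2 := e1.2
      simp only [hw] at e2
      exact Prod.ext (Prod.ext_iff.1 e1.1).1 (by exact_mod_cast e2)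
    · intro e
      have e1 := Prod.ext_iff.1 e
      have e2 : D.T ω / 2 ^ (J - (a + i)) = D.T ω' / 2 ^ (J - (a + i)) := e1.2
      refine Prod.ext (Prod.ext e1.1 ?_) ?_
      · change D.T ω / 2 ^ (J - a) = D.T ω' / 2 ^ (J - a)
        rw [hd, hd, e2]
      · simp only [hw]
        rw [e2]
  · -- near times
    intro ω ω' _ hR
    obtain ⟨b, hb⟩ : ∃ b : ℕ, b = J - (a + m) := ⟨_, rfl⟩
    have ht : ∀ ω, (D.tm J z (k + 3 * U) ω : ℤ) = ((D.T ω / 2 ^ b : ℕ) : ℤ) := by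
      intro ω
      unfold NDat.tm
      rw [ham, ← hb]
    rw [ht, ht] at hR
    obtain ⟨t, ht1⟩ : ∃ t : ℕ, t = D.T ω / 2 ^ b := ⟨_, rfl⟩
    obtain ⟨t', ht2⟩ : ∃ t' : ℕ, t' = D.T ω' / 2 ^ b := ⟨_, rfl⟩
    rw [← ht1, ← ht2] at hR
    have hcl : |(D.T ω : ℝ) - D.T ω'| ≤ (|((t' : ℝ) - t)| + 1) * 2 ^ b := by
      have r1 : D.T ω < 2 ^ b * (t + 1) := by
        rw [ht1]
        exact Nat.lt_mul_div_succ _ (by positivity)
      have r2 : 2 ^ b * t ≤ D.T ω := by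
        rw [ht1]
        exact Nat.mul_div_le _ _
      have r3 : D.T ω' < 2 ^ b * (t' + 1) := by
        rw [ht2]
        exact Nat.lt_mul_div_succ _ (by positivity)
      have r4 : 2 ^ b * t' ≤ D.T ω' := by
        rw [ht2]
        exact Nat.mul_div_le _ _
      have s1 : (D.T ω : ℝ) < 2 ^ b * (t + 1) := by exact_mod_cast r1
      have s2 : (2 : ℝ) ^ b * t ≤ D.T ω := by exact_mod_cast r2
      have s3 : (D.T ω' : ℝ) < 2 ^ b * (t' + 1) := by exact_mod_cast r3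
      have s4 : (2 : ℝ) ^ b * t' ≤ D.T ω' := by exact_mod_cast r4
      have s5 := abs_le.1 (le_refl |(t' : ℝ) - t|)
      have s6 : (0 : ℝ) < 2 ^ b := by positivity
      rw [abs_le]
      constructor
      · nlinarith [s5.2]
      · nlinarith [s5.1]
    have hlt : |(t' : ℝ) - t| * 2 ^ (i + (k' + 1)) < 2 ^ m := by
      have e1 : ((|(t' : ℤ) - (t : ℤ)| : ℤ) : ℝ) = |(t' : ℝ) - t| := by push_cast; rfl
      rw [e1, div_lt_div_iff₀ (by positivity) (by positivity), one_mul] at hR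
      exact hR
    have hone : (2 : ℝ) ^ (i + k') * 2 ≤ 2 ^ m := by
      rw [← pow_succ]
      exact pow_le_pow_right₀ (by norm_num) (by omega)
    have e2 : (2 : ℝ) ^ J = 2 ^ m * (2 ^ b * 2 ^ a) := by
      rw [← pow_add, ← pow_add]
      congr 1
      omega
    have e3 : (2 : ℝ) ^ (a + i + k') = 2 ^ a * 2 ^ (i + k') := by
      rw [← pow_add]
      congr 1
      omega
    have e4 : (2 : ℝ) ^ (i + (k' + 1)) = 2 ^ (i + k') * 2 := by
      rw [← pow_succ]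
      rfl
    rw [e2, e3]
    rw [e4] at hlt
    have h1 : (|(t' : ℝ) - t| + 1) * 2 ^ (i + k') < 2 ^ m := by nlinarith
    have h2 : (0 : ℝ) < 2 ^ b * 2 ^ a := by positivity
    calc |(D.T ω : ℝ) - D.T ω'| * (2 ^ a * 2 ^ (i + k')) ≤
        ((|(t' : ℝ) - t| + 1) * 2 ^ b) * (2 ^ a * 2 ^ (i + k')) :=
          mul_le_mul_of_nonneg_right hcl (by positivity)
      _ = ((|(t' : ℝ) - t| + 1) * 2 ^ (i + k')) * (2 ^ b * 2 ^ a) := by ring
      _ < 2 ^ m * (2 ^ b * 2 ^ a) := mul_lt_mul_of_pos_right h1 h2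

/-- The sum of the dead levels. -/
theorem dead_sum (h : OkL D n K J z M σ C₁ q) {k' : ℕ} {κ εT : ℝ} (ht : TmL1 D J z M k' κ εT q)
    {U k x : ℕ} (hk : k + 3 * U ≤ M) (hx : x ≤ U * z) (hk' : k' + 1 ≤ U * z) :
    ∑ i ∈ range x, Pr q (DdS D q J z U k k' i) ≤ 2 * (εT * x + κ * z) := by
  have h1 := ht.tm (k + U) (by omega) x (by
    refine hx.trans (Nat.mul_le_mul_right z ?_)
    omega)
  have h2 : ∑ i ∈ range x, Pr q (DdS D q J z U k k' i) ≤
      ∑ i ∈ range x, 2 * P2 q (D.wn J ((k + U) * z + i)) (fun ω ω' =>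
        |(D.T ω : ℝ) - D.T ω'| * 2 ^ ((k + U) * z + i + k') < 2 ^ J) :=
    Finset.sum_le_sum fun i hi => dead_lvl h hk (by
      have := mem_range.1 hi
      have e : 2 * U * z = U * z + U * z := by ring
      omega)
  rw [← Finset.mul_sum] at h2
  linarith

end

end Pool.STL
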