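import Pool.Agent.H64.STAT.Final

/-!
# The label of the weighted core, with absolute probabilities

As `Pool.STAT.lab0_of`: only the exponents depend on `κ`, the probabilities of the bad events are
at most `η / 8`.
-/

set_option autoImplicit false

namespace Pool.STAT

open Finset MvPolynomial
open Pool.Agent.H49.Ent Pool.Agent.H32.Dense Pool.STK Pool.KS3
open Pool.BFL (Pl CB Pb P2 MC alt)
open Pool.Agent.H39.BFL (Pb_nonneg Pb_mono Pb_or Pb_or_le P2_alt same_g same_bk)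

/-- **(B) LABEL**, with absolute probabilities. -/
def Lab0PStmt : Prop :=
  ∀ (c j L : ℕ) (d : Fin c → ℕ) (C₀ η κ : ℝ), 1 ≤ L → 1 ≤ C₀ → 0 < η → 0 < κ → κ ≤ 1 →
    ∃ (τ₀ η' : ℝ), 0 < τ₀ ∧ 0 < η' ∧ ∃ U₀ : ℕ, ∀ τ : ℝ, 0 < τ → τ ≤ τ₀ → ∀ U m : ℕ, U₀ ≤ U →
    ∀ (Ω G B 𝔅 𝒱 : Type) [Fintype Ω] (p : Ω → ℝ) (g : Ω → G) (bk : Ω → B) (β : Ω → 𝔅)
      (V : Ω → 𝒱) (tm : Ω → ℤ)
      (ΘT : B → (Fin c → ℝ) → Fin c → ℝ) (FN : B → (Fin c → ℝ) → ℝ)
      (ξT : 𝒱 → 𝔅 → Fin c → Pl c) (ξN : 𝒱 → 𝔅 → Pl c),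
      WL d j U m C₀ (τ * U) (η / 8) p g bk β V tm ΘT FN ξT ξN →
      Sbm d m p g bk β V tm ξT L (Real.exp (-(τ * U))) (η / 8) →
      Flt d j p g bk β V ξT ξN (2 * L + 1) (Real.exp (-(κ * U))) η →
      ∃ Hf : B → Pl c, (∀ x, (Hf x).IsWeightedHomogeneous d j) ∧
        (∀ x, CB (Hf x) (Real.exp (κ * U / 4))) ∧
        η' ≤ P2 p g (fun ω ω' => ∀ z : Fin c → ℝ, (∀ i, |z i| ≤ C₀) →
          |FN (bk ω') z + eval (ΘT (bk ω') z) (Hf (bk ω')) -
            (FN (bk ω) z + eval (ΘT (bk ω) z) (Hf (bk ω)))| ≤ Real.exp (-(κ * U / 2)))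

set_option maxHeartbeats 1000000 in
/-- **ASM (B)**, without any hypothesis on the law of the times, absolute probabilities. -/
theorem lab0P_of (hFit : FitStmt) (hPhi : PhiMStmt) (hFls : FlsStmt) (hMcr : McrStmt)
    (hPop : PopStmt) : Lab0PStmt := by
  classical
  intro c j L d C₀ η κ hL hC₀ hη hκ hκ1
  by_cases hdj : (∀ i, 1 ≤ d i) ∧ 1 ≤ j
  swap
  · refine ⟨1, 1, one_pos, one_pos, 0, ?_⟩
    intro τ _ _ U m _ Ω G B 𝔅 𝒱 _ p g bk β V tm ΘT FN ξT ξN hWC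
    exact absurd ⟨hWC.d_pos, hWC.j_pos⟩ hdj
  obtain ⟨hd, hj⟩ := hdj
  obtain ⟨K, hPhi⟩ := hPhi c j L d hd hj
  obtain ⟨K', hFit⟩ := hFit c j L d hd hj
  obtain ⟨η', hη', hPop⟩ := hPop (η / 2) (by positivity)
  obtain ⟨τ₀, hτ₀, U₀, hnum⟩ := num_B K' (K 0) (K (L + 1)) (K L) κ hκ hκ1
  refine ⟨τ₀, η', hτ₀, hη', U₀, ?_⟩
  intro τ hτ0 hττ
  intro U m hU Ω G B 𝔅 𝒱 _ p g bk β V tm ΘT FN ξT ξN hWC hSbm hFlt
  obtain ⟨hnB, hnE⟩ := hnum τ hτ0 hττ U hU
  obtain ⟨R, hR⟩ : ∃ R : ℝ, R = Real.exp (τ * U) := ⟨_, rfl⟩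
  obtain ⟨κT, hκT⟩ : ∃ κT : ℝ, κT = Real.exp (-(τ * U)) := ⟨_, rfl⟩
  obtain ⟨r, hr⟩ : ∃ r : ℝ, r = Real.exp (-(κ * U)) := ⟨_, rfl⟩
  rw [← hR, ← hκT] at hnB hnE
  rw [← hr] at hnE hFlt
  rw [← hκT] at hSbm
  have hR1 : 1 ≤ R := by
    rw [hR]
    exact Real.one_le_exp (by positivity)
  have hκT0 : 0 < κT := by
    rw [hκT]
    exact Real.exp_pos _
  have hκT1 : κT ≤ 1 := by
    rw [hκT]
    exact Real.exp_le_one_iff.2 (by
      have : 0 ≤ τ * U := by positivity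
      linarith)
  have hr0 : 0 < r := by
    rw [hr]
    exact Real.exp_pos _
  obtain ⟨Bd, hBd⟩ : ∃ Bd : ℝ, Bd = (K 0 : ℝ) * R ^ K 0 / κT := ⟨_, rfl⟩
  obtain ⟨δ, hδ⟩ : ∃ δ : ℝ, δ = (K (L + 1) : ℝ) * R ^ K (L + 1) * r / κT +
    (K L : ℝ) * R ^ K L * r / κT := ⟨_, rfl⟩
  rw [← hBd] at hnB hnE
  rw [← hδ] at hnE
  have hBd0 : 0 ≤ Bd := by
    rw [hBd]
    positivity
  have hδ0 : 0 ≤ δ := by
    rw [hδ]
    positivity
  have e0 : 2 * L + 1 = L + (L + 1) := by omega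
  rw [e0] at hFlt
  obtain ⟨W, instW, q, z, hMC, hfl0⟩ := hFlt
  have hq := hMC.isLaw
  have hq0 := hq.nonneg
  have hp0 := hWC.isLaw.nonneg
  -- the walks
  obtain ⟨lvz, hlv⟩ : ∃ f : W → ℕ → Fin c → Pl c, f = lv β V ξT z := ⟨_, rfl⟩
  obtain ⟨lnz, hln⟩ : ∃ f : W → ℕ → Pl c, f = ln β V ξN z := ⟨_, rfl⟩
  obtain ⟨llz, hll⟩ : ∃ f : W → ℕ → ℝ, f = ll tm m z := ⟨_, rfl⟩
  have hT0 : ∀ w, lgT β V ξT (L + (L + 1)) z w = fun a : Fin (L + (L + 1)) => lvz w (a + 0) := by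
    intro w
    rw [hlv, ← lgT_shift]
    rfl
  have hN0 : ∀ w, lgN β V ξN (L + (L + 1)) z w = fun a : Fin (L + (L + 1)) => lnz w (a + 0) := by
    intro w
    rw [hln, ← lgN_shift]
    rfl
  have hTB : ∀ k, k ≤ L + 1 → Pb q (fun w => ¬ TBig d (fun a : Fin L => lvz w (a + k)) κT
      (fun a : Fin L => llz w (a + k))) ≤ η / 8 := by
    intro k hk
    have h1 := (hMcr Ω G B W p g bk _ q z hWC.isLaw hMC).2 k (by omega)
    have h2 := (hMcr Ω G B W p g bk _ q _ hWC.isLaw h1).1 (2 * L - 1) (by omega)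
    have h3 := hSbm W q _ h2
    simp only [lgT_shift, len_shift, ← hlv, ← hll] at h3
    exact h3
  have hvf : ∀ w k, VF d (lvz w k) := fun w k => by
    rw [hlv]
    exact hWC.ξT_vf _ _
  have hhom : ∀ w k, (lnz w k).IsWeightedHomogeneous d (j - 1) := fun w k => by
    rw [hln]
    exact hWC.ξN_hom _ _
  have hvR : ∀ w k i, CB (lvz w k i) R := fun w k i => by
    rw [hlv, hR]
    exact hWC.ξT_le _ _ i
  have hnR : ∀ w k, CB (lnz w k) R := fun w k => by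
    rw [hln, hR]
    exact hWC.ξN_le _ _
  have h2m : (0 : ℝ) < 2 ^ m := by positivity
  have hl1 : ∀ w, 0 < q w → ∀ k, k < L + (L + 1) → |llz w k| ≤ 1 := by
    intro w hw k hk
    have h1 := same_g hMC hw (i := 2 * k) (by omega) (by omega)
    have h2 := hWC.tm_g _ _ h1
    rw [hll]
    unfold ll
    rw [abs_div, abs_of_pos h2m, div_le_one h2m]
    have h3 : ((|tm (z (2 * k + 1) w) - tm (z (2 * k) w)| : ℤ) : ℝ) ≤ ((2 ^ m : ℤ) : ℝ) := by
      exact_mod_cast h2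
    push_cast at h3 ⊢
    exact h3
  -- the labels
  obtain ⟨OK, hOK⟩ : ∃ OK : (Fin L → Fin c → Pl c) × (Fin L → Pl c) × (Fin L → ℝ) → Prop,
    OK = fun i => (∀ a, VF d (i.1 a)) ∧ (∀ a, (i.2.1 a).IsWeightedHomogeneous d (j - 1)) ∧
      (∀ a k, CB (i.1 a k) R) ∧ (∀ a, CB (i.2.1 a) R) ∧ (∀ a, |i.2.2 a| ≤ 1) ∧
        TBig d i.1 κT i.2.2 := ⟨_, rfl⟩
  have hex : ∀ i : (Fin L → Fin c → Pl c) × (Fin L → Pl c) × (Fin L → ℝ), ∃ Φ : Pl c,
      Φ.IsWeightedHomogeneous d j ∧ CB Φ Bd ∧ (OK i → ∀ (M : ℕ) (ξ' : Fin M → Fin c → Pl c)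
        (b' : Fin M → Pl c) (r : ℝ), (∀ a, VF d (ξ' a)) →
        (∀ a, (b' a).IsWeightedHomogeneous d (j - 1)) → 0 ≤ r →
        Flat d j (Fin.append i.1 ξ' : Fin (L + M) → Fin c → Pl c)
          (Fin.append i.2.1 b' : Fin (L + M) → Pl c) r →
        CB (bind₁ (wT d M ξ') Φ - wH d j M ξ' b') (K M * R ^ K M * r / κT)) := by
    intro i
    by_cases hi : OK i
    · have hi' := hi
      rw [hOK] at hi'
      obtain ⟨o1, o2, o3, o4, o5, o6⟩ := hi'
      obtain ⟨Φ, hΦ1, hΦ2, hΦ3⟩ := hPhi R κT hR1 hκT0 hκT1 i.1 i.2.1 i.2.2 o1 o2 o3 o4 o5 o6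
      refine ⟨Φ, hΦ1, ?_, fun _ => hΦ3⟩
      rw [hBd]
      exact hΦ2
    · exact ⟨0, isWeightedHomogeneous_zero _ _ _, cb_zero hBd0, fun h => absurd h hi⟩
  choose Φ hΦh hΦB hΦf using hex
  -- the event
  obtain ⟨Tr, hTr⟩ : ∃ Tr : Ω → Ω → Prop, Tr = fun ω ω' => ∀ x : Fin c → ℝ, (∀ i, |x i| ≤ C₀) →
    (∀ i, |ΘT (bk ω') x i - eval (ΘT (bk ω) x)
      (flow d (ξT (V ω) (β ω)) (-(((tm ω' - tm ω : ℤ) : ℝ) / 2 ^ m)) i)| ≤
      Real.exp (τ * U) / 2 ^ U) ∧
    |FN (bk ω') x - FN (bk ω) x + eval (ΘT (bk ω) x)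
      (hfl j (ξT (V ω) (β ω)) (ξN (V ω) (β ω)) (-(((tm ω' - tm ω : ℤ) : ℝ) / 2 ^ m)))| ≤
      Real.exp (τ * U) / 2 ^ U := ⟨_, rfl⟩
  have hTrP : Pb q (fun w => ¬ Tr (z (2 * L) w) (z (2 * L + 1) w)) ≤ η / 8 := by
    have h1 := hMC.pair (2 * L) (by omega) (fun ω ω' => ¬ Tr ω ω')
    rw [P2_alt g bk (by omega)] at h1
    rw [h1, hTr]
    exact hWC.transport
  obtain ⟨E, hE⟩ : ∃ E : W → Prop, E = fun w => 0 < q w ∧
    Flat d j (lgT β V ξT (L + (L + 1)) z w) (lgN β V ξN (L + (L + 1)) z w) r ∧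
    (TBig d (fun a : Fin L => lvz w (a + 0)) κT (fun a : Fin L => llz w (a + 0)) ∧
      TBig d (fun a : Fin L => lvz w (a + 1)) κT (fun a : Fin L => llz w (a + 1))) ∧
    TBig d (fun a : Fin L => lvz w (a + (L + 1))) κT (fun a : Fin L => llz w (a + (L + 1))) ∧
    Tr (z (2 * L) w) (z (2 * L + 1) w) := ⟨_, rfl⟩
  have hEP : η / 2 ≤ Pb q E := by
    have h1 := Pb_or_le hq0 (Pb_or_le hq0 (hTB 0 (by omega)) (hTB 1 (by omega)))
      (Pb_or_le hq0 (hTB (L + 1) le_rfl) hTrP)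
    have h2 : Pb q (fun w => Flat d j (lgT β V ξT (L + (L + 1)) z w)
        (lgN β V ξN (L + (L + 1)) z w) r) ≤ Pb q (fun w => E w ∨
          ((¬ TBig d (fun a : Fin L => lvz w (a + 0)) κT (fun a : Fin L => llz w (a + 0)) ∨
            ¬ TBig d (fun a : Fin L => lvz w (a + 1)) κT (fun a : Fin L => llz w (a + 1))) ∨
          (¬ TBig d (fun a : Fin L => lvz w (a + (L + 1))) κT
            (fun a : Fin L => llz w (a + (L + 1))) ∨
            ¬ Tr (z (2 * L) w) (z (2 * L + 1) w)))) := by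
      refine Pb_mono hq0 fun w hw hflat => ?_
      rw [hE]
      tauto
    have h3 := h2.trans (Pb_or_le hq0 le_rfl h1)
    have h4 := hfl0.trans h3
    linarith
  -- the data
  obtain ⟨ι, hι⟩ : ∃ ι : ℕ → W → (Fin L → Fin c → Pl c) × (Fin L → Pl c) × (Fin L → ℝ),
    ι = fun k w => ((fun a : Fin L => lvz w (a + k)), (fun a : Fin L => lnz w (a + k)),
      (fun a : Fin L => llz w (a + k))) := ⟨_, rfl⟩
  obtain ⟨o, ho⟩ : ∃ o : W → (Fin (L + 1) → Fin c → Pl c) × (Fin (L + 1) → Pl c),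
    o = fun w => ((fun a : Fin (L + 1) => lvz w (a + (L + 0))),
      (fun a : Fin (L + 1) => lnz w (a + (L + 0)))) := ⟨_, rfl⟩
  obtain ⟨o', ho'⟩ : ∃ o' : W → (Fin L → Fin c → Pl c) × (Fin L → Pl c),
    o' = fun w => ((fun a : Fin L => lvz w (a + (L + 1))),
      (fun a : Fin L => lnz w (a + (L + 1)))) := ⟨_, rfl⟩
  have hc1 : CI q (ι 0) o (fun w => bk (z (2 * L) w)) := by
    obtain ⟨i, hi⟩ : ∃ i, i + 1 = 2 * L := ⟨2 * L - 1, by omega⟩
    have h1 : CI q (ι 0) o (fun w => bk (z i w)) := by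
      refine ci_of hMC (by omega) (by omega) _ _ ?_ ?_
      · intro w w' h
        rw [hι, hlv, hln, hll]
        unfold lv ln ll
        refine Prod.ext ?_ (Prod.ext ?_ ?_)
        · funext a
          simp only
          rw [h _ (by omega)]
        · funext a
          simp only
          rw [h _ (by omega)]
        · funext a
          simp only
          rw [h (2 * (a + 0)) (by omega), h (2 * (a + 0) + 1) (by omega)]
      · intro w w' h
        rw [ho, hlv, hln]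
        unfold lv ln
        refine Prod.ext ?_ ?_
        · funext a
          simp only
          rw [h _ (by omega) (by omega)]
        · funext a
          simp only
          rw [h _ (by omega) (by omega)]
    have hs : ∀ w, 0 < q w → bk (z i w) = bk (z (2 * L) w) := fun w hw => by
      rw [same_bk hMC hw (i := i) (by omega) (by omega), hi]
    refine h1.congr hq0 ?_ ?_
    · intro w w' hw hw' e
      dsimp only at e ⊢
      rw [← hs w hw, ← hs w' hw', e]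
    · intro w w' hw hw' e
      dsimp only at e ⊢
      rw [hs w hw, hs w' hw', e]
  have hc2 : CI q (ι 1) o' (fun w => bk (z (2 * L + 1) w)) := by
    refine ci_of hMC (by omega) (by omega) _ _ ?_ ?_
    · intro w w' h
      rw [hι, hlv, hln, hll]
      unfold lv ln ll
      refine Prod.ext ?_ (Prod.ext ?_ ?_)
      · funext a
        simp only
        rw [h _ (by omega)]
      · funext a
        simp only
        rw [h _ (by omega)]
      · funext a
        simp only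
        rw [h (2 * (a + 1)) (by omega), h (2 * (a + 1) + 1) (by omega)]
    · intro w w' h
      rw [ho', hlv, hln]
      unfold lv ln
      refine Prod.ext ?_ ?_
      · funext a
        simp only
        rw [h _ (by omega) (by omega)]
      · funext a
        simp only
        rw [h _ (by omega) (by omega)]
  -- the relations
  have hrel : ∀ w, E w →
      CB (bind₁ (wT d (L + 1) (o w).1) (Φ (ι 0 w)) - wH d j (L + 1) (o w).1 (o w).2) δ ∧
      CB (bind₁ (wT d L (o' w).1) (Φ (ι 1 w)) - wH d j L (o' w).1 (o' w).2) δ := by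
    intro w hw
    rw [hE] at hw
    obtain ⟨hqw, hflat, ⟨hb0, hb1⟩, hb2, htr⟩ := hw
    have hOKk : ∀ k, k ≤ 1 → TBig d (fun a : Fin L => lvz w (a + k)) κT
        (fun a : Fin L => llz w (a + k)) → OK (ι k w) := by
      intro k hk hb
      rw [hOK, hι]
      exact ⟨fun a => hvf _ _, fun a => hhom _ _, fun a i => hvR _ _ _, fun a => hnR _ _,
        fun a => hl1 w hqw _ (by omega), hb⟩
    constructor
    · have h1 := hΦf (ι 0 w) (hOKk 0 (by omega) hb0) (L + 1) (o w).1 (o w).2 r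
        (fun a => by rw [ho]; exact hvf _ _) (fun a => by rw [ho]; exact hhom _ _) hr0.le (by
          rw [ho, hι]
          simp only
          rw [append_seq (lvz w) L (L + 1) 0, append_seq (lnz w) L (L + 1) 0, ← hT0, ← hN0]
          exact hflat)
      refine cb_mono h1 ?_
      rw [hδ]
      exact le_add_of_nonneg_right (by positivity)
    · have hflat' : Flat d j (fun a : Fin (L + L) => lvz w (a + 1))
          (fun a : Fin (L + L) => lnz w (a + 1)) r := by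
        have h1 := (hFls c j (L + L) d r hr0.le).1 (fun a : Fin (L + L + 1) => lvz w (a + 0))
          (fun a : Fin (L + L + 1) => lnz w (a + 0)) (by
            rw [hT0, hN0] at hflat
            exact hflat)
        rw [tail_seq, tail_seq] at h1
        exact h1
      have h1 := hΦf (ι 1 w) (hOKk 1 le_rfl hb1) L (o' w).1 (o' w).2 r
        (fun a => by rw [ho']; exact hvf _ _) (fun a => by rw [ho']; exact hhom _ _) hr0.le (by
          rw [ho', hι]
          simp only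
          rw [append_seq (lvz w) L L 1, append_seq (lnz w) L L 1]
          exact hflat')
      refine cb_mono h1 ?_
      rw [hδ]
      exact le_add_of_nonneg_left (by positivity)
  obtain ⟨h, hh⟩ := hPop W B _ _ _ q (fun w => bk (z (2 * L) w)) (fun w => bk (z (2 * L + 1) w))
    (ι 0) (ι 1) o o'
    (fun _ i o => CB (bind₁ (wT d (L + 1) o.1) (Φ i) - wH d j (L + 1) o.1 o.2) δ)
    (fun _ i o' => CB (bind₁ (wT d L o'.1) (Φ i) - wH d j L o'.1 o'.2) δ) E hq hc1 hc2 hrel hEP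
  refine ⟨fun x => Φ (h x), fun x => hΦh _, fun x => cb_mono (hΦB _) hnB, ?_⟩
  have hpair := hMC.pair (2 * L) (by omega) (fun ω ω' => ∀ z : Fin c → ℝ, (∀ i, |z i| ≤ C₀) →
          |FN (bk ω') z + eval (ΘT (bk ω') z) (Φ (h (bk ω'))) -
            (FN (bk ω) z + eval (ΘT (bk ω) z) (Φ (h (bk ω))))| ≤ Real.exp (-(κ * U / 2)))
  rw [P2_alt g bk (by omega)] at hpair
  rw [← hpair]
  refine hh.trans (Pb_mono hq0 ?_)
  intro w hqw hw x hx
  obtain ⟨hEw, hor⟩ := hw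
  rw [hE] at hEw
  obtain ⟨-, hflat, ⟨hb0, hb1⟩, hb2, htr⟩ := hEw
  rcases hor with hor | ⟨hr1, hr2⟩
  · rw [hor, sub_self, abs_zero]
    exact (Real.exp_pos _).le
  · rw [hTr] at htr
    obtain ⟨t1, t2⟩ := htr x hx
    rw [← hR] at t1 t2
    simp only [ho, ho', add_zero] at hr1 hr2
    have hlen : llz w L = ((tm (z (2 * L + 1) w) - tm (z (2 * L) w) : ℤ) : ℝ) / 2 ^ m := by
      rw [hll]
      rfl
    have hz1 : lvz w (((0 : Fin (L + 1)) : ℕ) + L) =
        ξT (V (z (2 * L) w)) (β (z (2 * L) w)) := by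
      rw [hlv]
      unfold lv
      simp
    have hz2 : lnz w (((0 : Fin (L + 1)) : ℕ) + L) =
        ξN (V (z (2 * L) w)) (β (z (2 * L) w)) := by
      rw [hln]
      unfold ln
      simp
    have hz3 : llz w (((0 : Fin (L + 1)) : ℕ) + L) =
        ((tm (z (2 * L + 1) w) - tm (z (2 * L) w) : ℤ) : ℝ) / 2 ^ m := by
      rw [← hlen]
      simp
    have hfin := hFit R κT δ (R / 2 ^ U) Bd hR1 hκT0 hκT1 hδ0 (by positivity) hBd0
      (fun a : Fin (L + 1) => lvz w (a + L)) (fun a : Fin (L + 1) => lnz w (a + L))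
      (fun a : Fin (L + 1) => llz w (a + L)) (Φ (h (bk (z (2 * L) w))))
      (Φ (h (bk (z (2 * L + 1) w)))) (fun a => hvf _ _) (fun a => hhom _ _)
      (fun a i => hvR _ _ _) (fun a => hnR _ _) (fun a => hl1 w hqw _ (by omega))
      (by
        rw [tail_seq, tail_seq]
        exact hb2) (hΦh _) (hΦh _) (hΦB _) hr1 (by
        rw [tail_seq, tail_seq]
        exact hr2) (ΘT (bk (z (2 * L) w)) x) (ΘT (bk (z (2 * L + 1) w)) x)
      (FN (bk (z (2 * L) w)) x) (FN (bk (z (2 * L + 1) w)) x)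
      (fun i => by
        rw [hR]
        exact hWC.ΘT_le _ x hx i)
      (fun i => by
        rw [hR]
        exact hWC.ΘT_le _ x hx i)
      (fun i => by
        rw [hz1, hz3]
        exact t1 i)
      (by
        rw [hz1, hz2, hz3]
        exact t2)
    exact hfin.trans hnE


theorem wlab0P_thm : Lab0PStmt :=
  lab0P_of (fit_of flw1_thm flw3_thm flw4_thm flw5_thm (sub_of flw1_thm flw2_thm))
    (phiM_of flw1_thm splM_thm) fls_thm mcr_thm pop_thm

end Pool.STAT
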