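import Pool.Agent.H25.STL.Ok

/-!
# Systems with live times: ladders and bounded lines, for all samples
-/

set_option autoImplicit false

namespace Pool.STL

open Finset MvPolynomial
open Pool.Agent.H49.Ent Pool.Agent.H32.Dense Pool.STK Pool.KS3
open Pool.BFL (Pl CB Pb P2 MC alt)
open Pool.STAT
open Pool.MIC.Frm (nat grow_fr)

/-- **All samples have ladders.** -/
theorem jg (n K : ℕ) (d : ℕ → ℕ) (σ : ℕ → ℝ) (C₁ : ℝ) (hs : Slp d σ n) (hC₁ : 1 ≤ C₁) :
    ∃ C₂ : ℝ, 1 ≤ C₂ ∧ ∀ M : ℕ, ∃ z₀ : ℕ, ∀ (J z : ℕ) (D : NDat) (q : D.Ω → ℝ), z₀ ≤ z →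
      OkL D n K J z M σ C₁ q → ∀ ω, 0 < q ω → D.JG d z σ C₂ M n ω := by
  obtain ⟨C, z₁, hC, hN⟩ := nxt n K C₁ hC₁
  obtain ⟨C₂, hC₂, hL⟩ := JBW.ladder AdxRow.adx_thm nrm_thm lad_thm dgb_thm bxn_thm n K d σ C₁
    (C + 2 * C₁) hs hC₁ (n + 1) le_rfl
  refine ⟨C₂, hC₂, fun M => ?_⟩
  obtain ⟨z₂, hL⟩ := hL M
  refine ⟨max (max z₁ z₂) 1, ?_⟩
  intro J z D q hz h ω hω
  have hz1 : z₁ ≤ z := (le_max_left _ _).trans ((le_max_left _ _).trans hz)
  have hz2 : z₂ ≤ z := (le_max_right _ _).trans ((le_max_left _ _).trans hz)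
  have hz3 : 1 ≤ z := (le_max_right _ _).trans hz
  have hzr : (1 : ℝ) ≤ z := by exact_mod_cast hz3
  obtain ⟨κ, hOk⟩ := h.ok hz3
  have hu : ∀ k ≤ M, ∀ i ≤ n, 1 / (2 : ℝ) ^ D.g k i ≤ Real.exp (C₁ * z) * rd z k ^ σ i :=
    fun k hk i hi => JBW.unit_le (h.hom k hk i hi) (by linarith)
  have hr : ∀ (k i : ℕ), 0 ≤ rd z k ^ σ i := fun k i => Real.rpow_nonneg (JBW.rd_pos _ _).le _
  have key : ∀ (x : ℝ) (k i : ℕ), x ≤ C + C₁ → k ≤ M → i ≤ n →
      Real.exp (x * z) / 2 ^ D.g k i ≤ Real.exp ((C + 2 * C₁) * z) * rd z k ^ σ i := by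
    intro x k i hx hk hi
    rw [div_eq_mul_one_div]
    refine (mul_le_mul_of_nonneg_left (hu k hk i hi) (Real.exp_pos _).le).trans ?_
    rw [← mul_assoc, ← Real.exp_add]
    refine mul_le_mul_of_nonneg_right (Real.exp_le_exp.2 ?_) (hr k i)
    nlinarith
  refine hL z (D.Φs M ω) D.g hz2 (JBW.lbase_Φs hOk ω hω) (fun k hk j hj => ?_)
    (fun i hi k hk b hb => ?_) (fun i hi b hb => ?_)
  · have := h.hom k hk j hj.le
    rwa [hs.int j hj] at this
  · have e1 : D.Φs M ω (k + 1) = D.P (k + 1) (D.c (k + 1) ω) := by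
      unfold NDat.Φs
      rw [if_pos (by omega)]
    have e0 : D.Φs M ω k = D.P k (D.c k ω) := by
      unfold NDat.Φs
      rw [if_pos (by omega)]
    rw [e1] at hb ⊢
    rw [e0, map_sub]
    exact (hN D J z M σ q hz1 h k hk ω hω i hi b hb).trans (key C k i (by linarith) hk.le hi)
  · have e1 : D.Φs M ω (M + 1) = D.Rt ω := by
      unfold NDat.Φs
      rw [if_neg (by omega)]
    have e0 : D.Φs M ω M = D.P M (D.c M ω) := by
      unfold NDat.Φs
      rw [if_pos le_rfl]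
    rw [e0] at hb ⊢
    rw [e1, map_sub]
    by_cases hi0 : i = 0
    · subst hi0
      obtain ⟨t, ht⟩ := JBW.eq_C_of_tri (h.P_tri M (D.c M ω))
      have h1 := h.hgt M le_rfl ω hω 0 (Nat.zero_le _)
      unfold NDat.rh at h1
      rw [ht, eval_C] at h1
      have e2 : D.Rt ω 0 = MvPolynomial.C (D.X ω 0) := by
        unfold NDat.Rt atT
        rw [Function.update_self]
      rw [e2, ht, eval_C, eval_C]
      refine h1.trans (le_trans ?_ (key 0 M 0 (by linarith) le_rfl (Nat.zero_le _)))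
      rw [zero_mul, Real.exp_zero]
    · have e2 : D.Rt ω i = D.R (D.ln ω) i := by
        unfold NDat.Rt atT
        rw [Function.update_of_ne hi0]
      rw [e2]
      exact (h.line M le_rfl ω hω i (by omega) hi b hb).trans (key C₁ M i (by linarith) le_rfl hi)

/-- The polynomials of the line are bounded on the unit box. -/
theorem line_sup (n K : ℕ) (C₁ : ℝ) (hC₁ : 1 ≤ C₁) : ∃ C : ℝ, 1 ≤ C ∧
    ∀ (D : NDat) (J z M : ℕ) (σ : ℕ → ℝ) (q : D.Ω → ℝ), 1 ≤ z → OkL D n K J z M σ C₁ q →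
    ∀ ω, 0 < q ω → ∀ i, 1 ≤ i → i ≤ n → ∀ b : ℕ → ℝ, (∀ j < n, |b j| ≤ 1) →
      |eval b (D.R (D.ln ω) i)| ≤ Real.exp (C * z) := by
  obtain ⟨G, E, hG, hGr⟩ := grow_fr n K
  have hE0 : (0 : ℝ) ≤ E := Nat.cast_nonneg E
  refine ⟨G + (C₁ + 2) * E + C₁, by
    have : 0 ≤ (C₁ + 2) * E := by positivity
    linarith, ?_⟩
  intro D J z M σ q hz h ω hω i hi hin b hb
  have hzr : (1 : ℝ) ≤ z := by exact_mod_cast hz
  obtain ⟨κ, hOk⟩ := h.ok hz
  obtain ⟨t, ht, ht0⟩ := JBW.base_Φs (M := M) hOk ω hω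
  have e0 : D.Φs M ω 0 = D.P 0 (D.c 0 ω) := by
    unfold NDat.Φs
    rw [if_pos (Nat.zero_le _)]
  rw [e0] at ht0
  have hnat : ∀ j < n, |nat (D.g 0) (D.P 0 (D.c 0 ω)) b j| ≤ Real.exp ((C₁ + 2) * z) := by
    intro j hj
    have hb1 := hb j hj
    unfold nat
    by_cases hj0 : j = 0
    · subst hj0
      rw [ht0, eval_C, h.g_zero, zero_mul, pow_zero, one_mul]
      have h1 : |b 0 - t| ≤ 3 := by
        have := abs_sub (b 0) t
        linarith
      have h2 := Real.add_one_le_exp ((C₁ + 2) * (z : ℝ))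
      have h3 : 3 * 1 ≤ (C₁ + 2) * (z : ℝ) := mul_le_mul (by linarith) hzr (by norm_num)
        (by linarith)
      linarith
    · rw [h.P_zero _ j (by omega), map_zero, sub_zero, abs_mul, abs_of_pos (by positivity)]
      have h1 := (abs_le.1 (h.hom 0 (Nat.zero_le _) j hj.le)).2
      have h2 : (D.g 0 j : ℝ) ≤ C₁ * z := by
        simp only [Nat.cast_zero, zero_mul, mul_zero, sub_zero] at h1
        exact h1
      have h3 : (2 : ℝ) ^ D.g 0 j ≤ Real.exp (C₁ * z) := by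
        refine (JBW.two_pow_le _).trans (Real.exp_le_exp.2 h2)
      have h4 : Real.exp (C₁ * z) ≤ Real.exp ((C₁ + 2) * z) := Real.exp_le_exp.2 (by nlinarith)
      have h5 : (2 : ℝ) ^ D.g 0 j * |b j| ≤ 2 ^ D.g 0 j * 1 :=
        mul_le_mul_of_nonneg_left hb1 (by positivity)
      linarith
  have h1 := hGr (D.g 0) (D.P 0 (D.c 0 ω)) (D.R (D.ln ω) i) (Real.exp (C₁ * z))
    (Real.exp ((C₁ + 2) * z)) (h.P_tri _ _) (fun j _ => h.P_deg _ _ _)
    (Real.one_le_exp (by positivity))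
    ((h.R_tri _ i).trans (range_subset_range.mpr hin)) (h.R_deg _ _) (fun b' hb' => by
      have h2 := h.line 0 (Nat.zero_le _) ω hω i hi hin b' fun j hj => by
        have := hb' j (by omega)
        unfold nat at this
        rw [abs_mul, abs_of_pos (by positivity)] at this
        rw [le_div_iff₀ (by positivity), mul_comm]
        exact this
      rw [h.P_zero _ i hi, map_zero, sub_zero] at h2
      refine h2.trans ?_
      exact div_le_self (Real.exp_pos _).le (one_le_pow₀ (by norm_num))) b hnat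
  refine h1.trans ?_
  rw [← Real.exp_nat_mul]
  have e1 : G ≤ Real.exp (G * z) := by
    have := Real.add_one_le_exp (G * (z : ℝ))
    nlinarith
  have e2 : Real.exp ((G + (C₁ + 2) * E + C₁) * z) =
      Real.exp (G * z) * Real.exp (E * ((C₁ + 2) * z)) * Real.exp (C₁ * z) := by
    rw [← Real.exp_add, ← Real.exp_add]
    congr 1
    ring
  rw [e2]
  exact mul_le_mul_of_nonneg_right (mul_le_mul_of_nonneg_right e1 (Real.exp_pos _).le)
    (Real.exp_pos _).le

/-- **All lines are bounded on the whole window.** -/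
theorem lg (n K : ℕ) (d : ℕ → ℕ) (C₁ : ℝ) (hd0 : d 0 = 1) (hd : ∀ i, 1 ≤ d i) (hC₁ : 1 ≤ C₁) :
    ∃ (C₅ : ℝ) (z₀ : ℕ), 1 ≤ C₅ ∧ ∀ (J z M : ℕ) (σ : ℕ → ℝ) (D : NDat) (q : D.Ω → ℝ), z₀ ≤ z →
      OkL D n K J z M σ C₁ q → ∀ ω, 0 < q ω → D.LG d z C₅ n (D.ln ω) := by
  classical
  obtain ⟨C, hC, hS⟩ := line_sup n K C₁ hC₁
  obtain ⟨N, hN, hNr⟩ := Pool.SYS35.nrm_of_sup n K
  obtain ⟨m, hm⟩ : ∃ m : ℕ, m = ∑ i ∈ range (n + 1), d i := ⟨_, rfl⟩
  have hmd : ∀ i < n + 1, d i ≤ m := fun i hi => by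
    rw [hm]
    exact Finset.single_le_sum (f := d) (fun _ _ => Nat.zero_le _) (mem_range.2 hi)
  have hSlp : Slp d (fun i => (d i : ℝ)) n := ⟨hd0, hd, fun _ _ => rfl, le_rfl, by simp⟩
  obtain ⟨C₂, hC₂⟩ : ∃ C₂ : ℝ, C₂ = (K * m : ℕ) + N + C := ⟨_, rfl⟩
  have hKm : (0 : ℝ) ≤ ((K * m : ℕ) : ℝ) := Nat.cast_nonneg _
  obtain ⟨C₃, hC₃, hL⟩ := lad_thm n K d (fun i => (d i : ℝ)) C₂ hSlp (by rw [hC₂]; linarith)
  obtain ⟨z₁, hL⟩ := hL 1
  refine ⟨C₃, max z₁ 1, hC₃, ?_⟩
  intro J z M σ D q hz h ω hω t ht i hi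
  have hz1 : z₁ ≤ z := (le_max_left _ _).trans hz
  have hz3 : 1 ≤ z := (le_max_right _ _).trans hz
  have hzr : (1 : ℝ) ≤ z := by exact_mod_cast hz3
  obtain ⟨Φ, hΦ⟩ : ∃ Φ : ℕ → ℕ → PN, ∀ k, Φ k =
      if k = 0 then (fun i => if i = 0 then MvPolynomial.C t else 0)
      else atT t (D.R (D.ln ω)) := ⟨_, fun _ => rfl⟩
  have hΦ0 : Φ 0 = fun i => if i = 0 then MvPolynomial.C t else 0 := by rw [hΦ, if_pos rfl]
  have hΦ1 : ∀ k, k ≠ 0 → Φ k = atT t (D.R (D.ln ω)) := fun k hk => by rw [hΦ, if_neg hk]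
  have hat0 : atT t (D.R (D.ln ω)) 0 = MvPolynomial.C t := by
    unfold atT
    rw [Function.update_self]
  have hat1 : ∀ i, i ≠ 0 → atT t (D.R (D.ln ω)) i = D.R (D.ln ω) i := fun i hi => by
    unfold atT
    rw [Function.update_of_ne hi]
  have htri : ∀ k, TriN (Φ k) := by
    intro k i
    by_cases hk : k = 0
    · subst hk
      rw [hΦ0]
      dsimp only
      split_ifs
      · rw [vars_C]
        exact Finset.empty_subset _
      · rw [vars_0]
        exact Finset.empty_subset _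
    · rw [hΦ1 k hk]
      exact M31.tri_atT (h.R_tri _) t i
  have hdeg : ∀ k i, (Φ k i).totalDegree ≤ K := by
    intro k i
    by_cases hk : k = 0
    · subst hk
      rw [hΦ0]
      dsimp only
      split_ifs
      · rw [totalDegree_C]
        exact Nat.zero_le _
      · rw [totalDegree_zero]
        exact Nat.zero_le _
    · rw [hΦ1 k hk]
      by_cases hi : i = 0
      · subst hi
        rw [hat0, totalDegree_C]
        exact Nat.zero_le _
      · rw [hat1 i hi]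
        exact h.R_deg _ _
  have hB : LBase K (n + 1) 1 Φ := by
    refine ⟨fun k _ i _ => hdeg k i, fun k _ => htri k, fun i hi _ => ?_, t, ?_, ?_⟩
    · rw [hΦ0]
      dsimp only
      rw [if_neg (by omega)]
    · rw [abs_le]
      exact ⟨by linarith [ht.1], by linarith [ht.2]⟩
    · rw [hΦ0]
      dsimp only
      rw [if_pos rfl]
  have hadp : ∀ i, nrm d 1 (adp d (Φ 0) i) ≤ 2 ^ d i := by
    intro i
    obtain ⟨e1, -⟩ := AdxRow.adx_thm.2 d (Φ 0) hd0 hd (htri 0)
    have e2 := e1 i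
    by_cases hi : i = 0
    · subst hi
      rw [e2]
      have e3 : bind₁ (adp d (Φ 0)) (Φ 0 0) = MvPolynomial.C t := by
        rw [hΦ0]
        dsimp only
        rw [if_pos rfl, bind₁_C_right]
      rw [e3]
      refine (NRM.nrm_add d one_pos _ _).trans ?_
      have e4 := (NRM.nrm_trw (d := d) one_pos (d 0) (MvPolynomial.C t : PN)).trans
        (le_of_eq (NRM.nrm_C (d := d) 1 t))
      rw [NRM.nrm_X, one_pow, hd0, pow_one]
      have e5 : |t| ≤ 1 := by
        rw [abs_le]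
        exact ⟨by linarith [ht.1], ht.2⟩
      rw [hd0] at e4
      linarith
    · rw [e2]
      have e3 : bind₁ (adp d (Φ 0)) (Φ 0 i) = 0 := by
        rw [hΦ0]
        dsimp only
        rw [if_neg hi, map_zero]
      rw [e3]
      refine (NRM.nrm_add d one_pos _ _).trans ?_
      have e4 := NRM.nrm_trw (d := d) one_pos (d i) (0 : PN)
      rw [NRM.nrm_zero] at e4
      rw [NRM.nrm_X, one_pow]
      have e5 : (1 : ℝ) ≤ 2 ^ d i := one_le_pow₀ (by norm_num)
      linarith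
  have hLad : Lad d z (fun i => (d i : ℝ)) C₂ 1 (n + 1) Φ := by
    intro k hk i hi
    obtain rfl : k = 0 := by omega
    have hrd : Pool.STAT.rd z 0 = 1 := by
      unfold Pool.STAT.rd
      rw [zero_mul, pow_zero, div_one]
    rw [hrd, Real.one_rpow, mul_one, zero_add, hΦ1 1 one_ne_zero]
    by_cases hi0 : i = 0
    · subst hi0
      rw [hat0]
      have e1 : Φ 0 0 = MvPolynomial.C t := by
        rw [hΦ0]
        dsimp only
        rw [if_pos rfl]
      rw [e1, sub_self, map_zero, NRM.nrm_zero]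
      exact (Real.exp_pos _).le
    · have e1 : Φ 0 i = 0 := by
        rw [hΦ0]
        dsimp only
        rw [if_neg hi0]
      rw [hat1 i hi0, e1, sub_zero]
      have e2 := NRM.nrm_bind (d := d) one_pos (adp d (Φ 0)) (D.R (D.ln ω) i) 2 two_pos
        (fun j _ => hadp j)
      have hv : (D.R (D.ln ω) i).vars ⊆ range n :=
        (h.R_tri _ i).trans (range_subset_range.mpr (by omega))
      have e3 := Pool.SYS35.nrm_scale (d := d) (D := K * m) (F := D.R (D.ln ω) i)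
        (Pool.SYS35.weight_le hv (h.R_deg _ _) (fun j hj => hmd j (by omega))) (A := 2) (ρ := 1)
        (by norm_num) zero_le_one
      rw [mul_one] at e3
      have e4 := hNr d 1 (D.R (D.ln ω) i) (Real.exp (C * z)) one_pos hv (h.R_deg _ _)
        (fun b hb => hS D J z M σ q hz3 h ω hω i (by omega) (by omega) b fun j hj => by
          have := hb j hj
          rwa [one_pow] at this)
      refine e2.trans (e3.trans ((mul_le_mul_of_nonneg_left e4 (by positivity)).trans ?_))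
      have e5 : (2 : ℝ) ^ (K * m) ≤ Real.exp (((K * m : ℕ) : ℝ) * z) := by
        refine (JBW.two_pow_le _).trans (Real.exp_le_exp.2 ?_)
        nlinarith
      have e6 : N ≤ Real.exp (N * z) := by
        have := Real.add_one_le_exp (N * (z : ℝ))
        nlinarith
      have e7 : Real.exp (C₂ * z) = Real.exp (((K * m : ℕ) : ℝ) * z) *
          (Real.exp (N * z) * Real.exp (C * z)) := by
        rw [← Real.exp_add, ← Real.exp_add, hC₂]
        congr 1
        ring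
      rw [e7]
      exact mul_le_mul e5 (mul_le_mul_of_nonneg_right e6 (Real.exp_pos _).le) (by positivity)
        (Real.exp_pos _).le
  have := (hL z Φ (n + 1) hz1 le_rfl hB hLad).1 1 le_rfl i (by omega)
  rw [hΦ1 1 one_ne_zero] at this
  exact this.1

end Pool.STL
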