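import Pool.Agent.H25.STL.Lc1

/-!
# The data of the live core
-/

set_option autoImplicit false

namespace Pool.STL

open Finset MvPolynomial
open Pool.Agent.H49.Ent Pool.Agent.H32.Dense Pool.STK Pool.KS3
open Pool.BFL (Pl CB Pb P2 MC alt)
open Pool.STAT
open Pool.LIV (Rel RelC LC exists_relC)

open Classical in
/-- The sheet on the sequences of labels of the samples. -/
noncomputable def shS (D : NDat) (q : D.Ω → ℝ) (K : ℕ) (d : ℕ → ℕ) (z : ℕ) (C₁ C₂ : ℝ)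
    (v v' : ℕ) {n : ℕ} (x : ℕ → D.Γ) (y : Fin n → ℝ) : ℝ :=
  if ∃ ω, 0 < q ω ∧ D.cs v' ω = x then D.shN K d z C₁ C₂ v v' x y else 0

theorem shS_eq {D : NDat} {q : D.Ω → ℝ} (K : ℕ) (d : ℕ → ℕ) (z : ℕ) (C₁ C₂ : ℝ)
    (v v' : ℕ) {n : ℕ} {ω : D.Ω} (hω : 0 < q ω) (y : Fin n → ℝ) :
    shS D q K d z C₁ C₂ v v' (D.cs v' ω) y = D.shN K d z C₁ C₂ v v' (D.cs v' ω) y := by
  unfold shS
  rw [if_pos ⟨ω, hω, rfl⟩]

/-- The live core of the coordinate `n`, with the fields of the system with `N` coordinates. -/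
def LCi (D : NDat) (q : D.Ω → ℝ) (K : ℕ) (d : ℕ → ℕ) (C₁ C₂ C₃ η : ℝ) (J z U k n N Dg : ℕ)
    (hn : 0 < n) : Prop :=
  LC (fun l : Fin n => d l) ⟨0, hn⟩ (d n) Dg (U * z) (2 * U * z) 2 (C₃ * z) η q
    (D.wn J ((k + U) * z)) (D.cs (k + 3 * U)) (D.cs (k + U)) (vr D q d J z (k + U) (U + 1) C₂ N)
    (D.tm J z (k + 3 * U)) (D.pT (k + U)) (D.pN d z (k + U) n)
    (D.thT K d z C₁ C₂ (k + U) (k + 3 * U)) (shS D q K d z C₁ C₂ (k + U) (k + 3 * U))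
    (fun v _ => vfT1 d n hn (Real.exp ((C₂ + 1) * z)) v)
    (fun v _ => vfN d n (Real.exp ((C₂ + 1) * z)) v)

/-- The sample is in the core. -/
def Own (D : NDat) (K : ℕ) (d : ℕ → ℕ) (C₁ C₂ C₃ : ℝ) (z U k n : ℕ) (ω : D.Ω) : Prop :=
  (∀ i, |D.thT K d z C₁ C₂ (k + U) (k + 3 * U) (D.cs (k + 3 * U) ω)
    (D.pT (k + U) ω : Fin n → ℝ) i| ≤ Real.exp (C₃ * z) / 2 ^ (U * z)) ∧
    |D.pN d z (k + U) n ω - D.shN K d z C₁ C₂ (k + U) (k + 3 * U) (D.cs (k + 3 * U) ω)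
      (D.pT (k + U) ω : Fin n → ℝ)| ≤ Real.exp (C₃ * z) / 2 ^ (U * z)

theorem pN_le {D : NDat} {n K J z M : ℕ} {d : ℕ → ℕ} {C₁ : ℝ} {q : D.Ω → ℝ} (hC₁ : 1 ≤ C₁)
    (h : OkL D n K J z M (fun i => d i) C₁ q) {v : ℕ} (hv : v ≤ M) {ω : D.Ω} (hω : 0 < q ω) :
    |D.pN d z v n ω| ≤ Real.exp (C₁ * z) := by
  have h1 := h.hgt v hv ω hω n le_rfl
  have h2 := (abs_le.1 (h.hom v hv n le_rfl)).1
  have hz0 : (0 : ℝ) ≤ z := Nat.cast_nonneg z
  have h3 := unit_succ (a := d n * (v * z)) (b := D.g v n) (c := C₁ * z) (by positivity) (by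
    push_cast at h2 ⊢
    linarith)
  unfold NDat.pN
  rw [abs_mul, abs_of_pos (by positivity)]
  have h4 := h1.trans h3
  rw [le_div_iff₀ (by positivity), mul_comm] at h4
  exact h4

theorem six_exp {a b c : ℝ} {z : ℕ} (hz : 1 ≤ z) (ha : 0 ≤ a) (hb : 0 ≤ b) (hc : 0 ≤ c) :
    4 * Real.exp (a * z) + Real.exp (b * z) + Real.exp (c * z) ≤
      Real.exp ((a + b + c + 5) * z) := by
  have hz1 : (1 : ℝ) ≤ z := by exact_mod_cast hz
  have e1 : Real.exp ((a + b + c + 5) * z) = Real.exp ((a + b + c) * z) * Real.exp (5 * z) := by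
    rw [← Real.exp_add]
    congr 1
    ring
  have e2 : (6 : ℝ) ≤ Real.exp (5 * z) := by
    have := Real.add_one_le_exp (5 * (z : ℝ))
    linarith
  have e3 : Real.exp (a * z) ≤ Real.exp ((a + b + c) * z) := Real.exp_le_exp.2 (by nlinarith)
  have e4 : Real.exp (b * z) ≤ Real.exp ((a + b + c) * z) := Real.exp_le_exp.2 (by nlinarith)
  have e5 : Real.exp (c * z) ≤ Real.exp ((a + b + c) * z) := Real.exp_le_exp.2 (by nlinarith)
  rw [e1]
  nlinarith [Real.exp_pos ((a + b + c) * z)]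

set_option maxHeartbeats 2000000 in
/-- **The data of the live core.** -/
theorem lc_thm (n K : ℕ) (d : ℕ → ℕ) (C₁ C₇ : ℝ) (hn : 0 < n) (hd0 : d 0 = 1)
    (hd : ∀ i, 1 ≤ d i) (hC₁ : 1 ≤ C₁) (hC₇ : 1 ≤ C₇) :
    ∃ C₂' : ℝ, 1 ≤ C₂' ∧ ∀ C₂ : ℝ, C₂' ≤ C₂ → ∃ C₃ : ℝ, 1 ≤ C₃ ∧ ∃ Dg U₁ : ℕ, 1 ≤ U₁ ∧
    ∀ U M : ℕ, U₁ ≤ U → ∃ z₀ : ℕ, ∀ (J z k N : ℕ) (D : NDat) (q : D.Ω → ℝ), z₀ ≤ z → n ≤ N →
      OkL D n K J z M (fun i => d i) C₁ q → k + 3 * U ≤ M →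
      CH q D.T (D.c (k + U)) ≤ CH q D.T (fun ω => (D.ln ω, D.c (k + U) ω)) + z →
      CH q (vr D q d J z (k + U) (U + 1) C₂ N) (D.c (k + U)) -
        CH q (vr D q d J z (k + U) (U + 1) C₂ N) (D.c (k + 3 * U)) ≤ C₇ * z →
      (∀ ω, 0 < q ω → D.GB K d z C₁ C₂ (k + 3 * U) n (D.cs (k + 3 * U) ω) ∧
        Own D K d C₁ C₂ C₃ z U k n ω) ∧
      ∀ η : ℝ, 0 ≤ η → LCi D q K d C₁ C₂ C₃ η J z U k n N Dg hn := by
  classical
  have hSlp : Slp d (fun i => (d i : ℝ)) n := ⟨hd0, hd, fun _ _ => rfl, le_rfl, by simp⟩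
  obtain ⟨CJ, hCJ1, hJ⟩ := jg n K d (fun i => (d i : ℝ)) C₁ hSlp hC₁
  obtain ⟨C5, z5, hC51, hT⟩ := lg n K d C₁ hd0 hd hC₁
  obtain ⟨CP, hCP1, hP⟩ := trp_thm n K d C₁ C5 hd0 hd hC₁ hC51
  refine ⟨max CJ CP, hCJ1.trans (le_max_left _ _), fun C₂ hC₂ => ?_⟩
  have hC₂J : CJ ≤ C₂ := (le_max_left _ _).trans hC₂
  have hC₂1 : 1 ≤ C₂ := hCJ1.trans hC₂J
  obtain ⟨CT, hCT1, hP⟩ := hP C₂ ((le_max_right _ _).trans hC₂)
  obtain ⟨CN, hCN1, hN⟩ := nat_thm n K d C₁ C₂ hn hd0 hd hC₁ hC₂1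
  obtain ⟨CC, hCC1, hC⟩ := cpt_thm n K d C₁ C₂ hd0 hd hC₁ hC₂1
  obtain ⟨KR, hKR⟩ := exists_relC n (d n) (fun i : Fin n => d i) (fun i => hd i) (hd n)
  obtain ⟨Dg, hDg, hpol⟩ := core_poly n K d hd0 hd
  obtain ⟨Cb, hCb, hcb⟩ := cb_of_sup n Dg
  have hKR0 : (0 : ℝ) ≤ KR := Nat.cast_nonneg KR
  obtain ⟨CR, hCR⟩ : ∃ CR : ℝ, CR = CN + (C₂ + 1) := ⟨_, rfl⟩
  have hCR1 : 1 ≤ CR := by rw [hCR]; linarith
  obtain ⟨CL, hCL⟩ : ∃ CL : ℝ, CL = KR + KR * CR := ⟨_, rfl⟩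
  have hCL0 : 0 ≤ CL := by rw [hCL]; positivity
  obtain ⟨CF, hCF⟩ : ∃ CF : ℝ, CF = CN + CC + C₁ + 5 := ⟨_, rfl⟩
  obtain ⟨C₃, hC₃⟩ : ∃ C₃ : ℝ, C₃ = CT + 2 * CL + CN + CC + (C₂ + 1) + CF + Cb + C₇ + 1 :=
    ⟨_, rfl⟩
  have h3T : CT + 2 * CL ≤ C₃ := by rw [hC₃, hCF]; linarith
  have h3N : CN ≤ C₃ := by rw [hC₃, hCF]; linarith
  have h3C : CC ≤ C₃ := by rw [hC₃, hCF]; linarith
  have h32 : C₂ + 1 ≤ C₃ := by rw [hC₃, hCF]; linarith
  have h3b : CN + Cb ≤ C₃ := by rw [hC₃, hCF]; linarith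
  have h3f : CF + Cb ≤ C₃ := by rw [hC₃, hCF]; linarith
  have h37 : C₇ ≤ C₃ := by rw [hC₃, hCF]; linarith
  have h31 : 1 ≤ C₃ := by linarith
  have hl2 : 0 < Real.log 2 := Real.log_pos (by norm_num)
  obtain ⟨U₁, hU₁⟩ : ∃ U₁ : ℕ, U₁ = ⌈(CT + CL) / Real.log 2⌉₊ + 1 := ⟨_, rfl⟩
  refine ⟨C₃, h31, Dg, U₁, by omega, fun U M hU => ?_⟩
  have hU1 : 1 ≤ U := by omega
  have hUl : CT + CL ≤ U * Real.log 2 := by
    rw [← div_le_iff₀ hl2]
    refine (Nat.le_ceil _).trans ?_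
    exact_mod_cast (by omega : ⌈(CT + CL) / Real.log 2⌉₊ ≤ U)
  obtain ⟨zJ, hJ⟩ := hJ M
  obtain ⟨zP, hP⟩ := hP U M hU1
  obtain ⟨zN, hN⟩ := hN U M
  obtain ⟨zC, hC⟩ := hC U M
  refine ⟨max (max zJ z5) (max zP (max zN (max zC 1))), ?_⟩
  intro J z k N D q hz hnN hOkL hk hti hind
  have hzJ : zJ ≤ z := (le_max_left _ _).trans ((le_max_left _ _).trans hz)
  have hz5 : z5 ≤ z := (le_max_right _ _).trans ((le_max_left _ _).trans hz)
  have hzP : zP ≤ z := (le_max_left _ _).trans ((le_max_right _ _).trans hz)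
  have hzN : zN ≤ z := (le_max_left _ _).trans ((le_max_right _ _).trans
    ((le_max_right _ _).trans hz))
  have hzC : zC ≤ z := (le_max_left _ _).trans ((le_max_right _ _).trans
    ((le_max_right _ _).trans ((le_max_right _ _).trans hz)))
  have hz1 : 1 ≤ z := (le_max_right _ _).trans ((le_max_right _ _).trans
    ((le_max_right _ _).trans ((le_max_right _ _).trans hz)))
  have hz0 : (0 : ℝ) ≤ z := Nat.cast_nonneg z
  have hzr : (1 : ℝ) ≤ z := by exact_mod_cast hz1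
  obtain ⟨κ, hOk⟩ := hOkL.ok hz1
  have hq := hOk.isLaw
  have hq0 := hq.nonneg
  have hexp : ∀ c : ℝ, c ≤ C₃ → Real.exp (c * z) ≤ Real.exp (C₃ * z) := fun c hc =>
    Real.exp_le_exp.2 (mul_le_mul_of_nonneg_right hc hz0)
  have hexpU : ∀ c : ℝ, c ≤ C₃ → Real.exp (c * z) / 2 ^ (U * z) ≤
      Real.exp (C₃ * z) / 2 ^ (U * z) := fun c hc =>
    div_le_div_of_nonneg_right (hexp c hc) (by positivity)
  have hvM : k + U ≤ M := by omega
  have hvv : k + U ≤ k + 3 * U := by omega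
  have hsub : (k + 3 * U - (k + U)) * z = 2 * U * z := by
    congr 1
    omega
  have hJG : ∀ ω, 0 < q ω → D.JG d z (fun i => (d i : ℝ)) C₂ M n ω := fun ω hω =>
    Wcb.lad_mono hC₂J (hJ J z D q hzJ hOkL ω hω)
  have hLG : ∀ ω, 0 < q ω → D.LG d z C5 n (D.ln ω) := fun ω hω =>
    hT J z M (fun i => (d i : ℝ)) D q hz5 hOkL ω hω
  have hcpt := fun ω (hω : 0 < q ω) => hC J z k κ D q hzC hOk hk ω hω (hJG ω hω)
  have hδ0 : ∀ (y y' : Fin n → ℝ) (δ : ℝ), (∀ i, |y i - y' i| ≤ δ) → 0 ≤ δ := fun y y' δ h =>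
    (abs_nonneg _).trans (h ⟨0, hn⟩)
  have hTle : ∀ x (y : Fin n → ℝ), (∀ i, |y i| ≤ 2) → ∀ i,
      |D.thT K d z C₁ C₂ (k + U) (k + 3 * U) x y i| ≤ Real.exp (CN * z) := fun x y hy i =>
    (hN z k D x hzN hk y y hy hy).1 i
  -- the bound of the sheet
  have hFle : ∀ ω, 0 < q ω → ∀ y : Fin n → ℝ, (∀ i, |y i| ≤ 2) →
      |D.shN K d z C₁ C₂ (k + U) (k + 3 * U) (D.cs (k + 3 * U) ω) y| ≤ Real.exp (CF * z) := by
    intro ω hω y hy
    have hpT : ∀ i : Fin n, |D.pT (k + U) ω i| ≤ 2 := fun i => Wcb.pT_le hOk hvM ω hω i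
    have a1 := (((hN z k D (D.cs (k + 3 * U) ω) hzN hk y (D.pT (k + U) ω) hy hpT).2 4).1
      (fun i => by
        refine (abs_sub _ _).trans ?_
        linarith [hy i, hpT i])).2
    have a2 := (hcpt ω hω).2.1.2
    have a3 := pN_le hC₁ hOkL hvM hω
    have a4 : Real.exp (CC * z) / 2 ^ (U * z) ≤ Real.exp (CC * z) :=
      div_le_self (Real.exp_pos _).le (one_le_pow₀ (by norm_num))
    obtain ⟨s, hs⟩ : ∃ s : ℝ, s = D.shN K d z C₁ C₂ (k + U) (k + 3 * U)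
      (D.cs (k + 3 * U) ω) y := ⟨_, rfl⟩
    obtain ⟨s', hs'⟩ : ∃ s' : ℝ, s' = D.shN K d z C₁ C₂ (k + U) (k + 3 * U)
      (D.cs (k + 3 * U) ω) (D.pT (k + U) ω : Fin n → ℝ) := ⟨_, rfl⟩
    rw [← hs, ← hs'] at a1
    rw [← hs'] at a2
    rw [← hs]
    have a5 : |s| ≤ |s - s'| + (|D.pN d z (k + U) n ω - s'| + |D.pN d z (k + U) n ω|) := by
      have b1 := abs_sub (D.pN d z (k + U) n ω) (D.pN d z (k + U) n ω - s')
      have b2 := abs_add_le (s - s') s'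
      rw [sub_add_cancel] at b2
      rw [sub_sub_cancel] at b1
      linarith
    have a6 := six_exp (a := CN) (b := CC) (c := C₁) hz1 (by linarith) (by linarith)
      (by linarith)
    rw [hCF]
    refine le_trans ?_ a6
    linarith
  -- the representative of the block
  have hrp : ∀ ω, 0 < q ω → 0 < q (rp q (D.wn J ((k + U) * z)) ω) ∧
      D.wn J ((k + U) * z) (rp q (D.wn J ((k + U) * z)) ω) = D.wn J ((k + U) * z) ω :=
    fun ω hω => rp_spec hω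
  -- the size of the errors
  obtain ⟨R, hR⟩ : ∃ R : ℝ, R = Real.exp (CR * z) := ⟨_, rfl⟩
  have hR1 : 1 ≤ R := by
    rw [hR]
    exact Real.one_le_exp (by positivity)
  have hSR : Real.exp ((C₂ + 1) * z) ≤ R := by
    rw [hR, hCR]
    exact Real.exp_le_exp.2 (by nlinarith)
  have hNR : Real.exp (CN * z) ≤ R := by
    rw [hR, hCR]
    exact Real.exp_le_exp.2 (by nlinarith)
  have hL : (KR : ℝ) * R ^ KR ≤ Real.exp (CL * z) := by
    have e1 : (KR : ℝ) ≤ Real.exp (KR * z) := by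
      have := Real.add_one_le_exp ((KR : ℝ) * z)
      nlinarith
    have e2 : R ^ KR = Real.exp (KR * CR * z) := by
      rw [hR, ← Real.exp_nat_mul]
      congr 1
      ring
    rw [e2, hCL, add_mul, Real.exp_add]
    exact mul_le_mul_of_nonneg_right e1 (Real.exp_pos _).le
  obtain ⟨δ, hδ⟩ : ∃ δ : ℝ, δ = Real.exp (CT * z) / 2 ^ (U * z) := ⟨_, rfl⟩
  have hδ0' : 0 ≤ δ := by
    rw [hδ]
    positivity
  have hsm : (KR : ℝ) * R ^ KR * δ ≤ 1 := by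
    have e1 : (2 : ℝ) ^ (U * z) = Real.exp (U * Real.log 2 * z) := by
      rw [show (U : ℝ) * Real.log 2 * z = ((U * z : ℕ) : ℝ) * Real.log 2 by push_cast; ring,
        Real.exp_nat_mul, Real.exp_log (by norm_num)]
    rw [hδ, e1, ← mul_div_assoc, div_le_one (Real.exp_pos _)]
    refine (mul_le_mul_of_nonneg_right hL (Real.exp_pos _).le).trans ?_
    rw [← Real.exp_add]
    refine Real.exp_le_exp.2 ?_
    nlinarith
  have hfin : (KR : ℝ) * R ^ KR * (KR * R ^ KR * δ) ≤ Real.exp (C₃ * z) / 2 ^ (U * z) := by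
    have e1 : (KR : ℝ) * R ^ KR * (KR * R ^ KR * δ) ≤
        Real.exp (CL * z) * (Real.exp (CL * z) * δ) := by
      refine mul_le_mul hL (mul_le_mul_of_nonneg_right hL hδ0') (by positivity)
        (Real.exp_pos _).le
    refine e1.trans ?_
    rw [hδ, ← mul_div_assoc, ← mul_div_assoc]
    refine div_le_div_of_nonneg_right ?_ (by positivity)
    rw [← Real.exp_add, ← Real.exp_add]
    refine Real.exp_le_exp.2 ?_
    nlinarith
  refine ⟨fun ω hω => ⟨(hcpt ω hω).1, fun i => ((hcpt ω hω).2.1.1 i).trans (hexpU _ h3C),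
    (hcpt ω hω).2.1.2.trans (hexpU _ h3C)⟩, ?_⟩
  intro η hη
  refine
    { isLaw := hq
      d_pos := fun i => hd i
      j_pos := hd n
      m_ge := le_of_eq (by ring)
      bk_β := Wcb.cs_cs hvv
      g_β := Wcb.wn_cs hOk hvM
      g_V := ?_
      bk_tm := ?_
      tm_g := ?_
      pT_le := fun ω hω i => Wcb.pT_le hOk hvM ω hω i
      ξT_vf := fun v _ => vfT1_vf hd0 hn _ _
      ξT_le := fun v _ i l => (vfT1_cb hn (Real.one_le_exp (by positivity)) v i l).trans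
        (hexp _ h32)
      ξN_hom := fun v _ => Wcb.vfN_hom d n _ _
      ξN_le := fun v _ l => (Wcb.vfN_cb d n (Real.exp_pos _).le v l).trans (hexp _ h32)
      d_time := hd0
      ξT_time := fun v _ => vfT1_time hn _ _
      ΘT_time := fun x y y' => thT_time hd0 hd hn D z (k + U) (k + 3 * U) C₁ C₂ x hvv
        (hOkL.g_zero _) y y'
      ΘT_pol := ?_
      FN_pol := ?_
      ΘT_le := fun x y hy i => (hTle x y hy i).trans (hexp _ h3N)
      ΘT_lip := fun x y y' hy hy' δ h i =>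
        (((hN z k D x hzN hk y y' hy hy').2 δ).1 h).1 i |>.trans
          (mul_le_mul_of_nonneg_right (hexp _ h3N) (hδ0 y y' δ h))
      ΘT_inv := fun x y y' hy hy' δ h i =>
        (((hN z k D x hzN hk y y' hy hy').2 δ).2 h i).trans
          (mul_le_mul_of_nonneg_right (hexp _ h3N) ((abs_nonneg _).trans (h i)))
      FN_lip := ?_
      own := ?_
      transport := ?_
      timeInd := ?_
      indep := ?_ }
  · -- g_V
    intro ω ω' hω _ e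
    funext i
    unfold vr
    rw [rp_congr hω e]
  · -- bk_tm
    intro ω ω' hω hω' e
    have h1 := hOk.c_T (k + 3 * U) hk ω ω' hω hω' (Wcb.cs_c (q := q) _ ω ω' hω hω' e)
    unfold NDat.tm
    exact_mod_cast h1
  · -- tm_g
    intro ω ω' e
    have h1 := Wcb.tm_close hOk hvv hk ω ω' e
    rw [hsub] at h1
    exact h1
  · -- ΘT_pol
    intro x i
    obtain ⟨P, hP1, hP2⟩ := (hpol D z (k + U) (k + 3 * U) C₁ C₂ x hvv).1 i
    refine ⟨P, hP1, fun l => ?_, hP2⟩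
    refine (hcb z CN P hz1 hP1 (fun y hy => ?_) l).trans (hexp _ h3b)
    rw [← hP2 y]
    exact hTle x y hy i
  · -- FN_pol
    intro x
    by_cases hx : ∃ ω, 0 < q ω ∧ D.cs (k + 3 * U) ω = x
    · obtain ⟨P, hP1, hP2⟩ := (hpol D z (k + U) (k + 3 * U) C₁ C₂ x hvv).2
      refine ⟨P, hP1, fun l => ?_, fun y => ?_⟩
      · refine (hcb z CF P hz1 hP1 (fun y hy => ?_) l).trans (hexp _ h3f)
        rw [← hP2 y]
        obtain ⟨ω, hω, rfl⟩ := hx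
        exact hFle ω hω y hy
      · unfold shS
        rw [if_pos hx]
        exact hP2 y
    · refine ⟨0, ?_, fun l => ?_, fun y => ?_⟩
      · rw [totalDegree_zero]
        exact Nat.zero_le _
      · rw [coeff_zero, abs_zero]
        exact (Real.exp_pos _).le
      · unfold shS
        rw [if_neg hx, map_zero]
  · -- FN_lip
    intro x y y' hy hy' δ' h
    by_cases hx : ∃ ω, 0 < q ω ∧ D.cs (k + 3 * U) ω = x
    · unfold shS
      rw [if_pos hx, if_pos hx]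
      exact (((hN z k D x hzN hk y y' hy hy').2 δ').1 h).2.trans
        (mul_le_mul_of_nonneg_right (hexp _ h3N) (hδ0 y y' δ' h))
    · unfold shS
      rw [if_neg hx, if_neg hx, sub_self, abs_zero]
      exact mul_nonneg (Real.exp_pos _).le (hδ0 y y' δ' h)
  · -- own
    refine (Pb_zero hq0 fun ω hω hA => hA ?_).trans hη
    rw [shS_eq K d z C₁ C₂ (k + U) (k + 3 * U) hω]
    exact ⟨fun i => ((hcpt ω hω).2.1.1 i).trans (hexpU _ h3C),
      (hcpt ω hω).2.1.2.trans (hexpU _ h3C)⟩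
  · -- transport
    refine (P2_zero hq0 _ fun ω ω' hω hω' e hA => hA ?_).trans hη
    intro y hy
    obtain ⟨r, hr⟩ : ∃ r : D.Ω, r = rp q (D.wn J ((k + U) * z)) ω := ⟨_, rfl⟩
    obtain ⟨hr0, hrg⟩ := hrp ω hω
    rw [← hr] at hr0 hrg
    have hV : vr D q d J z (k + U) (U + 1) C₂ N ω = D.vf d z (U + 1) C₂ N r := by
      funext i
      unfold vr
      rw [hr]
    have hvT : vfT1 d n hn (Real.exp ((C₂ + 1) * z)) (vr D q d J z (k + U) (U + 1) C₂ N ω) =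
        vfT d n (Real.exp ((C₂ + 1) * z)) (D.vf d z (U + 1) C₂ n r) := by
      rw [hV, vfT1_eq hd0 hd hOkL.R_tri hn hnN C₂ hC₂1 hz1, vfT_low hnN]
    have hvN : vfN d n (Real.exp ((C₂ + 1) * z)) (vr D q d J z (k + U) (U + 1) C₂ N ω) =
        vfN d n (Real.exp ((C₂ + 1) * z)) (D.vf d z (U + 1) C₂ n r) := by
      rw [hV, vfN_low hnN]
    obtain ⟨a1, a2⟩ := hP J z k κ D q hzP hOk hk r ω hr0 hω hrg (hJG r hr0) (hJG ω hω)
      (hLG r hr0) y hy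
    obtain ⟨b1, b2⟩ := hP J z k κ D q hzP hOk hk r ω' hr0 hω' (hrg.trans e) (hJG r hr0)
      (hJG ω' hω') (hLG r hr0) y hy
    have htm : ∀ x : D.Ω, D.wn J ((k + U) * z) r = D.wn J ((k + U) * z) x →
        |((D.tm J z (k + 3 * U) x - D.tm J z (k + 3 * U) r : ℤ) : ℝ) / 2 ^ (2 * U * z)| ≤ 1 := by
      intro x hx
      have h1 := Wcb.tm_close hOk hvv hk r x hx
      rw [hsub] at h1
      rw [abs_div, abs_of_pos (by positivity : (0 : ℝ) < 2 ^ (2 * U * z)),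
        div_le_one (by positivity)]
      have h3 : ((|D.tm J z (k + 3 * U) x - D.tm J z (k + 3 * U) r| : ℤ) : ℝ) ≤
          ((2 ^ (2 * U * z) : ℤ) : ℝ) := by exact_mod_cast h1
      rw [Int.cast_abs] at h3
      push_cast at h3 ⊢
      exact h3
    have key := rel_two hKR hR1 hδ0' hsm (ξ := vfT d n (Real.exp ((C₂ + 1) * z))
      (D.vf d z (U + 1) C₂ n r)) (b := vfN d n (Real.exp ((C₂ + 1) * z))
      (D.vf d z (U + 1) C₂ n r)) (Wcb.vfT_vf d n _ _) (Wcb.vfN_hom d n _ _)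
      (fun i l => (Wcb.vfT_cb d n (Real.exp_pos _).le _ i l).trans hSR)
      (fun l => (Wcb.vfN_cb d n (Real.exp_pos _).le _ l).trans hSR)
      (s := ((D.tm J z (k + 3 * U) ω - D.tm J z (k + 3 * U) r : ℤ) : ℝ) / 2 ^ (2 * U * z))
      (s' := ((D.tm J z (k + 3 * U) ω' - D.tm J z (k + 3 * U) r : ℤ) : ℝ) / 2 ^ (2 * U * z))
      (a := D.thT K d z C₁ C₂ (k + U) (k + 3 * U) (D.cs (k + 3 * U) r) y)
      (a' := D.thT K d z C₁ C₂ (k + U) (k + 3 * U) (D.cs (k + 3 * U) ω) y)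
      (a'' := D.thT K d z C₁ C₂ (k + U) (k + 3 * U) (D.cs (k + 3 * U) ω') y)
      (f := D.shN K d z C₁ C₂ (k + U) (k + 3 * U) (D.cs (k + 3 * U) r) y)
      (f' := D.shN K d z C₁ C₂ (k + U) (k + 3 * U) (D.cs (k + 3 * U) ω) y)
      (f'' := D.shN K d z C₁ C₂ (k + U) (k + 3 * U) (D.cs (k + 3 * U) ω') y)
      (htm ω hrg) (htm ω' (hrg.trans e))
      (fun i => (hTle _ y hy i).trans hNR) (fun i => (hTle _ y hy i).trans hNR)
      (by rw [hδ]; exact ⟨a1, a2⟩) (by rw [hδ]; exact ⟨b1, b2⟩)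
    have es : ((D.tm J z (k + 3 * U) ω' - D.tm J z (k + 3 * U) r : ℤ) : ℝ) / 2 ^ (2 * U * z) -
        ((D.tm J z (k + 3 * U) ω - D.tm J z (k + 3 * U) r : ℤ) : ℝ) / 2 ^ (2 * U * z) =
        ((D.tm J z (k + 3 * U) ω' - D.tm J z (k + 3 * U) ω : ℤ) : ℝ) / 2 ^ (2 * U * z) := by
      push_cast
      ring
    rw [es] at key
    have key2 := key.mono hfin
    rw [shS_eq K d z C₁ C₂ (k + U) (k + 3 * U) hω, shS_eq K d z C₁ C₂ (k + U) (k + 3 * U) hω',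
      hvT, hvN]
    exact key2
  · -- timeInd
    have hdt : Det q D.T (D.tm J z (k + 3 * U)) := by
      intro ω ω' _ _ e
      unfold NDat.tm
      rw [e]
    have h1 := ti_tm hq0 D.T (D.tm J z (k + 3 * U)) D.ln (D.c (k + U)) hdt hti
    have h2 : CH q (D.tm J z (k + 3 * U)) (D.cs (k + U)) =
        CH q (D.tm J z (k + 3 * U)) (D.c (k + U)) :=
      CH_congr hq0 (fun _ _ _ _ h => (Prod.ext_iff.mp h).1)
        (fun _ _ _ _ h => (Prod.ext_iff.mp h).1) (Wcb.cs_c _) (Wcb.c_cs hOk hvM)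
    have h3 : CH q (D.tm J z (k + 3 * U)) (D.wn J ((k + U) * z)) =
        CH q (D.tm J z (k + 3 * U)) (fun ω => (D.ln ω, D.c (k + U) ω)) := by
      refine CH_congr hq0 (fun _ _ _ _ h => (Prod.ext_iff.mp h).1)
        (fun _ _ _ _ h => (Prod.ext_iff.mp h).1) ?_ ?_
      · intro ω ω' a b e
        exact Prod.ext (Prod.ext_iff.1 e).1 (hOk.c_wn (k + U) hvM ω ω' a b e)
      · intro ω ω' a b e
        have e1 := Prod.ext_iff.1 e
        exact Prod.ext e1.1 (hOk.c_T (k + U) hvM ω ω' a b e1.2)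
    rw [h2, h3]
    have h4 : (z : ℝ) ≤ C₃ * z := by nlinarith
    linarith
  · -- indep
    have h1 : CH q (vr D q d J z (k + U) (U + 1) C₂ N) (D.cs (k + U)) =
        CH q (vr D q d J z (k + U) (U + 1) C₂ N) (D.c (k + U)) :=
      CH_congr hq0 (fun _ _ _ _ h => (Prod.ext_iff.mp h).1)
        (fun _ _ _ _ h => (Prod.ext_iff.mp h).1) (Wcb.cs_c _) (Wcb.c_cs hOk hvM)
    have h2 : CH q (vr D q d J z (k + U) (U + 1) C₂ N) (D.cs (k + 3 * U)) =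
        CH q (vr D q d J z (k + U) (U + 1) C₂ N) (D.c (k + 3 * U)) :=
      CH_congr hq0 (fun _ _ _ _ h => (Prod.ext_iff.mp h).1)
        (fun _ _ _ _ h => (Prod.ext_iff.mp h).1) (Wcb.cs_c _) (Wcb.c_cs hOk hk)
    rw [h1, h2]
    exact hind.trans (mul_le_mul_of_nonneg_right h37 hz0)

end Pool.STL
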