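import Pool.Agent.H25.STL.Rep
import Pool.Agent.H25.LIVE.Pair
import Pool.Agent.H36.KBX.Coef

/-!
# The natural and the adapted coordinates are polynomials
-/

set_option autoImplicit false

namespace Pool.STL

open Finset MvPolynomial
open Pool.Agent.H49.Ent Pool.Agent.H32.Dense Pool.STK Pool.KS3
open Pool.BFL (Pl CB Pb P2 MC alt)
open Pool.STAT
open Pool.MIC.Frm (pt pt_eq)

theorem eval_toF {n : ℕ} (y : Fin n → ℝ) (F : PN) : eval y (toF n F) = eval (Pool.STAT.ext y) F := by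
  induction F using MvPolynomial.induction_on with
  | C a => simp [toF]
  | add p q hp hq => rw [map_add, map_add, map_add, hp, hq]
  | mul_X p j hp =>
    rw [map_mul, map_mul, map_mul, hp, eval_X]
    congr 1
    unfold toF Pool.STAT.ext
    rw [aeval_X]
    split_ifs
    · rw [eval_X]
    · rw [map_zero]

theorem deg_toF (n : ℕ) (F : PN) : (toF n F).totalDegree ≤ F.totalDegree := by
  unfold toF
  refine (KS3.SML.totalDegree_bind_le _ 1 (fun l => ?_) F).trans (by rw [one_mul])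
  split_ifs with h
  · rw [totalDegree_X]
  · rw [totalDegree_zero]
    exact Nat.zero_le _

/-- A polynomial of absolute coordinates in the natural coordinates. -/
theorem ab_poly (K' Dg n : ℕ) {D : NDat} {v : ℕ} {x : ℕ → D.Γ}
    (hnuc : ∀ i ≤ n, (nuc (D.g v) (D.P v (x v)) i).totalDegree ≤ K') (F : PN)
    (hv : F.vars ⊆ range (n + 1)) (hF : F.totalDegree ≤ Dg) (a : ℝ) :
    ∃ P : Pl n, P.totalDegree ≤ Dg * K' ∧
      ∀ y : Fin n → ℝ, a * eval (D.ab v x y) F = eval y P := by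
  refine ⟨C a * toF n (bind₁ (nuc (D.g v) (D.P v (x v))) F), ?_, fun y => ?_⟩
  · refine (totalDegree_mul _ _).trans ?_
    rw [totalDegree_C, zero_add]
    refine (deg_toF _ _).trans ((Dgb.deg_bind (B := K') fun k hk => ?_).trans
      (Nat.mul_le_mul_right _ hF))
    have := mem_range.1 (hv hk)
    exact hnuc k (by omega)
  · rw [map_mul, eval_C, eval_toF, AdxRow.evl_bnd]
    rfl

/-- **The coordinates of the core are polynomials**, of bounded degree. -/
theorem core_poly (n K : ℕ) (d : ℕ → ℕ) (hd0 : d 0 = 1) (hd : ∀ i, 1 ≤ d i) :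
    ∃ Dg : ℕ, 1 ≤ Dg ∧ ∀ (D : NDat) (z v v' : ℕ) (C₁ C₂ : ℝ) (x : ℕ → D.Γ), v ≤ v' →
      (∀ i : Fin n, ∃ P : Pl n, P.totalDegree ≤ Dg ∧
        ∀ y : Fin n → ℝ, D.thT K d z C₁ C₂ v v' x y i = eval y P) ∧
      ∃ P : Pl n, P.totalDegree ≤ Dg ∧
        ∀ y : Fin n → ℝ, D.shN K d z C₁ C₂ v v' x y = eval y P := by
  classical
  obtain ⟨K', hK'⟩ := dgb_thm n K d hd0 hd
  obtain ⟨B, hB⟩ : ∃ B : ℕ, B = K' + K + 1 := ⟨_, rfl⟩
  refine ⟨B * B, by rw [hB]; nlinarith, ?_⟩
  intro D z v v' C₁ C₂ x hvv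
  by_cases hG : D.GB K d z C₁ C₂ v' n x
  · have hLB := hG.2.1
    have htri : ∀ k ≤ v', TriN (D.P k (x k)) := fun k hk => hLB.tri k hk
    have hdeg : ∀ k ≤ v', ∀ i ≤ n, (D.P k (x k) i).totalDegree ≤ K := fun k hk i hi =>
      hLB.deg k hk i (by omega)
    have hnuc : ∀ i ≤ n, (nuc (D.g v) (D.P v (x v)) i).totalDegree ≤ B := fun i hi => by
      have := (hK' (D.P v (x v)) (D.g v) (htri v hvv) (hdeg v hvv) i hi).2.2.2
      omega
    have htin : ∀ i ≤ n, (tinv (adp d (D.P v' (x v'))) i).totalDegree ≤ B := fun i hi => by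
      have := (hK' (D.P v' (x v')) (D.g v) (htri v' le_rfl) (hdeg v' le_rfl) i hi).2.1
      omega
    have hvt : ∀ i ≤ n, (tinv (adp d (D.P v' (x v'))) i).vars ⊆ range (n + 1) := fun i hi =>
      (tinv_vars' AdxRow.adx_thm hd0 hd (htri v' le_rfl) i).trans (range_subset_range.2 (by omega))
    constructor
    · intro i
      obtain ⟨P, hP, hPe⟩ := ab_poly B B n (x := x) hnuc
        (tinv (adp d (D.P v' (x v'))) i) (hvt i i.2.le) (htin i i.2.le)
        ((2 : ℝ) ^ (d i * (v * z)))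
      refine ⟨P, hP, fun y => ?_⟩
      unfold NDat.thT
      rw [if_pos hG]
      exact hPe y
    · obtain ⟨P, hP, hPe⟩ := ab_poly B B n (x := x) hnuc
        (MvPolynomial.X n - tinv (adp d (D.P v' (x v'))) n - D.P v (x v) n)
        (AdxRow.vars_sub_le (AdxRow.vars_sub_le (by
          rw [vars_X]
          exact Finset.singleton_subset_iff.mpr (mem_range.mpr (by omega))) (hvt n le_rfl))
          ((htri v hvv n).trans (range_subset_range.2 (by omega))))
        ((totalDegree_sub _ _).trans (max_le ((totalDegree_sub _ _).trans (max_le (by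
          rw [totalDegree_X]
          omega) (htin n le_rfl))) ((hdeg v hvv n le_rfl).trans (by omega))))
        ((2 : ℝ) ^ (d n * (v * z)))
      refine ⟨P, hP, fun y => ?_⟩
      unfold NDat.shN
      rw [if_pos hG]
      exact hPe y
  · have hBB : 1 ≤ B * B := by
      rw [hB]
      nlinarith
    constructor
    · intro i
      refine ⟨X i, ?_, fun y => ?_⟩
      · rw [totalDegree_X]
        exact hBB
      · unfold NDat.thT
        rw [if_neg hG, eval_X]
    · refine ⟨0, ?_, fun y => ?_⟩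
      · rw [totalDegree_zero]
        omega
      · unfold NDat.shN
        rw [if_neg hG, map_zero]

/-- The time in the coordinates of the core. -/
theorem thT_time {n K : ℕ} {d : ℕ → ℕ} (hd0 : d 0 = 1) (hd : ∀ i, 1 ≤ d i) (hn : 0 < n)
    (D : NDat) (z v v' : ℕ) (C₁ C₂ : ℝ) (x : ℕ → D.Γ) (hvv : v ≤ v') (hg : D.g v 0 = v * z)
    (y y' : Fin n → ℝ) :
    D.thT K d z C₁ C₂ v v' x y' ⟨0, hn⟩ - D.thT K d z C₁ C₂ v v' x y ⟨0, hn⟩ =
      y' ⟨0, hn⟩ - y ⟨0, hn⟩ := by
  classical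
  unfold NDat.thT
  by_cases hG : D.GB K d z C₁ C₂ v' n x
  · rw [if_pos hG, if_pos hG]
    have htri : ∀ k ≤ v', TriN (D.P k (x k)) := fun k hk => hG.2.1.tri k hk
    have h1 : ∀ b b' : ℕ → ℝ, eval b' (tinv (adp d (D.P v' (x v'))) 0) -
        eval b (tinv (adp d (D.P v' (x v'))) 0) = b' 0 - b 0 := by
      intro b b'
      have h2 : eval b' (tinv (adp d (D.P v' (x v'))) 0 - X 0) =
          eval b (tinv (adp d (D.P v' (x v'))) 0 - X 0) :=
        Pool.SYS35.eval_congr (tinv_vars AdxRow.adx_thm hd0 hd (htri v' le_rfl) 0)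
          fun i hi => absurd hi (Nat.not_lt_zero _)
      rw [map_sub, map_sub, eval_X, eval_X] at h2
      linarith
    have h3 : ∀ y : Fin n → ℝ, D.ab v x y 0 =
        eval (D.ab v x y) (D.P v (x v) 0) + Pool.STAT.ext y 0 / 2 ^ D.g v 0 := fun y =>
      pt_eq (g := D.g v) (htri v hvv) (Pool.STAT.ext y) 0
    have h4 : eval (D.ab v x y') (D.P v (x v) 0) = eval (D.ab v x y) (D.P v (x v) 0) :=
      Pool.SYS35.eval_congr (htri v hvv 0) fun i hi => absurd hi (Nat.not_lt_zero _)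
    have h5 : ∀ y : Fin n → ℝ, Pool.STAT.ext y 0 = y ⟨0, hn⟩ := fun y => by
      unfold Pool.STAT.ext
      rw [dif_pos hn]
    rw [← mul_sub, h1, h3 y, h3 y', h4, h5, h5, hg, hd0, one_mul]
    have h6 : (2 : ℝ) ^ (v * z) ≠ 0 := by positivity
    field_simp
    ring
  · rw [if_neg hG, if_neg hG]

/-- Polynomials which are bounded on the box have bounded coefficients. -/
theorem cb_of_sup (n Dg : ℕ) : ∃ C : ℝ, 1 ≤ C ∧ ∀ (z : ℕ) (c : ℝ) (P : Pl n), 1 ≤ z →
    P.totalDegree ≤ Dg → (∀ y : Fin n → ℝ, (∀ i, |y i| ≤ 2) → |eval y P| ≤ Real.exp (c * z)) →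
    CB P (Real.exp ((c + C) * z)) := by
  obtain ⟨C, hC, h⟩ := Pool.Agent.H36.KBX.coef_bound n Dg
  refine ⟨C + 1, by linarith, ?_⟩
  intro z c P hz hP hb k
  have hz1 : (1 : ℝ) ≤ z := by exact_mod_cast hz
  have h1 := h P (Real.exp (c * z)) hP (fun y hy => hb y fun i => (hy i).trans (by norm_num)) k
  refine h1.trans ?_
  have e1 : C ≤ Real.exp ((C + 1) * z) := by
    have := Real.add_one_le_exp ((C + 1) * (z : ℝ))
    nlinarith
  have e2 : Real.exp ((c + (C + 1)) * z) = Real.exp ((C + 1) * z) * Real.exp (c * z) := by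
    rw [← Real.exp_add]
    congr 1
    ring
  rw [e2]
  exact mul_le_mul_of_nonneg_right e1 (Real.exp_pos _).le

end Pool.STL
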