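import Pool.Agent.H25.STL.Lc0

/-!
# The fields of the live core: entropy, fields, relations
-/

set_option autoImplicit false

namespace Pool.STL

open Finset MvPolynomial
open Pool.Agent.H49.Ent Pool.Agent.H32.Dense Pool.STK Pool.KS3
open Pool.BFL (Pl CB Pb P2 MC alt)
open Pool.STAT
open Pool.LIV (Rel RelC)

/-! ### Entropy -/

/-- Data processing. -/
theorem ti_tm {Ω A B C' D' : Type} [Fintype Ω] {q : Ω → ℝ} (hq : ∀ ω, 0 ≤ q ω) (T : Ω → A)
    (t : Ω → B) (l : Ω → C') (c : Ω → D') {e : ℝ} (ht : Det q T t)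
    (h : CH q T c ≤ CH q T (fun ω => (l ω, c ω)) + e) :
    CH q t c ≤ CH q t (fun ω => (l ω, c ω)) + e := by
  have h1 : CH q T c = CH q t c + CH q T (fun ω => (t ω, c ω)) := by
    rw [← CH_chain hq]
    refine CH_congr hq ?_ ?_ (fun _ _ _ _ h => h) (fun _ _ _ _ h => h)
    · intro ω ω' a b hh
      have e1 := (Prod.ext_iff.1 hh).1
      exact Prod.ext e1 (ht ω ω' a b e1)
    · intro ω ω' _ _ hh
      exact (Prod.ext_iff.1 (Prod.ext_iff.1 hh).1).1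
  have h2 : CH q T (fun ω => (l ω, c ω)) = CH q t (fun ω => (l ω, c ω)) +
      CH q T (fun ω => (t ω, (l ω, c ω))) := by
    rw [← CH_chain hq]
    refine CH_congr hq ?_ ?_ (fun _ _ _ _ h => h) (fun _ _ _ _ h => h)
    · intro ω ω' a b hh
      have e1 := (Prod.ext_iff.1 hh).1
      exact Prod.ext e1 (ht ω ω' a b e1)
    · intro ω ω' _ _ hh
      exact (Prod.ext_iff.1 (Prod.ext_iff.1 hh).1).1
  have h3 : CH q T (fun ω => (t ω, (l ω, c ω))) ≤ CH q T (fun ω => (t ω, c ω)) :=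
    CH_mono_cond hq (fun ω ω' _ _ hh => by
      have e1 := Prod.ext_iff.1 hh
      exact Prod.ext e1.1 (Prod.ext_iff.1 e1.2).2)
  linarith

/-- Two variables which determine each other up to few bits. -/
theorem ind_of {Ω A B C' D' : Type} [Fintype Ω] {q : Ω → ℝ} (hq : ∀ ω, 0 ≤ q ω) (V : Ω → A)
    (V' : Ω → B) (c : Ω → C') (c' : Ω → D') {e e₁ e₂ : ℝ} (h : CH q V c - CH q V c' ≤ e)
    (h1 : CH q V' V ≤ e₁) (h2 : CH q V V' ≤ e₂) : CH q V' c - CH q V' c' ≤ e + (e₁ + e₂) := by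
  have a1 := CH_le_add hq V' V c
  have a2 : CH q V' (fun ω => (V ω, c ω)) ≤ CH q V' V :=
    CH_mono_cond hq fun ω ω' _ _ hh => (Prod.ext_iff.1 hh).1
  have a3 := CH_le_add hq V V' c'
  have a4 : CH q V (fun ω => (V' ω, c' ω)) ≤ CH q V V' :=
    CH_mono_cond hq fun ω ω' _ _ hh => (Prod.ext_iff.1 hh).1
  linarith

/-! ### Fields -/

section fields

variable {d : ℕ → ℕ} {n : ℕ}

/-- The field of the base, with the exact velocity of the time. -/
noncomputable def vfT1 (d : ℕ → ℕ) (n : ℕ) (hn : 0 < n) (S : ℝ) (f : ℕ → PN) : Fin n → Pl n :=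
  Function.update (vfT d n S f) ⟨0, hn⟩ 1

theorem vfT1_time (hn : 0 < n) (S : ℝ) (f : ℕ → PN) : vfT1 d n hn S f ⟨0, hn⟩ = 1 := by
  unfold vfT1
  rw [Function.update_self]

theorem vfT1_vf (hd0 : d 0 = 1) (hn : 0 < n) (S : ℝ) (f : ℕ → PN) :
    VF (fun i : Fin n => d i) (vfT1 d n hn S f) := by
  intro i
  unfold vfT1
  by_cases h : i = ⟨0, hn⟩
  · subst h
    rw [Function.update_self]
    change (1 : Pl n).IsWeightedHomogeneous _ (d 0 - 1)
    rw [hd0]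
    exact isWeightedHomogeneous_one ℝ _
  · rw [Function.update_of_ne h]
    exact Wcb.vfT_vf d n S f i

theorem vfT1_cb (hn : 0 < n) {S : ℝ} (hS : 1 ≤ S) (f : ℕ → PN) (i : Fin n) :
    CB (vfT1 d n hn S f i) S := by
  classical
  unfold vfT1
  by_cases h : i = ⟨0, hn⟩
  · subst h
    rw [Function.update_self]
    intro k
    rw [coeff_one]
    split_ifs
    · rw [abs_one]
      exact hS
    · rw [abs_zero]
      linarith
  · rw [Function.update_of_ne h]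
    exact Wcb.vfT_cb d n (by linarith) f i

/-- The exact velocity of the time is the velocity of the time of the fields of the samples. -/
theorem vfT1_eq {D : NDat} (hd0 : d 0 = 1) (hd : ∀ i, 1 ≤ d i) (hR : ∀ l, TriN (D.R l))
    (hn : 0 < n) {N z : ℕ} (hN : n ≤ N) (C₂ : ℝ) (hC₂ : 1 ≤ C₂) (hz : 1 ≤ z) (y : ℕ)
    (ω : D.Ω) :
    vfT1 d n hn (Real.exp ((C₂ + 1) * z)) (D.vf d z y C₂ N ω) =
      vfT d n (Real.exp ((C₂ + 1) * z)) (D.vf d z y C₂ N ω) := by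
  have h1 : vfT d n (Real.exp ((C₂ + 1) * z)) (D.vf d z y C₂ N ω) ⟨0, hn⟩ = 1 := by
    rw [vfT_eq (n := n)]
    · change toF n (D.vf d z y C₂ N ω 0) = 1
      rw [M31.vf_zero C₂ hC₂, map_one]
    · intro i hi
      have h1 := M31.vf_ok (n := N) AdxRow.adx_thm hd0 hd hR C₂ hC₂ hz y ω i (by omega)
      refine ⟨h1.1.trans ?_, h1.2⟩
      intro x hx
      rw [Finset.mem_range] at hx ⊢
      omega
  unfold vfT1
  rw [← h1, Function.update_eq_self]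

/-- The fields of a system with more coordinates. -/
theorem vf_low {D : NDat} {n N : ℕ} (hN : n ≤ N) (d : ℕ → ℕ) (z y : ℕ) (C₂ : ℝ) (ω : D.Ω)
    {i : ℕ} (hi : i ≤ n) : D.vf d z y C₂ N ω i = D.vf d z y C₂ n ω i := by
  unfold NDat.vf
  rw [if_pos hi, if_pos (hi.trans hN)]

theorem vfT_low {D : NDat} {n N : ℕ} (hN : n ≤ N) (d : ℕ → ℕ) (z y : ℕ) (C₂ S : ℝ)
    (ω : D.Ω) : vfT d n S (D.vf d z y C₂ N ω) = vfT d n S (D.vf d z y C₂ n ω) := by
  have e1 : ∀ i : Fin n, D.vf d z y C₂ N ω i = D.vf d z y C₂ n ω i := fun i =>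
    vf_low hN d z y C₂ ω i.2.le
  unfold vfT
  by_cases hc : ∀ i : Fin n, ((toF n (D.vf d z y C₂ N ω i)).IsWeightedHomogeneous
      (fun l : Fin n => d l) (d i - 1)) ∧ CB (toF n (D.vf d z y C₂ N ω i)) S
  · rw [if_pos hc, if_pos (fun i => by
      rw [← e1 i]
      exact hc i)]
    funext i
    rw [e1 i]
  · rw [if_neg hc, if_neg (fun h => hc fun i => by
      rw [e1 i]
      exact h i)]

theorem vfN_low {D : NDat} {n N : ℕ} (hN : n ≤ N) (d : ℕ → ℕ) (z y : ℕ) (C₂ S : ℝ)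
    (ω : D.Ω) : vfN d n S (D.vf d z y C₂ N ω) = vfN d n S (D.vf d z y C₂ n ω) := by
  unfold vfN
  rw [vf_low hN d z y C₂ ω le_rfl]

end fields

/-! ### Relations -/

/-- Two relations from one state. -/
theorem rel_two {c j K : ℕ} {d : Fin c → ℕ} (hK : RelC d j K) {R δ : ℝ} (hR : 1 ≤ R)
    (hδ : 0 ≤ δ) (hsm : K * R ^ K * δ ≤ 1) {ξ : Fin c → Pl c} {b : Pl c} (hξ : VF d ξ)
    (hb : b.IsWeightedHomogeneous d (j - 1)) (hξR : ∀ i, CB (ξ i) R) (hbR : CB b R)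
    {s s' : ℝ} {a a' a'' : Fin c → ℝ} {f f' f'' : ℝ} (hs : |s| ≤ 1) (hs' : |s'| ≤ 1)
    (ha : ∀ i, |a i| ≤ R) (ha' : ∀ i, |a' i| ≤ R) (h1 : Rel d j ξ b s a a' f f' δ)
    (h2 : Rel d j ξ b s' a a'' f f'' δ) :
    Rel d j ξ b (s' - s) a' a'' f' f'' (K * R ^ K * (K * R ^ K * δ)) := by
  have k1 : (1 : ℝ) ≤ K := by exact_mod_cast hK.1
  have k2 : (1 : ℝ) ≤ R ^ K := one_le_pow₀ hR
  have hL : (1 : ℝ) ≤ K * R ^ K := by nlinarith
  have hδ1 : δ ≤ K * R ^ K * δ := by nlinarith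
  have r1 := (hK.2 R δ hR hδ (by linarith) ξ b hξ hb hξR hbR).1 s a a' f f' hs ha ha' h1
  have r2 := (hK.2 R (K * R ^ K * δ) hR (by positivity) hsm ξ b hξ hb hξR hbR).2.1 (-s) s' a' a
    a'' f' f f'' (by rwa [abs_neg]) hs' ha' ha r1 (h2.mono hδ1)
  rw [show -s + s' = s' - s by ring] at r2
  exact r2

theorem P2_zero {Ω G : Type} [Fintype Ω] {p : Ω → ℝ} (hp : ∀ ω, 0 ≤ p ω) (g : Ω → G)
    {A : Ω → Ω → Prop} (h : ∀ ω ω', 0 < p ω → 0 < p ω' → g ω = g ω' → ¬ A ω ω') :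
    P2 p g A ≤ 0 := by
  have h1 := M31.P2_mono (A' := fun _ _ => False) hp g (A := A) fun ω ω' e a b hA =>
    h ω ω' a b e hA
  refine h1.trans (le_of_eq ?_)
  unfold P2
  simp

theorem Pb_zero {Ω : Type} [Fintype Ω] {p : Ω → ℝ} (hp : ∀ ω, 0 ≤ p ω) {A : Ω → Prop}
    (h : ∀ ω, 0 < p ω → ¬ A ω) : Pb p A ≤ 0 := by
  have h1 := Pool.Agent.H39.BFL.Pb_mono (A := A) (A' := fun _ => False) hp fun ω hω hA =>
    h ω hω hA
  refine h1.trans (le_of_eq ?_)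
  unfold Pb
  simp

end Pool.STL
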