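import Pool.Agent.H25.STL.Twr

/-!
# Layer 2 for live times: integer slopes
-/

set_option autoImplicit false

namespace Pool.STL

open Finset MvPolynomial
open Pool.Agent.H49.Ent Pool.Agent.H32.Dense Pool.STK Pool.KS3
open Pool.BFL (Pl CB Pb P2 MC alt)
open Pool.STAT
open Pool.Agent.H39.BFL (Pb_mono)

/-- **MAIW, live time.** Integer slopes: a new label of some coordinate. -/
def MaiwLStmt : Prop :=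
  ∀ (n K A : ℕ) (d : ℕ → ℕ) (C₁ C₃ a ρ : ℝ), 1 ≤ n → d 0 = 1 → (∀ i, 1 ≤ d i) → 1 ≤ C₁ →
    1 ≤ C₃ → 0 < a → 0 < ρ → ρ ≤ 1 → ∃ εT : ℝ, 0 < εT ∧ ∀ k' : ℕ,
    ∃ (U M K' : ℕ) (C₆ η' κ : ℝ) (z₀ : ℕ), 1 ≤ U ∧ 0 < η' ∧ 0 < κ ∧
    ∀ (J z : ℕ) (D : NDat) (q : D.Ω → ℝ), z₀ ≤ z → OkL D n K J z M (fun i => d i) C₁ q →
      TmL1 D J z M k' κ εT q → (∀ k, k + 3 * U ≤ M → D.Cnt d z n (k + U) U ρ a C₃ q) →
      ∃ k i, k + 3 * U ≤ M ∧ 1 ≤ i ∧ i ≤ n ∧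
        D.NewLab J z i (k + U) (k + 3 * U) A K' C₆ η' q

/-- Walks over the time alone. -/
theorem sbl_one {D : NDat} {n K J z M U k : ℕ} {d : ℕ → ℕ} {C₁ C₂ : ℝ} {q : D.Ω → ℝ}
    (hd0 : d 0 = 1) (hd : ∀ i, 1 ≤ d i) (hC₂ : 1 ≤ C₂) (hz : 1 ≤ z) (hn : 0 < n)
    (hOk : OkL D n K J z M (fun i => d i) C₁ q) {τ p : ℝ} (hτ : 0 < τ) (hp : 0 ≤ p) :
    SbL D q d C₂ J z U k 1 n 1 τ p := by
  intro W _ r w hMC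
  refine (Pb_zero hMC.isLaw.nonneg fun x _ h2 => ?_).trans hp
  refine h2 (tbig_time le_rfl (fun l : Fin 1 => d l) hd0 _ (fun a => ?_) _ ?_ _)
  · have h3 := (fld_sc hOk hd0 hd hC₂ hz (k + U) (U + 1) one_pos hn (w (2 * a) x)).1
    have h4 := vfT1_time (d := d) one_pos (Real.exp ((C₂ + 1) * z))
      (vr D q d J z (k + U) (U + 1) C₂ n (w (2 * a) x))
    rw [h3] at h4
    exact h4
  · exact Real.exp_le_one_iff.2 (by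
      have : 0 ≤ τ * ((U * z : ℕ) : ℝ) := by positivity
      linarith)

/-- **MAIW for live times.** -/
theorem maiwL_thm : MaiwLStmt := by
  intro n K A d C₁ Cc a ρ hn hd0 hd hC₁ hCc ha hρ hρ1
  classical
  obtain ⟨Cv, hCv, C7, hC7, zv, hvr⟩ := vr_vf n K d C₁ hd0 hd hC₁
  obtain ⟨C₇, hC₇⟩ : ∃ C₇ : ℝ, C₇ = 1 + (C7 + C7) := ⟨_, rfl⟩
  have hC₇1 : 1 ≤ C₇ := by rw [hC₇]; linarith
  have hW1 := fun i (hi : 0 < i) => lc_thm i K d C₁ C₇ hi hd0 hd hC₁ hC₇1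
  choose C2 hC2a hC2b using hW1
  obtain ⟨C₂, hC₂⟩ : ∃ C₂ : ℝ, C₂ = Cv + ∑ i ∈ (Icc 1 n).attach,
    C2 i.1 (Finset.mem_Icc.1 i.2).1 := ⟨_, rfl⟩
  have hsum : 0 ≤ ∑ i ∈ (Icc 1 n).attach, C2 i.1 (Finset.mem_Icc.1 i.2).1 :=
    Finset.sum_nonneg fun i _ => by linarith [hC2a i.1 (Finset.mem_Icc.1 i.2).1]
  have hC₂v : Cv ≤ C₂ := by rw [hC₂]; linarith
  have hC₂1 : 1 ≤ C₂ := hCv.trans hC₂v
  have hC₂2 : ∀ i (hi : 1 ≤ i), i ≤ n → C2 i hi ≤ C₂ := by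
    intro i hi hin
    rw [hC₂]
    have h1 := Finset.single_le_sum (s := (Icc 1 n).attach)
      (f := fun i : {x // x ∈ Icc 1 n} => C2 i.1 (Finset.mem_Icc.1 i.2).1)
      (fun i _ => by linarith [hC2a i.1 (Finset.mem_Icc.1 i.2).1])
      (Finset.mem_attach _ ⟨i, Finset.mem_Icc.2 ⟨hi, hin⟩⟩)
    simp only at h1
    linarith
  have hLcH : ∀ i (hi : 0 < i), i ≤ n → ∃ (C₃ : ℝ) (Dg U₁ : ℕ), 1 ≤ C₃ ∧
      LcH n K d C₁ C₂ C₃ C₇ Dg U₁ i hi := by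
    intro i hi hin
    obtain ⟨C₃, hC₃, Dg, U₁, hU₁, h1⟩ := hC2b i hi C₂ (hC₂2 i hi hin)
    refine ⟨C₃, Dg, U₁, hC₃, ?_⟩
    intro U M hU
    obtain ⟨z₀, h1⟩ := h1 U M hU
    refine ⟨z₀, ?_⟩
    intro J z k D q hz hOk hk hti hInd
    exact h1 J z k n D q hz hin (hOk.res hin) hk hti hInd
  obtain ⟨ε₀, hε₀, hT⟩ := twl_all (A := A) hd0 hd hC₁ hC₂1 hCc ha hρ hρ1 hLcH (n - 1) 1 1
    (by omega) one_pos le_rfl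
  refine ⟨ε₀, hε₀, fun k' => ?_⟩
  obtain ⟨τ, η', K', U₀, hτ, hη', hU₀, hT⟩ := hT ε₀ hε₀ le_rfl k'
  obtain ⟨CV, hCV, hV1⟩ := vch_thm n K d C₂ hd0 hd hC₂1
  obtain ⟨Lv, hLv⟩ : ∃ Lv : ℕ, Lv = ⌈CV * U₀⌉₊ := ⟨_, rfl⟩
  have hV2 := hV1 U₀ hU₀ Lv (by rw [hLv]; exact Nat.le_ceil _)
  obtain ⟨C₆, κ, z₀, hκ, hT1⟩ := hT U₀ ((2 * Lv + 3) * U₀) le_rfl
  refine ⟨U₀, (2 * Lv + 3) * U₀, K', C₆, η', κ, max (max z₀ zv) 1, hU₀, hη', hκ, ?_⟩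
  intro J z D q hz hOk hTm hCnt
  have hz1 : 1 ≤ z := (le_max_right _ _).trans hz
  have hza : z₀ ≤ z := (le_max_left _ _).trans ((le_max_left _ _).trans hz)
  have hzb : zv ≤ z := (le_max_right _ _).trans ((le_max_left _ _).trans hz)
  obtain ⟨κ', hOk'⟩ := hOk.ok hz1
  obtain ⟨l, hl, hInd⟩ := hV2 J z _ _ κ' C₁ D q hz1 hOk' le_rfl
  have hk : 2 * l * U₀ + 3 * U₀ ≤ (2 * Lv + 3) * U₀ := by
    have : 2 * l * U₀ + 3 * U₀ = (2 * l + 3) * U₀ := by ring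
    rw [this]
    exact Nat.mul_le_mul_right _ (by omega)
  obtain ⟨v1, v2⟩ := hvr C₂ hC₂v U₀ J z ((2 * Lv + 3) * U₀) (2 * l * U₀) (fun i => d i) D q hzb
    hOk (by omega)
  have hIndL : IndL D q d C₂ C₇ J z U₀ (2 * l * U₀) n := by
    have h1 := ind_of hOk.isLaw.nonneg (D.vf d z (U₀ + 1) C₂ n)
      (vr D q d J z (2 * l * U₀ + U₀) (U₀ + 1) C₂ n) (D.c (2 * l * U₀ + U₀))
      (D.c (2 * l * U₀ + 3 * U₀)) hInd v1 v2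
    unfold IndL
    refine h1.trans (le_of_eq ?_)
    rw [hC₇]
    ring
  obtain ⟨i, h1, h2, h3⟩ := hT1 J z (2 * l * U₀) D q hza hOk hTm hk hIndL (hCnt _ hk)
    (sbl_one hd0 hd hC₂1 hz1 hn hOk hτ (by positivity))
  exact ⟨2 * l * U₀, i, hk, h1, h2, h3⟩

end Pool.STL
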