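import Pool.Agent.H25.STL.Maiw

/-!
# Layer 2 for live times: the slope of the last coordinate is not an integer
-/

set_option autoImplicit false

namespace Pool.STAT.Nonw

open Finset MvPolynomial
open Pool.Agent.H49.Ent Pool.Agent.H32.Dense Pool.STK Pool.KS3
open Pool.BFL (Pl CB Pb P2 MC alt)
open Pool.STAT.JBW (rd_pos rd_le_one unit_le lbase_Φs tri_Φs)
open Pool.STL (OkL)

/-- **NONW, without the law of the time.** The slope of the last coordinate is not an integer: a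
new label. -/
def NonwLStmt : Prop :=
  ∀ (n K A : ℕ) (d : ℕ → ℕ) (C₁ s : ℝ), 1 ≤ n → d 0 = 1 → (∀ i, 1 ≤ d i) → 1 ≤ C₁ →
    (d n : ℝ) - 1 < s → s < d n →
    ∃ (v M K' : ℕ) (C₆ : ℝ) (z₀ : ℕ), v ≤ M ∧
    ∀ (J z : ℕ) (D : NDat) (q : D.Ω → ℝ), z₀ ≤ z →
      OkL D n K J z M (Function.update (fun i => (d i : ℝ)) n s) C₁ q →
      D.NewLab J z n v M A K' C₆ (1 / 2) q

/-- **NONW for live times.** -/
theorem nonwL_thm : NonwLStmt := by
  have hX := AdxRow.adx_thm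
  have hG := dgb_thm
  have hO := Trf.ode_thm
  have hL := lad_thm
  have hB := bxn_thm
  have hF := flb_thm
  classical
  intro n K A d C₁ s hn hd0 hd hC₁ hs1 hs2
  have hS := slp_upd hd0 hd hs1 hs2
  have hσn : Function.update (fun i => (d i : ℝ)) n s n = s := Function.update_self _ _ _
  generalize hσ : Function.update (fun i => (d i : ℝ)) n s = σ at hS hσn ⊢
  obtain ⟨K₀, hK₀⟩ := hG n K d hd0 hd
  obtain ⟨K₁, hK₁⟩ : ∃ K₁ : ℕ, K₁ = max K K₀ + 1 := ⟨_, rfl⟩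
  have hKK : K ≤ K₁ := by rw [hK₁]; exact (le_max_left _ _).trans (Nat.le_succ _)
  have hKK₀ : K₀ ≤ K₁ := by rw [hK₁]; exact (le_max_right _ _).trans (Nat.le_succ _)
  have hK1 : 1 ≤ K₁ := by rw [hK₁]; exact Nat.succ_le_succ (Nat.zero_le _)
  obtain ⟨C₂, hC₂, hJ⟩ := Pool.STL.jg n K d σ C₁ hS hC₁
  obtain ⟨C₃, hC₃, hL⟩ := hL n K₁ d σ C₂ hS hC₂
  obtain ⟨C₄, hC₄, hB⟩ := hB n K₁ d σ C₁ C₂ hS hC₁ hC₂
  obtain ⟨C₅, z₅, hC₅, hT⟩ := Pool.STL.lg n K d C₁ hd0 hd hC₁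
  obtain ⟨K₂, hF⟩ := hF n K d hd0 hd
  have hlog : 0 < Real.log 2 := Real.log_pos (by norm_num)
  have hm : 1 ≤ d n := hd n
  have hm1 : (1 : ℝ) ≤ d n := by exact_mod_cast hm
  obtain ⟨v, hv⟩ : ∃ v : ℕ, (C₃ + C₄ + K₂ + C₅ * K₂ + 1) * d n + C₁ + A + 2 ≤
      (d n - s) * v * Real.log 2 := by
    obtain ⟨v, hv⟩ := exists_nat_ge
      (((C₃ + C₄ + K₂ + C₅ * K₂ + 1) * d n + C₁ + A + 2) / ((d n - s) * Real.log 2))
    refine ⟨v, ?_⟩
    rw [div_le_iff₀ (mul_pos (sub_pos.mpr hs2) hlog)] at hv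
    linarith
  obtain ⟨M₀, hM₀⟩ : ∃ M₀ : ℕ, (C₃ + C₄) * d n + 2 * C₁ + C₃ + C₄ + A + 3 ≤
      (s - d n + 1) * M₀ * Real.log 2 := by
    obtain ⟨M₀, hM₀⟩ := exists_nat_ge
      (((C₃ + C₄) * d n + 2 * C₁ + C₃ + C₄ + A + 3) / ((s - d n + 1) * Real.log 2))
    refine ⟨M₀, ?_⟩
    rw [div_le_iff₀ (mul_pos (by linarith) hlog)] at hM₀
    linarith
  obtain ⟨M, hM⟩ : ∃ M : ℕ, M = v + M₀ := ⟨_, rfl⟩
  have hvM : v ≤ M := by omega
  obtain ⟨z₁, hL⟩ := hL (M + 1)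
  obtain ⟨z₂, hBv⟩ := hB v
  obtain ⟨z₃, hBM⟩ := hB M
  obtain ⟨z₄, hJ⟩ := hJ M
  refine ⟨v, M, K₁, (C₃ + C₄) * d n + C₃ + 1 + C₁, z₁ + z₂ + z₃ + z₄ + z₅ + 1, hvM,
    fun J z D q hz hOkL => ?_⟩
  have hz1 : 1 ≤ z := by omega
  obtain ⟨κ, hOk⟩ := hOkL.ok hz1
  have hJ' := hJ J z D q (by omega) hOkL
  have hT' := hT J z M σ D q (by omega) hOkL
  have hq := hOk.isLaw.nonneg
  -- the facts of a good sample
  have hSm : ∀ ω, 0 < q ω → D.JG d z σ C₂ M n ω →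
      Sm d n z v M σ C₃ C₄ K₁ (D.Φs M ω) D.g := by
    intro ω hω hg
    have hlb := lbase_Φs hOk ω hω
    have hlb₁ : LBase K₁ (n + 1) (M + 1) (D.Φs M ω) :=
      ⟨fun k hk i hi => (hlb.deg k hk i hi).trans hKK, hlb.tri, hlb.zero, hlb.base⟩
    have hLL := hL z (D.Φs M ω) (n + 1) (by omega) le_rfl hlb₁ hg
    have hres : ∀ N ≤ M + 1, LBase K₁ n N (D.Φs M ω) ∧ Lad d z σ C₂ N n (D.Φs M ω) :=
      fun N hN => ⟨⟨fun k hk i hi => hlb₁.deg k (hk.trans hN) i (by omega),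
        fun k hk => hlb₁.tri k (hk.trans hN), fun i h1 h2 => hlb₁.zero i h1 (by omega),
        hlb₁.base⟩, fun k hk i hi => hg k (hk.trans_le hN) i (by omega)⟩
    have hgg : ∀ k ≤ M, ∀ i < n, |(D.g k i : ℝ) - d i * (k * z)| ≤ C₁ * z := fun k hk i hi => by
      have h1 := hOk.hom k hk i hi.le
      rwa [hS.int i hi] at h1
    refine ⟨fun k hk => hlb.tri k hk, fun k hk k' hk' i hi => hLL.2 k hk k' hk' i hi,
      fun k hk => (hLL.1 k hk n (by omega)).2, ?_, fun k hk i hi => ⟨hlb₁.deg k hk i (by omega),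
        ((hK₀ (D.Φs M ω k) (fun _ => 0) (hlb.tri k hk)
          (fun i hi => hlb.deg k hk i (by omega)) i hi).2.1).trans hKK₀⟩⟩
    intro k hk F S hS0 hvF hdF hF' b hb
    rcases hk with hk | hk
    · subst hk
      exact (hBv z (D.Φs M ω) n (D.g k) (by omega) le_rfl (hres k (by omega)).1
        (hres k (by omega)).2 (hgg k hvM) F S hS0 hvF hdF).2 hF' b hb
    · subst hk
      exact (hBM z (D.Φs k ω) n (D.g k) (by omega) le_rfl (hres k (by omega)).1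
        (hres k (by omega)).2 (hgg k le_rfl) F S hS0 hvF hdF).2 hF' b hb
  -- the systems of the levels of the ladder
  have hΦk : ∀ (ω : D.Ω) (k : ℕ), k ≤ M → D.Φs M ω k = D.P k (D.c k ω) := fun ω k hk => by
    unfold NDat.Φs
    rw [if_pos hk]
  have hΦM : ∀ ω : D.Ω, D.Φs M ω (M + 1) = atT (D.X ω 0) (D.R (D.ln ω)) := fun ω => by
    unfold NDat.Φs NDat.Rt
    rw [if_neg (by omega)]
  have hGe : ∀ (ω : D.Ω) (b : ℕ → ℝ),
      eval b (X n - tinv (adp d (D.P M (D.cs M ω M))) n) = b n - ac d (D.Φs M ω M) b n := by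
    intro ω b
    have h1 : D.cs M ω M = D.c M ω := by
      unfold NDat.cs
      rw [min_self]
    rw [h1, hΦk ω M le_rfl, map_sub, eval_X]
    rfl
  have hgn : ∀ k ≤ M, |(D.g k n : ℝ) - s * (k * z)| ≤ C₁ * z := fun k hk => by
    have h1 := hOk.hom k hk n le_rfl
    rwa [hσn] at h1
  have hC₁0 : 0 ≤ C₁ := by linarith
  have hunit := unit_ge' (A := A) (hgn v hvM) hC₁0
  -- (1)
  have hone : ∀ ω, 0 < q ω → D.JG d z σ C₂ M n ω →
      |D.X ω n - eval (D.X ω) (X n - tinv (adp d (D.P M (D.cs M ω M))) n)| ≤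
        1 / 2 ^ (D.g v n + A * z) := by
    intro ω hω hg
    have hbx : Bx (D.g M) (D.Φs M ω M) n (D.X ω) := fun i hi => by
      have h1 := hOk.hgt M le_rfl ω hω i hi.le
      unfold NDat.rh at h1
      rwa [← hΦk ω M le_rfl] at h1
    have h1 := (hSm ω hω hg).sheet hX hd0 hd hK1 (Or.inr rfl) hvM (D.X ω) hbx
    have h2 := hOk.hgt M le_rfl ω hω n le_rfl
    unfold NDat.rh at h2
    rw [← hΦk ω M le_rfl] at h2
    have h3 := h2.trans (unit_le (hgn M le_rfl) hC₁0)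
    rw [hσn] at h1
    have h4 := num1 (z := z) (v := v) (M₀ := M₀) (A := A) (s := s) (dn := d n) hm1 hC₁ hC₃ hC₄
      hz1 hM₀
    rw [← hM] at h4
    rw [hGe]
    have h5 := abs_add_le (D.X ω n - eval (D.X ω) (D.Φs M ω M n))
      (eval (D.X ω) (D.Φs M ω M n) - (D.X ω n - ac d (D.Φs M ω M) (D.X ω) n))
    rw [sub_add_sub_cancel] at h5
    linarith
  refine ⟨fun x => X n - tinv (adp d (D.P M (x M))) n, fun x => ?_, fun x => ?_, ?_⟩
  · exact deg_sheet hK1 (((hK₀ (D.P M (x M)) (fun _ => 0) (hOk.P_tri _ _)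
      (fun i _ => hOk.P_deg _ _ _) n le_rfl).2.1).trans hKK₀)
  · exact vars_sheet hX hd0 hd (hOk.P_tri _ _) n
  have hbad : Pb q (fun ω => ¬ D.JG d z σ C₂ M n ω ∨ ¬ D.LG d z C₅ n (D.ln ω)) ≤ 0 :=
    Pool.STL.Pb_zero hq fun ω hω h => h.elim (fun h => h (hJ' ω hω)) fun h => h (hT' ω hω)
  refine le_trans ?_ (P2_ge hOk.isLaw (D.wn J (v * z)) _
    (fun ω => ¬ D.JG d z σ C₂ M n ω ∨ ¬ D.LG d z C₅ n (D.ln ω)) ?_)
  · linarith
  intro ω ω' hω hω' hw hb hb'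
  have hg : D.JG d z σ C₂ M n ω := by
    by_contra h
    exact hb (Or.inl h)
  have hlg : D.LG d z C₅ n (D.ln ω) := by
    by_contra h
    exact hb (Or.inr h)
  have hg' : D.JG d z σ C₂ M n ω' := by
    by_contra h
    exact hb' (Or.inl h)
  have H := hSm ω hω hg
  have H' := hSm ω' hω' hg'
  have hc : D.c v ω = D.c v ω' := hOk.c_wn v hvM ω ω' hω hω' hw
  have hln : D.ln ω = D.ln ω' := congrArg Prod.fst hw
  have htm : D.T ω / 2 ^ (J - v * z) = D.T ω' / 2 ^ (J - v * z) := congrArg Prod.snd hw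
  have hvJ : v * z ≤ J := (Nat.mul_le_mul_right z (by omega)).trans hOk.top
  refine ⟨hone ω hω hg, hone ω' hω' hg', fun b hbx => ?_, fun b hbx => ?_⟩
  · -- (3)
    have hbv : Bx (D.g v) (D.Φs M ω v) n b := by
      rw [hΦk ω v hvM]
      exact hbx
    have hbv' : Bx (D.g v) (D.Φs M ω' v) n b := by
      rw [hΦk ω' v hvM, ← hc]
      exact hbx
    have hac := H.ac0 hX hd0 hd hvM b hbv
    have hac' := H'.ac0 hX hd0 hd hvM b hbv'
    have h1 := sheet_sub hX hS hC₃ hC₄ hz1 H.tri H.dl b hac hvM (Nat.le_succ M) le_rfl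
    have h1' := sheet_sub hX hS hC₃ hC₄ hz1 H'.tri H'.dl b hac' hvM (Nat.le_succ M) le_rfl
    have h2 := ac_le hX hS hC₃ hC₄ hz1 H.tri H.dl b hac (k := M + 1) (by omega) le_rfl
    rw [hΦM ω] at h2 h1
    rw [hΦM ω', ← hln] at h1'
    have htri : TriN (atT 0 (D.R (D.ln ω))) := by
      intro i
      rcases Nat.eq_zero_or_pos i with hi | hi
      · subst hi
        unfold atT
        rw [Function.update_self, vars_C]
        exact Finset.empty_subset _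
      · unfold atT
        rw [Function.update_of_ne hi.ne']
        exact hOk.R_tri _ _
    have hdeg : ∀ i ≤ n, (atT 0 (D.R (D.ln ω)) i).totalDegree ≤ K := by
      intro i _
      rcases Nat.eq_zero_or_pos i with hi | hi
      · subst hi
        unfold atT
        rw [Function.update_self, totalDegree_C]
        exact Nat.zero_le _
      · unfold atT
        rw [Function.update_of_ne hi.ne']
        exact hOk.R_deg _ _
    have hX01 : ∀ ω, D.X ω 0 ∈ Set.Icc (0 : ℝ) 1 := fun ω => by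
      rw [hOk.X_zero]
      refine ⟨by positivity, ?_⟩
      rw [div_le_one (by positivity)]
      exact_mod_cast (hOk.T_lt ω).le
    have hfl := (hF (D.R (D.ln ω)) (Real.exp (C₅ * z)) htri hdeg
      (Real.one_le_exp (by positivity)) hlg).1
    have h3 : |D.X ω' 0 - D.X ω 0| ≤ rd z v := by
      rw [hOk.X_zero, hOk.X_zero]
      exact T_close hvJ htm
    have h4 := line_ac hX hO hd0 hd htri (rd_pos z v) h3
      (Real.one_le_exp (by positivity) : 1 ≤ Real.exp ((C₃ + C₄) * z))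
      (by positivity : (0 : ℝ) ≤ K₂ * Real.exp (C₅ * z) ^ K₂)
      (fun u hu i hi => hfl u ((convex_Icc (0 : ℝ) 1).ordConnected.uIcc_subset
        (hX01 ω) (hX01 ω') hu) i hi) h2
    have n2 := num2 (z := z) (v := v) (M₀ := M₀) (A := A) (m := d n) (s := s) hm hC₁ hC₃ hC₄
      hz1 hM₀
    have n3 := num3 (z := z) (v := v) (A := A) (m := d n) (K₂ := K₂) (s := s) hm hC₁ hC₃ hC₄
      hC₅ hz1 hv
    rw [← hM] at n2
    rw [hσn] at h1 h1'
    rw [hGe, hGe]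
    have e1 : b n - ac d (D.Φs M ω' M) b n - (b n - ac d (D.Φs M ω M) b n) =
        (ac d (D.Φs M ω M) b n - ac d (atT (D.X ω 0) (D.R (D.ln ω))) b n) -
        (ac d (atT (D.X ω' 0) (D.R (D.ln ω))) b n - ac d (atT (D.X ω 0) (D.R (D.ln ω))) b n) -
        (ac d (D.Φs M ω' M) b n - ac d (atT (D.X ω' 0) (D.R (D.ln ω))) b n) := by ring
    rw [e1]
    refine (abs_sub _ _).trans ?_
    have h5 := abs_sub
      (ac d (D.Φs M ω M) b n - ac d (atT (D.X ω 0) (D.R (D.ln ω))) b n)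
      (ac d (atT (D.X ω' 0) (D.R (D.ln ω))) b n - ac d (atT (D.X ω 0) (D.R (D.ln ω))) b n)
    linarith
  · -- (4)
    have hbv : Bx (D.g v) (D.Φs M ω v) n b := by
      rw [hΦk ω v hvM]
      exact hbx
    have hac := H.ac0 hX hd0 hd hvM b hbv
    have h1 := sheet_sub hX hS hC₃ hC₄ hz1 H.tri H.dl b hac (k := M) (k' := v) le_rfl hvM
      (Nat.le_succ M)
    have h2 := H.sheet hX hd0 hd hK1 (Or.inl rfl) hvM b hbv
    rw [hσn] at h1 h2
    rw [hΦk ω v hvM] at h2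
    have n4 := num4 (z := z) (v := v) (m := d n) (s := s) hm hC₁ hC₃ hC₄ hz1
    have h3 : Real.exp (((C₃ + C₄) * d n + C₃ + 1 + C₁) * z) *
        (Real.exp (-(C₁ * z)) * rd z v ^ s) ≤
        Real.exp (((C₃ + C₄) * d n + C₃ + 1 + C₁) * z) / 2 ^ D.g v n := by
      rw [div_eq_mul_one_div]
      exact mul_le_mul_of_nonneg_left (unit_ge (hgn v hvM) hC₁0) (Real.exp_pos _).le
    rw [hGe]
    rw [hΦk ω v hvM] at h1
    have e1 : b n - ac d (D.Φs M ω M) b n - eval b (D.P v (D.c v ω) n) =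
        (ac d (D.P v (D.c v ω)) b n - ac d (D.Φs M ω M) b n) -
        (eval b (D.P v (D.c v ω) n) - (b n - ac d (D.P v (D.c v ω)) b n)) := by ring
    rw [e1]
    refine (abs_sub _ _).trans ?_
    linarith

end Pool.STAT.Nonw
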