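import Pool.Agent.H20.MIC.Frm
import Pool.Agent.H31.STAT.MaiwF
import Pool.Agent.H25.STL.Core

/-!
# Systems of lines with live times

As `NDat.Ok`, without the field `time` (the time is live, `TmL1`) and without the field `full`; the
agreement of the polynomial of the line and of the labels is known on the natural boxes of all the
levels. So all samples have ladders and all lines are bounded on the whole window.
-/

set_option autoImplicit false

namespace Pool.STL

open Finset MvPolynomial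
open Pool.Agent.H49.Ent Pool.Agent.H32.Dense Pool.STK Pool.KS3
open Pool.BFL (Pl CB Pb P2 MC alt)
open Pool.STAT
open Pool.MIC.Frm (nat grow_fr)

/-- The axioms of a system with the coordinates `0, …, n`, for the law `q`; the time is not
uniform. -/
structure OkL (D : NDat) (n K J z M : ℕ) (σ : ℕ → ℝ) (C₁ : ℝ) (q : D.Ω → ℝ) : Prop where
  isLaw : IsLaw q
  top : (M + 1) * z ≤ J
  T_lt : ∀ ω, D.T ω < 2 ^ J
  X_zero : ∀ ω, D.X ω 0 = (D.T ω : ℝ) / 2 ^ J
  c_wn : ∀ k ≤ M, Det q (D.wn J (k * z)) (D.c k)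
  c_c : ∀ k < M, Det q (D.c (k + 1)) (D.c k)
  c_T : ∀ k ≤ M, Det q (D.c k) (fun ω => D.T ω / 2 ^ (J - k * z))
  P_deg : ∀ k x i, (D.P k x i).totalDegree ≤ K
  P_tri : ∀ k x, TriN (D.P k x)
  P_zero : ∀ x i, 1 ≤ i → D.P 0 x i = 0
  R_deg : ∀ l i, (D.R l i).totalDegree ≤ K
  R_tri : ∀ l, TriN (D.R l)
  σ_zero : σ 0 = 1
  σ_ge : ∀ i, 1 ≤ σ i
  g_zero : ∀ k, D.g k 0 = k * z
  hom : ∀ k ≤ M, ∀ i ≤ n, |(D.g k i : ℝ) - σ i * (k * z)| ≤ C₁ * z
  hgt : ∀ k ≤ M, ∀ ω, 0 < q ω → ∀ i ≤ n, |D.rh k ω i| ≤ 1 / 2 ^ D.g k i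
  line : ∀ k ≤ M, ∀ ω, 0 < q ω → ∀ i, 1 ≤ i → i ≤ n → ∀ b : ℕ → ℝ,
    Bx (D.g k) (D.P k (D.c k ω)) i b →
    |eval b (D.R (D.ln ω) i) - eval b (D.P k (D.c k ω) i)| ≤ Real.exp (C₁ * z) / 2 ^ D.g k i

/-- **Live time**: the time is almost independent of the line given the closed label; two samples
of one line and of one window of length `2 ^ (-w)` are not nearer than `2 ^ (-(w + k'))`, in the
mean over the scales `w` after each level. -/
structure TmL1 (D : NDat) (J z M k' : ℕ) (κ εT : ℝ) (q : D.Ω → ℝ) : Prop where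
  ti : ∀ k ≤ M, CH q D.T (D.c k) ≤ CH q D.T (fun ω => (D.ln ω, D.c k ω)) + κ * z
  tm : ∀ k ≤ M, ∀ x ≤ (M - k) * z,
    ∑ u ∈ range x, P2 q (D.wn J (k * z + u))
      (fun ω ω' => |(D.T ω : ℝ) - D.T ω'| * 2 ^ (k * z + u + k') < 2 ^ J) ≤ εT * x + κ * z

section

variable {D : NDat} {n K J z M : ℕ} {σ : ℕ → ℝ} {C₁ : ℝ} {q : D.Ω → ℝ}

/-- The axioms with a large defect of the time. -/
theorem OkL.ok (h : OkL D n K J z M σ C₁ q) (hz : 1 ≤ z) : ∃ κ, D.Ok n K J z M σ κ C₁ q := by
  have hl2 : 0 < Real.log 2 := Real.log_pos (by norm_num)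
  have hz1 : (1 : ℝ) ≤ z := by exact_mod_cast hz
  have hq := h.isLaw
  refine ⟨(J + n * z) * Real.log 2, ?_⟩
  have e1 : ((J + n * z) * Real.log 2 : ℝ) ≤ (J + n * z) * Real.log 2 * z :=
    le_mul_of_one_le_right (by positivity) hz1
  have e2 : (0 : ℝ) ≤ n * z * Real.log 2 := by positivity
  have e3 : (0 : ℝ) ≤ J * Real.log 2 := by positivity
  exact
  { isLaw := h.isLaw
    top := h.top
    T_lt := h.T_lt
    X_zero := h.X_zero
    time := by
      have := CH_nonneg hq.nonneg D.T D.ln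
      linarith only [e1, e2, this]
    c_wn := h.c_wn
    c_c := h.c_c
    c_T := h.c_T
    P_deg := h.P_deg
    P_tri := h.P_tri
    P_zero := h.P_zero
    R_deg := h.R_deg
    R_tri := h.R_tri
    σ_zero := h.σ_zero
    σ_ge := h.σ_ge
    hom := h.hom
    hgt := h.hgt
    line := h.line M le_rfl
    full := fun k _ => by
      have := CH_nonneg hq.nonneg
        (fun ω (i : Fin n) => ⌊(2 : ℝ) ^ (D.g k i + z) * D.rh k ω i⌋) (D.c k)
      linarith only [e1, e3, this] }

/-- Fewer coordinates. -/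
theorem OkL.res (h : OkL D n K J z M σ C₁ q) {i : ℕ} (hi : i ≤ n) : OkL D i K J z M σ C₁ q :=
  { h with
    hom := fun k hk j hj => h.hom k hk j (hj.trans hi)
    hgt := fun k hk ω hω j hj => h.hgt k hk ω hω j (hj.trans hi)
    line := fun k hk ω hω j hj hji => h.line k hk ω hω j hj (hji.trans hi) }

/-- The precisions of two consecutive levels. -/
theorem OkL.g_succ (h : OkL D n K J z M σ C₁ q) {k : ℕ} (hk : k < M) {i : ℕ} (hi : i ≤ n) :
    (D.g k i : ℝ) ≤ D.g (k + 1) i + 2 * (C₁ * z) := by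
  have h1 := (abs_le.1 (h.hom k hk.le i hi)).2
  have h2 := (abs_le.1 (h.hom (k + 1) hk i hi)).1
  have h3 : 0 ≤ σ i := by linarith [h.σ_ge i]
  have h4 : (0 : ℝ) ≤ z := Nat.cast_nonneg z
  have h5 : 0 ≤ σ i * z := mul_nonneg h3 h4
  push_cast at h2
  linarith only [h1, h2, h5]

theorem unit_succ {a b : ℕ} {c : ℝ} (hc : 0 ≤ c) (h : (a : ℝ) ≤ b + c) :
    1 / (2 : ℝ) ^ b ≤ Real.exp c / 2 ^ a := by
  have hl : Real.log 2 ≤ 1 := by
    have := Real.log_two_lt_d9
    linarith
  have hl0 : 0 ≤ Real.log 2 := Real.log_nonneg (by norm_num)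
  have e : ∀ m : ℕ, (2 : ℝ) ^ m = Real.exp (m * Real.log 2) := fun m => by
    rw [Real.exp_nat_mul, Real.exp_log (by norm_num)]
  rw [div_le_div_iff₀ (by positivity) (by positivity), one_mul, e a, e b, ← Real.exp_add]
  refine Real.exp_le_exp.2 ?_
  have h1 : (a : ℝ) * Real.log 2 ≤ (b + c) * Real.log 2 := mul_le_mul_of_nonneg_right h hl0
  have h2 : c * Real.log 2 ≤ c * 1 := mul_le_mul_of_nonneg_left hl hc
  linarith

/-- **The labels of consecutive levels**: they agree on the natural box of the next level. -/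
theorem nxt (n K : ℕ) (C₁ : ℝ) (hC₁ : 1 ≤ C₁) : ∃ (C : ℝ) (z₀ : ℕ), 1 ≤ C ∧
    ∀ (D : NDat) (J z M : ℕ) (σ : ℕ → ℝ) (q : D.Ω → ℝ), z₀ ≤ z → OkL D n K J z M σ C₁ q →
    ∀ k < M, ∀ ω, 0 < q ω → ∀ i ≤ n, ∀ b : ℕ → ℝ,
      Bx (D.g (k + 1)) (D.P (k + 1) (D.c (k + 1) ω)) i b →
      |eval b (D.P (k + 1) (D.c (k + 1) ω) i) - eval b (D.P k (D.c k ω) i)| ≤
        Real.exp (C * z) / 2 ^ D.g k i := by
  have main : ∀ m ≤ n, ∃ (C : ℝ) (z₀ : ℕ), 1 ≤ C ∧
      ∀ (D : NDat) (J z M : ℕ) (σ : ℕ → ℝ) (q : D.Ω → ℝ), z₀ ≤ z → OkL D n K J z M σ C₁ q →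
      ∀ k < M, ∀ ω, 0 < q ω → ∀ i ≤ m, ∀ b : ℕ → ℝ,
        Bx (D.g (k + 1)) (D.P (k + 1) (D.c (k + 1) ω)) i b →
        |eval b (D.P (k + 1) (D.c (k + 1) ω) i) - eval b (D.P k (D.c k ω) i)| ≤
          Real.exp (C * z) / 2 ^ D.g k i := by
    intro m
    induction m with
    | zero =>
      intro _
      refine ⟨2 * C₁ + 1, 1, by linarith, ?_⟩
      intro D J z M σ q hz h k hk ω hω i hi b _
      obtain rfl : i = 0 := by omega
      have hz1 : (1 : ℝ) ≤ z := by exact_mod_cast hz
      obtain ⟨t, ht⟩ := JBW.eq_C_of_tri (h.P_tri k (D.c k ω))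
      obtain ⟨t', ht'⟩ := JBW.eq_C_of_tri (h.P_tri (k + 1) (D.c (k + 1) ω))
      have h1 := h.hgt k hk.le ω hω 0 (Nat.zero_le _)
      have h2 := h.hgt (k + 1) hk ω hω 0 (Nat.zero_le _)
      unfold NDat.rh at h1 h2
      rw [ht, eval_C] at h1
      rw [ht', eval_C] at h2
      rw [ht, ht', eval_C, eval_C]
      have h3 := unit_succ (c := 2 * (C₁ * z)) (by positivity) (h.g_succ hk (Nat.zero_le n))
      have h4 : |t' - t| ≤ |D.X ω 0 - t| + |D.X ω 0 - t'| := by
        have := abs_sub (D.X ω 0 - t) (D.X ω 0 - t')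
        rwa [show D.X ω 0 - t - (D.X ω 0 - t') = t' - t by ring] at this
      have h5 : (1 : ℝ) ≤ Real.exp (2 * (C₁ * z)) := Real.one_le_exp (by positivity)
      have h6 : 1 / (2 : ℝ) ^ D.g k 0 ≤ Real.exp (2 * (C₁ * z)) / 2 ^ D.g k 0 :=
        div_le_div_of_nonneg_right h5 (by positivity)
      have h7 : Real.exp (2 * (C₁ * z)) / 2 ^ D.g k 0 + Real.exp (2 * (C₁ * z)) / 2 ^ D.g k 0 ≤
          Real.exp ((2 * C₁ + 1) * z) / 2 ^ D.g k 0 := by
        rw [← add_div]
        refine div_le_div_of_nonneg_right ?_ (by positivity)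
        have e1 : Real.exp ((2 * C₁ + 1) * z) = Real.exp (2 * (C₁ * z)) * Real.exp z := by
          rw [← Real.exp_add]
          congr 1
          ring
        have e2 : (2 : ℝ) ≤ Real.exp z := by linarith [Real.add_one_le_exp (z : ℝ)]
        rw [e1]
        nlinarith [Real.exp_pos (2 * (C₁ * z))]
      linarith only [h1, h2, h3, h4, h6, h7]
    | succ m ih =>
      intro hm
      obtain ⟨C, z₀, hC, hI⟩ := ih (by omega)
      obtain ⟨G, E, hG, hGr⟩ := grow_fr (m + 1) K
      obtain ⟨Cm, hCm⟩ : ∃ Cm : ℝ, Cm = 2 * C₁ + C + 1 := ⟨_, rfl⟩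
      obtain ⟨Cf, hCf⟩ : ∃ Cf : ℝ, Cf = G + Cm * E + 3 * C₁ + 1 := ⟨_, rfl⟩
      have hE0 : (0 : ℝ) ≤ E := Nat.cast_nonneg E
      refine ⟨C + Cf, max z₀ 1, ?_, ?_⟩
      · rw [hCf]
        have : 0 ≤ Cm * E := by rw [hCm]; positivity
        linarith
      intro D J z M σ q hz h k hk ω hω i hi b hb
      have hz0 : z₀ ≤ z := (le_max_left _ _).trans hz
      have hz1 : (1 : ℝ) ≤ z := by exact_mod_cast (le_max_right _ _).trans hz
      have hCm0 : 0 ≤ Cm := by rw [hCm]; positivity
      have hCf0 : 0 ≤ Cf := by rw [hCf]; positivity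
      rcases Nat.lt_or_ge m i with hmi | hmi
      swap
      · refine (hI D J z M σ q hz0 h k hk ω hω i hmi b hb).trans ?_
        refine div_le_div_of_nonneg_right (Real.exp_le_exp.2 ?_) (by positivity)
        nlinarith
      obtain rfl : i = m + 1 := by omega
      -- the box of the next level in the box of the level
      have hnat : ∀ j < m + 1, |nat (D.g k) (D.P k (D.c k ω)) b j| ≤ Real.exp (Cm * z) := by
        intro j hj
        have a1 := hb j hj
        have a2 := hI D J z M σ q hz0 h k hk ω hω j (by omega) b fun l hl => hb l (by omega)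
        have a3 := unit_succ (c := 2 * (C₁ * z)) (by positivity) (h.g_succ hk (by omega : j ≤ n))
        have a4 : |b j - eval b (D.P k (D.c k ω) j)| ≤
            (Real.exp (2 * (C₁ * z)) + Real.exp (C * z)) / 2 ^ D.g k j := by
          have := abs_add_le (b j - eval b (D.P (k + 1) (D.c (k + 1) ω) j))
            (eval b (D.P (k + 1) (D.c (k + 1) ω) j) - eval b (D.P k (D.c k ω) j))
          rw [sub_add_sub_cancel] at this
          rw [add_div]
          linarith only [this, a1, a2, a3]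
        unfold nat
        rw [abs_mul, abs_of_pos (by positivity)]
        rw [le_div_iff₀ (by positivity)] at a4
        rw [mul_comm]
        refine a4.trans ?_
        have b1 : Real.exp (2 * (C₁ * z)) ≤ Real.exp ((Cm - 1) * z) := Real.exp_le_exp.2 (by
          rw [hCm]
          nlinarith)
        have b2 : Real.exp (C * z) ≤ Real.exp ((Cm - 1) * z) := Real.exp_le_exp.2 (by
          rw [hCm]
          nlinarith)
        have b3 : Real.exp (Cm * z) = Real.exp ((Cm - 1) * z) * Real.exp z := by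
          rw [← Real.exp_add]
          congr 1
          ring
        have b4 : (2 : ℝ) ≤ Real.exp z := by linarith [Real.add_one_le_exp (z : ℝ)]
        rw [b3]
        nlinarith [Real.exp_pos ((Cm - 1) * z)]
      have hRP := hGr (D.g k) (D.P k (D.c k ω))
        (D.R (D.ln ω) (m + 1) - D.P k (D.c k ω) (m + 1))
        (Real.exp (C₁ * z) / 2 ^ D.g k (m + 1)) (Real.exp (Cm * z)) (h.P_tri _ _)
        (fun j _ => h.P_deg _ _ _) (Real.one_le_exp (by positivity))
        (AdxRow.vars_sub_le (h.R_tri _ (m + 1)) (h.P_tri _ _ (m + 1)))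
        ((totalDegree_sub _ _).trans (max_le (h.R_deg _ _) (h.P_deg _ _ _))) (fun b' hb' => by
          rw [map_sub]
          refine h.line k hk.le ω hω (m + 1) (by omega) hm b' fun j hj => ?_
          have := hb' j hj
          unfold nat at this
          rw [abs_mul, abs_of_pos (by positivity)] at this
          rw [le_div_iff₀ (by positivity), mul_comm]
          exact this) b hnat
      rw [map_sub] at hRP
      have hRP' := h.line (k + 1) hk ω hω (m + 1) (by omega) hm b hb
      have c1 : Real.exp (C₁ * z) / 2 ^ D.g (k + 1) (m + 1) ≤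
          Real.exp (3 * C₁ * z) / 2 ^ D.g k (m + 1) := by
        have a3 := unit_succ (c := 2 * (C₁ * z)) (by positivity) (h.g_succ hk hm)
        have e1 : Real.exp (3 * C₁ * z) = Real.exp (C₁ * z) * Real.exp (2 * (C₁ * z)) := by
          rw [← Real.exp_add]
          congr 1
          ring
        have e2 := mul_le_mul_of_nonneg_left a3 (Real.exp_pos (C₁ * z)).le
        rw [mul_one_div, ← mul_div_assoc, ← e1] at e2
        exact e2
      have c2 : G * Real.exp (Cm * z) ^ E * (Real.exp (C₁ * z) / 2 ^ D.g k (m + 1)) ≤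
          Real.exp ((G + Cm * E + C₁) * z) / 2 ^ D.g k (m + 1) := by
        rw [← mul_div_assoc]
        refine div_le_div_of_nonneg_right ?_ (by positivity)
        have e1 : Real.exp (Cm * z) ^ E = Real.exp (Cm * E * z) := by
          rw [← Real.exp_nat_mul]
          congr 1
          ring
        have e2 : G ≤ Real.exp (G * z) := by
          have := Real.add_one_le_exp (G * z)
          nlinarith
        rw [e1, add_mul, add_mul, Real.exp_add, Real.exp_add]
        exact mul_le_mul_of_nonneg_right (mul_le_mul_of_nonneg_right e2 (Real.exp_pos _).le)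
          (Real.exp_pos _).le
      have c3 : |eval b (D.P (k + 1) (D.c (k + 1) ω) (m + 1)) -
          eval b (D.P k (D.c k ω) (m + 1))| ≤
          |eval b (D.R (D.ln ω) (m + 1)) - eval b (D.P (k + 1) (D.c (k + 1) ω) (m + 1))| +
          |eval b (D.R (D.ln ω) (m + 1)) - eval b (D.P k (D.c k ω) (m + 1))| := by
        have := abs_sub (eval b (D.R (D.ln ω) (m + 1)) - eval b (D.P k (D.c k ω) (m + 1)))
          (eval b (D.R (D.ln ω) (m + 1)) - eval b (D.P (k + 1) (D.c (k + 1) ω) (m + 1)))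
        rw [show ∀ x y w : ℝ, x - y - (x - w) = w - y from fun x y w => by ring] at this
        linarith only [this]
      have c4 : Real.exp (3 * C₁ * z) / 2 ^ D.g k (m + 1) +
          Real.exp ((G + Cm * E + C₁) * z) / 2 ^ D.g k (m + 1) ≤
          Real.exp ((C + Cf) * z) / 2 ^ D.g k (m + 1) := by
        rw [← add_div]
        refine div_le_div_of_nonneg_right ?_ (by positivity)
        have e0 : 0 ≤ Cm * E := by positivity
        have e1 : Real.exp (3 * C₁ * z) ≤ Real.exp ((C + Cf - 1) * z) := Real.exp_le_exp.2 (by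
          rw [hCf]
          nlinarith)
        have e2 : Real.exp ((G + Cm * E + C₁) * z) ≤ Real.exp ((C + Cf - 1) * z) :=
          Real.exp_le_exp.2 (by
            rw [hCf]
            nlinarith)
        have e3 : Real.exp ((C + Cf) * z) = Real.exp ((C + Cf - 1) * z) * Real.exp z := by
          rw [← Real.exp_add]
          congr 1
          ring
        have e4 : (2 : ℝ) ≤ Real.exp z := by linarith [Real.add_one_le_exp (z : ℝ)]
        rw [e3]
        nlinarith [Real.exp_pos ((C + Cf - 1) * z)]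
      linarith only [hRP, hRP', c1, c2, c3, c4]
  exact main n le_rfl

end

end Pool.STL
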