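import Pool.Agent.H25.STL.Lad

/-!
# The field of a representative of the block
-/

set_option autoImplicit false

namespace Pool.STL

open Finset MvPolynomial
open Pool.Agent.H49.Ent Pool.Agent.H32.Dense Pool.STK Pool.KS3
open Pool.BFL (Pl CB Pb P2 MC alt)
open Pool.STAT

open Classical in
/-- A representative of the block `x`. -/
noncomputable def rpx {Ω G : Type} (q : Ω → ℝ) (g : Ω → G) (x : G) (ω : Ω) : Ω :=
  if h : ∃ ω', 0 < q ω' ∧ g ω' = x then h.choose else ω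

/-- A representative of the block of `ω`. -/
noncomputable def rp {Ω G : Type} (q : Ω → ℝ) (g : Ω → G) (ω : Ω) : Ω := rpx q g (g ω) ω

theorem rp_spec {Ω G : Type} {q : Ω → ℝ} {g : Ω → G} {ω : Ω} (hω : 0 < q ω) :
    0 < q (rp q g ω) ∧ g (rp q g ω) = g ω := by
  have h : ∃ ω', 0 < q ω' ∧ g ω' = g ω := ⟨ω, hω, rfl⟩
  unfold rp rpx
  rw [dif_pos h]
  exact h.choose_spec

theorem rp_congr {Ω G : Type} {q : Ω → ℝ} {g : Ω → G} {ω ω' : Ω} (hω : 0 < q ω)
    (e : g ω = g ω') : rp q g ω = rp q g ω' := by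
  have h : ∃ ω'', 0 < q ω'' ∧ g ω'' = g ω' := ⟨ω, hω, e⟩
  unfold rp
  rw [e]
  unfold rpx
  rw [dif_pos h, dif_pos h]

theorem coeff_rnd' {a S : ℝ} {F : PN} {k : ℕ →₀ ℕ} (h : |F.coeff k| ≤ S) :
    (rnd a S F).coeff k = (⌊a * F.coeff k⌋ : ℝ) / a := by
  rw [M31.coeff_rnd]
  by_cases hk : k ∈ F.support
  · rw [if_pos hk, if_pos h]
  · rw [if_neg hk, MvPolynomial.notMem_support_iff.mp hk, mul_zero, Int.floor_zero, Int.cast_zero,
      zero_div]

/-- The rounded polynomials of two families with close coefficients. -/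
theorem ch_rnd {Ω : Type} [Fintype Ω] {q : Ω → ℝ} (hq : IsLaw q) {n : ℕ} {T : Finset (ℕ →₀ ℕ)}
    {a S B : ℝ} (ha : 0 < a) (f f' : Ω → ℕ → PN)
    (hf : ∀ ω, 0 < q ω → ∀ i ≤ n, (f ω i).support ⊆ T)
    (hb : ∀ ω, 0 < q ω → ∀ i ≤ n, ∀ k, |(f ω i).coeff k| ≤ S)
    (hb' : ∀ ω, 0 < q ω → ∀ i ≤ n, ∀ k, |(f' ω i).coeff k| ≤ S)
    (hd : ∀ ω, 0 < q ω → ∀ i ≤ n, ∀ k, a * |(f ω i).coeff k - (f' ω i).coeff k| + 1 ≤ B) :
    CH q (fun ω (i : ℕ) => if i ≤ n then rnd a S (f ω i) else 0)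
      (fun ω (i : ℕ) => if i ≤ n then rnd a S (f' ω i) else 0) ≤
      ((Fintype.card (Fin (n + 1) × T) : ℕ) : ℝ) * Real.log (2 * (2 * B) + 1) := by
  classical
  obtain ⟨e, he⟩ : ∃ e : Fin (n + 1) × T ≃ Fin (Fintype.card (Fin (n + 1) × T)),
    e = Fintype.equivFin _ := ⟨_, rfl⟩
  obtain ⟨N, hN⟩ : ∃ N : Ω → Fin (Fintype.card (Fin (n + 1) × T)) → ℤ, ∀ ω x, N ω x =
    ⌊a * (f ω (e.symm x).1).coeff (e.symm x).2⌋ := ⟨_, fun _ _ => rfl⟩
  have h1 : Det q (fun ω => (N ω, (fun (i : ℕ) => if i ≤ n then rnd a S (f' ω i) else 0)))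
      (fun ω (i : ℕ) => if i ≤ n then rnd a S (f ω i) else 0) := by
    intro ω ω' hω hω' hh
    have hNN : N ω = N ω' := (Prod.ext_iff.1 hh).1
    funext i
    beta_reduce
    by_cases hi : i ≤ n
    · rw [if_pos hi, if_pos hi]
      ext k
      rw [coeff_rnd' (hb ω hω i hi k), coeff_rnd' (hb ω' hω' i hi k)]
      by_cases hk : k ∈ T
      · have h2 := congrFun hNN (e (⟨i, by omega⟩, ⟨k, hk⟩))
        rw [hN, hN, Equiv.symm_apply_apply] at h2
        change ⌊a * (f ω i).coeff k⌋ = ⌊a * (f ω' i).coeff k⌋ at h2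
        rw [h2]
      · have e1 : (f ω i).coeff k = 0 :=
          MvPolynomial.notMem_support_iff.mp fun h => hk (hf ω hω i hi h)
        have e2 : (f ω' i).coeff k = 0 :=
          MvPolynomial.notMem_support_iff.mp fun h => hk (hf ω' hω' i hi h)
        rw [e1, e2]
    · rw [if_neg hi, if_neg hi]
  refine (CH_mono_left hq.nonneg h1).trans ?_
  have h2 := CH_le_vec hq.nonneg hq.sum_one N
    (fun ω (i : ℕ) => if i ≤ n then rnd a S (f' ω i) else 0) (fun _ => 2 * B)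
    (fun ω ω' hω hω' hh x => by
      obtain ⟨i, hi⟩ : ∃ i : ℕ, i = ((e.symm x).1 : ℕ) := ⟨_, rfl⟩
      obtain ⟨k, hk⟩ : ∃ k : ℕ →₀ ℕ, k = ((e.symm x).2 : ℕ →₀ ℕ) := ⟨_, rfl⟩
      have hin : i ≤ n := by
        rw [hi]
        have := (e.symm x).1.2
        omega
      have h3 := congrFun hh i
      simp only [if_pos hin] at h3
      have h4 := congrArg (fun F => MvPolynomial.coeff k F) h3
      beta_reduce at h4
      rw [coeff_rnd' (hb' ω hω i hin k), coeff_rnd' (hb' ω' hω' i hin k),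
        div_left_inj' ha.ne'] at h4
      have h5 : ⌊a * (f' ω i).coeff k⌋ = ⌊a * (f' ω' i).coeff k⌋ := by exact_mod_cast h4
      rw [hN, hN, ← hi, ← hk]
      have key : ∀ ω, 0 < q ω →
          |((⌊a * (f ω i).coeff k⌋ : ℤ) : ℝ) - (⌊a * (f' ω i).coeff k⌋ : ℤ)| ≤ B := by
        intro ω hω
        have k1 := hd ω hω i hin k
        have k2 : a * |(f ω i).coeff k - (f' ω i).coeff k| =
            |a * (f ω i).coeff k - a * (f' ω i).coeff k| := by
          rw [← mul_sub, abs_mul, abs_of_pos ha]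
        rw [k2] at k1
        have k3 := abs_le.1 (le_refl |a * (f ω i).coeff k - a * (f' ω i).coeff k|)
        have k4 := Int.floor_le (a * (f ω i).coeff k)
        have k5 := Int.lt_floor_add_one (a * (f ω i).coeff k)
        have k6 := Int.floor_le (a * (f' ω i).coeff k)
        have k7 := Int.lt_floor_add_one (a * (f' ω i).coeff k)
        rw [abs_le]
        constructor
        · linarith [k3.1]
        · linarith [k3.2]
      have k1 := key ω hω
      have k2 := key ω' hω'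
      rw [h5] at k1
      have k3 := abs_sub (((⌊a * (f ω i).coeff k⌋ : ℤ) : ℝ) - (⌊a * (f' ω' i).coeff k⌋ : ℤ))
        (((⌊a * (f ω' i).coeff k⌋ : ℤ) : ℝ) - (⌊a * (f' ω' i).coeff k⌋ : ℤ))
      rw [sub_sub_sub_cancel_right] at k3
      push_cast
      linarith)
  rw [Ex_const hq.sum_one] at h2
  exact h2

/-- The field of the representative of the block of level `v`. -/
noncomputable def vr (D : NDat) (q : D.Ω → ℝ) (d : ℕ → ℕ) (J z v y : ℕ) (C₂ : ℝ) (n : ℕ)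
    (ω : D.Ω) (i : ℕ) : PN :=
  D.vf d z y C₂ n (rp q (D.wn J (v * z)) ω) i

/-- **The field of the sample and the field of the representative** are determined by each other,
up to few bits. -/
theorem vr_vf (n K : ℕ) (d : ℕ → ℕ) (C₁ : ℝ) (hd0 : d 0 = 1) (hd : ∀ i, 1 ≤ d i) (hC₁ : 1 ≤ C₁) :
    ∃ C₂' : ℝ, 1 ≤ C₂' ∧ ∃ C₇ : ℝ, 1 ≤ C₇ ∧ ∃ z₀ : ℕ, ∀ C₂ : ℝ, C₂' ≤ C₂ →
      ∀ (U J z M k : ℕ) (σ : ℕ → ℝ) (D : NDat) (q : D.Ω → ℝ), z₀ ≤ z →
      OkL D n K J z M σ C₁ q → k + U ≤ M →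
      CH q (vr D q d J z (k + U) (U + 1) C₂ n) (D.vf d z (U + 1) C₂ n) ≤ C₇ * z ∧
      CH q (D.vf d z (U + 1) C₂ n) (vr D q d J z (k + U) (U + 1) C₂ n) ≤ C₇ * z := by
  classical
  obtain ⟨C₅, z₁, hC₅, hlg⟩ := lg n K d C₁ hd0 hd hC₁
  obtain ⟨K', hF⟩ := flb_thm n K d hd0 hd
  obtain ⟨D₀, hD₀⟩ : ∃ D₀ : ℕ, ∀ i ≤ n, d i - 1 ≤ D₀ :=
    ⟨∑ i ∈ range (n + 1), d i, fun i hi => (Nat.sub_le _ _).trans
      (single_le_sum (f := d) (fun _ _ => Nat.zero_le _) (mem_range.mpr (by omega)))⟩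
  obtain ⟨T, hT⟩ : ∃ T : Finset (ℕ →₀ ℕ), T = VCH.expo n D₀ := ⟨_, rfl⟩
  have hK'0 : (0 : ℝ) ≤ K' := Nat.cast_nonneg _
  obtain ⟨C₆, hC₆⟩ : ∃ C₆ : ℝ, C₆ = K' + C₅ * K' + 1 := ⟨_, rfl⟩
  have hC₆1 : 1 ≤ C₆ := by
    rw [hC₆]
    have : 0 ≤ C₅ * K' := by positivity
    linarith
  have hcd : (0 : ℝ) ≤ ((Fintype.card (Fin (n + 1) × T) : ℕ) : ℝ) := Nat.cast_nonneg _
  refine ⟨C₆, hC₆1, (Fintype.card (Fin (n + 1) × T) : ℕ) * (C₆ + 10) + 1, ?_, max z₁ 1, ?_⟩
  · have : (0 : ℝ) ≤ (Fintype.card (Fin (n + 1) × T) : ℕ) * (C₆ + 10) := by positivity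
    linarith
  intro C₂ hC₂ U J z M k σ D q hz h hk
  have hz1 : z₁ ≤ z := (le_max_left _ _).trans hz
  have hz3 : 1 ≤ z := (le_max_right _ _).trans hz
  have hzr : (1 : ℝ) ≤ z := by exact_mod_cast hz3
  have hq := h.isLaw
  obtain ⟨a, ha⟩ : ∃ a : ℝ, a = (2 : ℝ) ^ ((U + 1) * z) := ⟨_, rfl⟩
  have ha0 : 0 < a := by rw [ha]; positivity
  have hS : Real.exp (C₆ * z) ≤ Real.exp (C₂ * z) :=
    Real.exp_le_exp.2 (mul_le_mul_of_nonneg_right hC₂ (by linarith))
  have hKR : (K' : ℝ) * Real.exp (C₅ * z) ^ K' ≤ Real.exp (C₆ * z) := by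
    have e1 : (K' : ℝ) ≤ Real.exp (K' * z) := by
      have := Real.add_one_le_exp ((K' : ℝ) * z)
      nlinarith
    have e2 : Real.exp (C₅ * z) ^ K' = Real.exp (C₅ * K' * z) := by
      rw [← Real.exp_nat_mul]
      congr 1
      ring
    rw [e2]
    refine (mul_le_mul_of_nonneg_right e1 (Real.exp_pos _).le).trans ?_
    rw [← Real.exp_add]
    refine Real.exp_le_exp.2 ?_
    rw [hC₆]
    linarith
  have hX01 : ∀ ω, D.X ω 0 ∈ Set.Icc (0 : ℝ) 1 := fun ω => by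
    rw [h.X_zero]
    refine ⟨by positivity, ?_⟩
    rw [div_le_one (by positivity)]
    exact_mod_cast (h.T_lt ω).le
  have hflb := fun ω (hω : 0 < q ω) => hF (D.R (D.ln ω)) (Real.exp (C₅ * z))
    (M31.tri_atT (h.R_tri _) 0) (fun i _ => by
      by_cases hi : i = 0
      · subst hi
        unfold atT
        rw [Function.update_self, totalDegree_C]
        exact Nat.zero_le _
      · unfold atT
        rw [Function.update_of_ne hi]
        exact h.R_deg _ _) (Real.one_le_exp (by positivity)) (hlg J z M σ D q hz1 h ω hω)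
  -- the supports and the bounds
  have hsup : ∀ ω, ∀ i ≤ n, (fld d (D.Rt ω) i).support ⊆ T := by
    intro ω i hi
    obtain ⟨-, -, -, -, -, htf, hhf, -⟩ := AdxRow.adx_thm.2 d (D.Rt ω) hd0 hd
      (M31.tri_atT (h.R_tri _) _)
    rw [hT]
    exact VCH.support_sub d hd ((htf i).trans (range_subset_range.mpr hi)) (hhf i) (hD₀ i hi)
  have hbd : ∀ ω, 0 < q ω → ∀ i ≤ n, ∀ k, |(fld d (D.Rt ω) i).coeff k| ≤ Real.exp (C₂ * z) := by
    intro ω hω i hi k
    have h1 := (hflb ω hω).1 (D.X ω 0) (hX01 ω) i hi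
    exact ((FLB.coeff_le_nrm (d := d) _ k).trans h1).trans (hKR.trans hS)
  have hrp : ∀ ω, 0 < q ω → 0 < q (rp q (D.wn J ((k + U) * z)) ω) ∧
      D.wn J ((k + U) * z) (rp q (D.wn J ((k + U) * z)) ω) = D.wn J ((k + U) * z) ω :=
    fun ω hω => rp_spec hω
  have hvJ : (k + U) * z ≤ J := (Nat.mul_le_mul_right z (by omega)).trans h.top
  have hdf : ∀ ω, 0 < q ω → ∀ i ≤ n, ∀ l,
      a * |(fld d (D.Rt (rp q (D.wn J ((k + U) * z)) ω)) i).coeff l -
        (fld d (D.Rt ω) i).coeff l| + 1 ≤ Real.exp ((C₆ + 1) * z) + 1 := by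
    intro ω hω i hi l
    obtain ⟨r1, r2⟩ := hrp ω hω
    have hln : D.ln (rp q (D.wn J ((k + U) * z)) ω) = D.ln ω := congrArg Prod.fst r2
    have htm : D.T ω / 2 ^ (J - (k + U) * z) =
        D.T (rp q (D.wn J ((k + U) * z)) ω) / 2 ^ (J - (k + U) * z) :=
      (congrArg Prod.snd r2).symm
    have h3 : |D.X (rp q (D.wn J ((k + U) * z)) ω) 0 - D.X ω 0| ≤ 1 / 2 ^ ((k + U) * z) := by
      rw [h.X_zero, h.X_zero]
      exact Nonw.T_close hvJ htm
    have h1 := (hflb ω hω).2 (D.X ω 0) (hX01 ω) (D.X (rp q (D.wn J ((k + U) * z)) ω) 0)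
      (hX01 _) i hi
    have e1 : D.Rt (rp q (D.wn J ((k + U) * z)) ω) =
        atT (D.X (rp q (D.wn J ((k + U) * z)) ω) 0) (D.R (D.ln ω)) := by
      unfold NDat.Rt
      rw [hln]
    have e2 : D.Rt ω = atT (D.X ω 0) (D.R (D.ln ω)) := rfl
    have h4 := FLB.coeff_le_nrm (d := d) (fld d (D.Rt (rp q (D.wn J ((k + U) * z)) ω)) i -
      fld d (D.Rt ω) i) l
    rw [MvPolynomial.coeff_sub] at h4
    rw [e1, e2] at h4 ⊢
    have h5 := h4.trans h1
    have h6 : a * |(fld d (atT (D.X (rp q (D.wn J ((k + U) * z)) ω) 0) (D.R (D.ln ω))) i).coeff l -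
        (fld d (atT (D.X ω 0) (D.R (D.ln ω))) i).coeff l| ≤
        a * (Real.exp (C₆ * z) * (1 / 2 ^ ((k + U) * z))) := by
      refine mul_le_mul_of_nonneg_left (h5.trans ?_) ha0.le
      exact mul_le_mul hKR h3 (abs_nonneg _) (Real.exp_pos _).le
    have h7 : a * (Real.exp (C₆ * z) * (1 / 2 ^ ((k + U) * z))) ≤ Real.exp ((C₆ + 1) * z) := by
      have e3 : a ≤ 2 ^ ((k + U) * z) * 2 ^ z := by
        rw [ha, ← pow_add]
        refine pow_le_pow_right₀ (by norm_num) ?_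
        have : (U + 1) * z ≤ (k + U + 1) * z := Nat.mul_le_mul_right z (by omega)
        rw [add_mul (k + U) 1 z, one_mul] at this
        exact this
      have e4 := JBW.two_pow_le z
      have e5 : a * (1 / 2 ^ ((k + U) * z)) ≤ Real.exp z := by
        rw [mul_one_div, div_le_iff₀ (by positivity), mul_comm]
        exact e3.trans (mul_le_mul_of_nonneg_left e4 (by positivity))
      calc a * (Real.exp (C₆ * z) * (1 / 2 ^ ((k + U) * z))) =
          Real.exp (C₆ * z) * (a * (1 / 2 ^ ((k + U) * z))) := by ring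
        _ ≤ Real.exp (C₆ * z) * Real.exp z := mul_le_mul_of_nonneg_left e5 (Real.exp_pos _).le
        _ = Real.exp ((C₆ + 1) * z) := by
          rw [← Real.exp_add]
          congr 1
          ring
    linarith only [h6, h7]
  have hfin : ((Fintype.card (Fin (n + 1) × T) : ℕ) : ℝ) *
      Real.log (2 * (2 * (Real.exp ((C₆ + 1) * z) + 1)) + 1) ≤
      ((Fintype.card (Fin (n + 1) × T) : ℕ) * (C₆ + 10) + 1) * z := by
    have e1 : Real.log (2 * (2 * (Real.exp ((C₆ + 1) * z) + 1)) + 1) ≤ (C₆ + 10) * z := by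
      rw [← Real.log_exp ((C₆ + 10) * z)]
      refine Real.log_le_log (by positivity) ?_
      have e2 : Real.exp ((C₆ + 10) * z) = Real.exp ((C₆ + 1) * z) * Real.exp (9 * z) := by
        rw [← Real.exp_add]
        congr 1
        ring
      have e3 : 1 ≤ Real.exp ((C₆ + 1) * z) := Real.one_le_exp (by positivity)
      have e4 : (9 : ℝ) ≤ Real.exp (9 * z) := by
        have := Real.add_one_le_exp (9 * (z : ℝ))
        linarith
      rw [e2]
      nlinarith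
    have e2 := mul_le_mul_of_nonneg_left e1 hcd
    linarith
  constructor
  · refine le_trans ?_ hfin
    exact ch_rnd hq (n := n) (T := T) (S := Real.exp (C₂ * z)) ha0
      (fun ω => fld d (D.Rt (rp q (D.wn J ((k + U) * z)) ω))) (fun ω => fld d (D.Rt ω))
      (fun ω _ i hi => hsup _ i hi) (fun ω hω i hi l => hbd _ (hrp ω hω).1 i hi l) hbd hdf
      |>.trans' (le_of_eq (by rw [ha]; rfl))
  · refine le_trans ?_ hfin
    exact ch_rnd hq (n := n) (T := T) (S := Real.exp (C₂ * z)) ha0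
      (fun ω => fld d (D.Rt ω)) (fun ω => fld d (D.Rt (rp q (D.wn J ((k + U) * z)) ω)))
      (fun ω _ i hi => hsup _ i hi) hbd (fun ω hω i hi l => hbd _ (hrp ω hω).1 i hi l)
      (fun ω hω i hi l => by
        have := hdf ω hω i hi l
        rwa [abs_sub_comm] at this) |>.trans' (le_of_eq (by rw [ha]; rfl))

end Pool.STL
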