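import Pool.Agent.H25.STL.Cn

/-!
# The tower for live times
-/

set_option autoImplicit false

namespace Pool.STL

open Finset MvPolynomial
open Pool.Agent.H49.Ent Pool.Agent.H32.Dense Pool.STK Pool.KS3
open Pool.BFL (Pl CB Pb P2 MC alt)
open Pool.KAF (Pr)
open Pool.STAT
open Pool.STAT84
open Pool.LIV (Rel RelC LC coreP_thm sbmP_thm dead Vis84)

/-- The walks over the coordinates before `i` are submersions. -/
def SbL (D : NDat) (q : D.Ω → ℝ) (d : ℕ → ℕ) (C₂ : ℝ) (J z U k i N L : ℕ) (τ η : ℝ) : Prop :=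
  Sbm (fun l : Fin i => d l) (2 * U * z) q (D.wn J ((k + U) * z)) (D.cs (k + 3 * U))
    (D.cs (k + U)) (vr D q d J z (k + U) (U + 1) C₂ N) (D.tm J z (k + 3 * U))
    (fun v _ => vfT d i (Real.exp ((C₂ + 1) * z)) v) L (Real.exp (-(τ * ((U * z : ℕ) : ℝ)))) η

/-- The field depends only on the base, up to few bits. -/
def IndL (D : NDat) (q : D.Ω → ℝ) (d : ℕ → ℕ) (C₂ C₇ : ℝ) (J z U k N : ℕ) : Prop :=
  CH q (vr D q d J z (k + U) (U + 1) C₂ N) (D.c (k + U)) -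
    CH q (vr D q d J z (k + U) (U + 1) C₂ N) (D.c (k + 3 * U)) ≤ C₇ * z

/-- The core of the coordinate `i` from the system with `n` coordinates. -/
def LcH (n K : ℕ) (d : ℕ → ℕ) (C₁ C₂ C₃ C₇ : ℝ) (Dg U₁ i : ℕ) (hi : 0 < i) : Prop :=
  ∀ U M : ℕ, U₁ ≤ U → ∃ z₀ : ℕ, ∀ (J z k : ℕ) (D : NDat) (q : D.Ω → ℝ), z₀ ≤ z →
    OkL D n K J z M (fun i => d i) C₁ q → k + 3 * U ≤ M →
    CH q D.T (D.c (k + U)) ≤ CH q D.T (fun ω => (D.ln ω, D.c (k + U) ω)) + z →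
    IndL D q d C₂ C₇ J z U k n →
    (∀ ω, 0 < q ω → D.GB K d z C₁ C₂ (k + 3 * U) i (D.cs (k + 3 * U) ω) ∧
      Own D K d C₁ C₂ C₃ z U k i ω) ∧
    ∀ η : ℝ, 0 ≤ η → LCi D q K d C₁ C₂ C₃ η J z U k i n Dg hi

/-- The tower: from the submersion over the coordinates before `i` to a new label. -/
def TwL (n K A : ℕ) (d : ℕ → ℕ) (C₁ C₂ C₇ Cc a ρ : ℝ) (i L k' : ℕ) (εT p : ℝ) : Prop :=
  ∃ (τ η' : ℝ) (K' U₀ : ℕ), 0 < τ ∧ 0 < η' ∧ 1 ≤ U₀ ∧ ∀ U M : ℕ, U₀ ≤ U →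
    ∃ (C₆ κ : ℝ) (z₀ : ℕ), 0 < κ ∧
    ∀ (J z k : ℕ) (D : NDat) (q : D.Ω → ℝ), z₀ ≤ z → OkL D n K J z M (fun i => d i) C₁ q →
      TmL1 D J z M k' κ εT q → k + 3 * U ≤ M → IndL D q d C₂ C₇ J z U k n →
      D.Cnt d z n (k + U) U ρ a Cc q → SbL D q d C₂ J z U k i n L τ p →
      ∃ i', 1 ≤ i' ∧ i' ≤ n ∧ D.NewLab J z i' (k + U) (k + 3 * U) A K' C₆ η' q

theorem TmL1.mono {D : NDat} {J z M k' : ℕ} {κ κ' εT : ℝ} {q : D.Ω → ℝ}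
    (h : TmL1 D J z M k' κ εT q) (hκ : κ ≤ κ') : TmL1 D J z M k' κ' εT q := by
  have h1 : κ * z ≤ κ' * z := mul_le_mul_of_nonneg_right hκ (Nat.cast_nonneg _)
  exact ⟨fun k hk => (h.ti k hk).trans (by linarith),
    fun k hk x hx => (h.tm k hk x hx).trans (by linarith)⟩

/-- The number of levels of a part. -/
theorem part_ge {ρ : ℝ} (hρ : 0 < ρ) {U z : ℕ} (hU : 1 ≤ U) (hz : ⌈2 / ρ⌉₊ ≤ z) :
    ρ * z / 2 ≤ (⌊ρ * ((U * z : ℕ) : ℝ)⌋₊ : ℝ) := by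
  have h1 : 2 / ρ ≤ z := (Nat.le_ceil _).trans (by exact_mod_cast hz)
  rw [div_le_iff₀ hρ] at h1
  have h2 := Nat.lt_floor_add_one (ρ * ((U * z : ℕ) : ℝ))
  have h3 : (z : ℝ) ≤ ((U * z : ℕ) : ℝ) := by
    exact_mod_cast Nat.le_mul_of_pos_left z hU
  have h4 : ρ * z ≤ ρ * ((U * z : ℕ) : ℝ) := mul_le_mul_of_nonneg_left h3 hρ.le
  linarith

/-- The dead levels are rare: the numbers. -/
theorem dead_num {D : NDat} {n K J z M : ℕ} {σ : ℕ → ℝ} {C₁ : ℝ} {q : D.Ω → ℝ}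
    (h : OkL D n K J z M σ C₁ q) {k' : ℕ} {κ εT η₀ c : ℝ} (ht : TmL1 D J z M k' κ εT q)
    {U k x : ℕ} (hk : k + 3 * U ≤ M) (hx : x ≤ U * z) (hk' : k' + 1 ≤ U * z)
    (hε : εT ≤ η₀ / 4) (hη₀ : 0 ≤ η₀) (hκ : κ ≤ η₀ * c / 8) (hc : c * z / 2 ≤ x) :
    ∑ i ∈ range x, Pr q (DdS D q J z U k k' i) ≤ η₀ * x := by
  have h1 := dead_sum h ht hk hx hk'
  have hx0 : (0 : ℝ) ≤ x := Nat.cast_nonneg x
  have hz0 : (0 : ℝ) ≤ z := Nat.cast_nonneg z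
  have h2 : εT * x ≤ η₀ / 4 * x := mul_le_mul_of_nonneg_right hε hx0
  have h3 : κ * z ≤ η₀ * c / 8 * z := mul_le_mul_of_nonneg_right hκ hz0
  have h4 : η₀ / 4 * (c * z / 2) ≤ η₀ / 4 * x := mul_le_mul_of_nonneg_left hc (by linarith)
  nlinarith

/-- The fields of the walks. -/
theorem fld_sc {D : NDat} {n K J z M : ℕ} {d : ℕ → ℕ} {C₁ C₂ : ℝ} {q : D.Ω → ℝ}
    (h : OkL D n K J z M (fun i => d i) C₁ q) (hd0 : d 0 = 1) (hd : ∀ i, 1 ≤ d i)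
    (hC₂ : 1 ≤ C₂) (hz : 1 ≤ z) (v y : ℕ) {i : ℕ} (hi : 0 < i) (hin : i ≤ n) (ω : D.Ω) :
    vfT1 d i hi (Real.exp ((C₂ + 1) * z)) (vr D q d J z v y C₂ n ω) =
      vfT d i (Real.exp ((C₂ + 1) * z)) (vr D q d J z v y C₂ n ω) ∧
    vfT d (i + 1) (Real.exp ((C₂ + 1) * z)) (vr D q d J z v y C₂ n ω) =
      exT (vfT d i (Real.exp ((C₂ + 1) * z)) (vr D q d J z v y C₂ n ω))
        (vfN d i (Real.exp ((C₂ + 1) * z)) (vr D q d J z v y C₂ n ω)) := by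
  have e : vr D q d J z v y C₂ n ω = D.vf d z y C₂ n (rp q (D.wn J (v * z)) ω) := rfl
  rw [e]
  exact ⟨vfT1_eq hd0 hd h.R_tri hi hin C₂ hC₂ hz y _,
    M31.vfT_sc AdxRow.adx_thm hd0 hd h.R_tri C₂ hC₂ hz y _ i hin⟩

section

variable {n K A : ℕ} {d : ℕ → ℕ} {C₁ C₂ C₃ C₇ Cc a ρ : ℝ}

/-- From a visible polynomial to a new label. -/
theorem nw_of (hd0 : d 0 = 1) (hd : ∀ i, 1 ≤ d i) (hC₁ : 1 ≤ C₁) (hC₂ : 1 ≤ C₂)
    (hC₃ : 1 ≤ C₃) {i : ℕ} (hin : i ≤ n) {κ₁ η' : ℝ} (hκ₁ : 0 < κ₁) (hκ₁' : κ₁ ≤ 1)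
    (hη' : 0 < η') : ∃ K' U₁ : ℕ, ∀ U M : ℕ, U₁ ≤ U → ∃ (C₆ : ℝ) (z₀ : ℕ),
    ∀ (J z k : ℕ) (D : NDat) (q : D.Ω → ℝ), z₀ ≤ z → OkL D n K J z M (fun i => d i) C₁ q →
      k + 3 * U ≤ M →
      (∀ ω, 0 < q ω → D.GB K d z C₁ C₂ (k + 3 * U) i (D.cs (k + 3 * U) ω) ∧
        Own D K d C₁ C₂ C₃ z U k i ω) →
      Vis84 (fun l : Fin i => d l) (d i) (U * z) 2 q (D.wn J ((k + U) * z)) (D.cs (k + 3 * U))
        (D.thT K d z C₁ C₂ (k + U) (k + 3 * U)) (shS D q K d z C₁ C₂ (k + U) (k + 3 * U))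
        κ₁ η' →
      D.NewLab J z i (k + U) (k + 3 * U) A K' C₆ (η' / 4) q := by
  obtain ⟨K', U₁, h⟩ := nwl_thm i K A d C₁ C₂ C₃ κ₁ η' hd0 hd hC₁ hC₂ hC₃ hκ₁ hκ₁' hη'
  refine ⟨K', U₁, fun U M hU => ?_⟩
  obtain ⟨C₆, z₀, h⟩ := h U M hU
  refine ⟨C₆, max z₀ 1, ?_⟩
  intro J z k D q hz hOk hk hG hV
  obtain ⟨κ, hOk'⟩ := (hOk.res hin).ok ((le_max_right _ _).trans hz)
  have hq0 := hOk.isLaw.nonneg
  refine h J z k κ D q ((le_max_left _ _).trans hz) hOk' hk ?_ ?_ ?_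
  · exact (Pb_zero hq0 fun ω hω hA => hA (hG ω hω).1).trans (by positivity)
  · exact (Pb_zero hq0 fun ω hω hA => hA (hG ω hω).2).trans (by positivity)
  · obtain ⟨Hf, h1, h2, h3⟩ := hV
    refine ⟨Hf, h1, h2, h3.trans (M31.P2_mono hq0 _ ?_)⟩
    intro ω ω' _ hω hω' hA y hy
    have := hA y hy
    rw [shS_eq K d z C₁ C₂ (k + U) (k + 3 * U) hω,
      shS_eq K d z C₁ C₂ (k + U) (k + 3 * U) hω'] at this
    exact this

/-- The top of the tower. -/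
theorem twl_top (hd0 : d 0 = 1) (hd : ∀ i, 1 ≤ d i) (hC₁ : 1 ≤ C₁) (hC₂ : 1 ≤ C₂)
    (hC₃ : 1 ≤ C₃) (hCc : 1 ≤ Cc) (hn : 0 < n) (ha : 0 < a) (hρ : 0 < ρ) (hρ1 : ρ ≤ 1)
    {Dg U₁ : ℕ} (hLc : LcH n K d C₁ C₂ C₃ C₇ Dg U₁ n hn) {L : ℕ} (hL : 1 ≤ L) :
    ∃ ε₀ : ℝ, 0 < ε₀ ∧ ∀ εT : ℝ, 0 < εT → εT ≤ ε₀ → ∀ k' : ℕ,
      TwL n K A d C₁ C₂ C₇ Cc a ρ n L k' εT (1 / 16) := by
  obtain ⟨η₀, hη₀, hcore⟩ := coreP_thm n (d n) Dg L (fun l : Fin n => d l) ⟨0, hn⟩ 2 a ρ hL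
    (by norm_num) ha hρ hρ1
  refine ⟨η₀ / 4, by positivity, ?_⟩
  intro εT hεT hεle k'
  obtain ⟨κ₁, ρ', τ₀, η', hκ₁, hκ₁1, hρ', hρ'1, hτ₀, hη', Uc, hcore⟩ := hcore (k' + 1) (1 / 2)
    (by omega) (by norm_num)
  obtain ⟨K', Uw, hnw⟩ := nw_of (A := A) (K := K) hd0 hd hC₁ hC₂ hC₃ (le_refl n) hκ₁ hκ₁1 hη'
  obtain ⟨U₀, hU₀⟩ : ∃ U₀ : ℕ, U₀ = max (max U₁ Uw) (max Uc (max (⌈(C₃ + (Cc + 2)) / τ₀⌉₊) 1)) :=
    ⟨_, rfl⟩
  refine ⟨τ₀, η' / 4, K', U₀, hτ₀, by positivity, ?_, ?_⟩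
  · rw [hU₀]
    exact (le_max_right _ _).trans ((le_max_right _ _).trans (le_max_right _ _))
  intro U M hU
  have hUa : U₁ ≤ U := le_trans (by rw [hU₀]; exact (le_max_left _ _).trans (le_max_left _ _)) hU
  have hUb : Uw ≤ U := le_trans (by rw [hU₀]; exact (le_max_right _ _).trans (le_max_left _ _)) hU
  have hUc : Uc ≤ U := le_trans (by rw [hU₀]; exact (le_max_left _ _).trans (le_max_right _ _)) hU
  have hUd : ⌈(C₃ + (Cc + 2)) / τ₀⌉₊ ≤ U := le_trans (by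
    rw [hU₀]; exact (le_max_left _ _).trans ((le_max_right _ _).trans (le_max_right _ _))) hU
  have hU1 : 1 ≤ U := le_trans (by
    rw [hU₀]; exact (le_max_right _ _).trans ((le_max_right _ _).trans (le_max_right _ _))) hU
  obtain ⟨C₆, zw, hnw⟩ := hnw U M hUb
  obtain ⟨zl, hlc⟩ := hLc U M hUa
  obtain ⟨z₀, hz₀⟩ : ∃ z₀ : ℕ, z₀ = max (max zw zl) (max (k' + 1) (⌈2 / ρ'⌉₊)) := ⟨_, rfl⟩
  refine ⟨C₆, min 1 (η₀ * ρ' / 8), z₀, lt_min one_pos (by positivity), ?_⟩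
  intro J z k D q hz hOk hTm hk hInd hCnt hS
  have hza : zw ≤ z := le_trans (by rw [hz₀]; exact (le_max_left _ _).trans (le_max_left _ _)) hz
  have hzb : zl ≤ z := le_trans (by rw [hz₀]; exact (le_max_right _ _).trans (le_max_left _ _)) hz
  have hzc : k' + 1 ≤ z := le_trans (by
    rw [hz₀]; exact (le_max_left _ _).trans (le_max_right _ _)) hz
  have hzd : ⌈2 / ρ'⌉₊ ≤ z := le_trans (by
    rw [hz₀]; exact (le_max_right _ _).trans (le_max_right _ _)) hz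
  have hz1 : 1 ≤ z := by omega
  have hzr : (1 : ℝ) ≤ z := by exact_mod_cast hz1
  have hzz : z ≤ U * z := Nat.le_mul_of_pos_left z hU1
  have hti := (hTm.ti (k + U) (by omega)).trans (add_le_add_right (show
    min 1 (η₀ * ρ' / 8) * (z : ℝ) ≤ z by
      have := mul_le_mul_of_nonneg_right (min_le_left (1 : ℝ) (η₀ * ρ' / 8))
        (Nat.cast_nonneg (α := ℝ) z)
      linarith) _)
  obtain ⟨hG, hLC⟩ := hlc J z k D q hzb hOk hk hti hInd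
  have hbU := M31.big_U (z := z) hτ₀ hUd
  have hUz0 : (0 : ℝ) ≤ ((U * z : ℕ) : ℝ) := Nat.cast_nonneg _
  have hLC1 := hLC τ₀ hτ₀.le
  unfold LCi at hLC1
  have hθ : C₃ * z ≤ τ₀ * ((U * z : ℕ) : ℝ) := by nlinarith
  have hLC2 := hLC1.mono84 hθ le_rfl
  have hκ2 : min 1 (η₀ * ρ' / 8) ≤ η₀ * ρ' / 8 := min_le_right _ _
  refine ⟨n, hn, le_rfl, hnw J z k D q hza hOk hk hG ?_⟩
  refine hcore τ₀ hτ₀ le_rfl (U * z) (2 * U * z) (M31.le_Uz hUc hz1) (M31.cast_m U z) _ _ _ _ _ q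
    (D.wn J ((k + U) * z)) (D.cs (k + 3 * U)) (D.cs (k + U))
    (vr D q d J z (k + U) (U + 1) C₂ n) (D.tm J z (k + 3 * U)) (D.pT (k + U))
    (D.pN d z (k + U) n) (D.thT K d z C₁ C₂ (k + U) (k + 3 * U))
    (shS D q K d z C₁ C₂ (k + U) (k + 3 * U))
    (fun v _ => vfT1 d n hn (Real.exp ((C₂ + 1) * z)) v)
    (fun v _ => vfN d n (Real.exp ((C₂ + 1) * z)) v) (DdS D q J z U k k')
    (fun ω i => ⌊(2 : ℝ) ^ (U * z) * D.pT (k + U) ω i⌋) hLC2 ?_ ?_ ?_ ?_ ?_ ?_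
  · unfold SbL at hS
    exact M31.sbm_congr (fun ω => (fld_sc hOk hd0 hd hC₂ hz1 (k + U) (U + 1) hn le_rfl ω).1.symm)
      hS
  · intro i ω _ hω
    have h1 : ¬ ¬ dead q (D.wn J ((k + U) * z)) (D.tm J z (k + 3 * U)) (2 * U * z) (k' + 1) i ω ≤
      1 / 2 := hω
    rw [not_not] at h1
    linarith
  · refine dead_num hOk hTm hk le_rfl (by omega) hεle hη₀.le hκ2 ?_
    have h2 : ρ' * z ≤ 1 * z := mul_le_mul_of_nonneg_right hρ'1 (by linarith)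
    have h3 : (z : ℝ) ≤ ((U * z : ℕ) : ℝ) := by exact_mod_cast hzz
    linarith
  · refine dead_num hOk hTm hk ?_ (by omega) hεle hη₀.le hκ2 (part_ge hρ' hU1 hzd)
    refine Nat.floor_le_of_le ?_
    nlinarith
  · intro ω _ i _
    rw [abs_le]
    constructor
    · linarith [Int.lt_floor_add_one ((2 : ℝ) ^ (U * z) * D.pT (k + U) ω i)]
    · linarith [Int.floor_le ((2 : ℝ) ^ (U * z) * D.pT (k + U) ω i)]
  · intro ω _
    refine (cnt_tm hOk hn hz1 hk hρ.le hCnt ω).trans (Real.exp_le_exp.2 ?_)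
    have h1 : (Cc + 2) * z ≤ τ₀ * ((U * z : ℕ) : ℝ) := by nlinarith
    linarith

/-- A step of the tower. -/
theorem twl_step (hd0 : d 0 = 1) (hd : ∀ i, 1 ≤ d i) (hC₁ : 1 ≤ C₁) (hC₂ : 1 ≤ C₂)
    (hC₃ : 1 ≤ C₃) {i : ℕ} (hi : 0 < i) (hin : i ≤ n) {Dg U₁ : ℕ}
    (hLc : LcH n K d C₁ C₂ C₃ C₇ Dg U₁ i hi) {L : ℕ} (hL : 1 ≤ L) {p : ℝ} (hp : 0 < p)
    (hT : ∃ ε₀ : ℝ, 0 < ε₀ ∧ ∀ εT : ℝ, 0 < εT → εT ≤ ε₀ → ∀ k' : ℕ,
      TwL n K A d C₁ C₂ C₇ Cc a ρ (i + 1) (2 * L + 1) k' εT p) :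
    ∃ ε₀ : ℝ, 0 < ε₀ ∧ ∀ εT : ℝ, 0 < εT → εT ≤ ε₀ → ∀ k' : ℕ,
      TwL n K A d C₁ C₂ C₇ Cc a ρ i L k' εT (p / 16) := by
  obtain ⟨ε₁, hε₁, hT⟩ := hT
  obtain ⟨η₀, hη₀⟩ : ∃ η₀ : ℝ, η₀ = p / (16 * ((2 * L + 1 : ℕ) : ℝ) ^ (i + 2)) := ⟨_, rfl⟩
  have hη₀0 : 0 < η₀ := by
    rw [hη₀]
    positivity
  refine ⟨min ε₁ (η₀ / 4), lt_min hε₁ (by positivity), ?_⟩
  intro εT hεT hεle k'
  obtain ⟨τT, ηT, KT, UT, hτT, hηT, hUT, hT1⟩ := hT εT hεT (hεle.trans (min_le_left _ _)) k'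
  obtain ⟨κ₁, ρ', η₀', η', τ₀, hκ₁, hκ₁1, hρ', hρ'1, hη₀', hη₀e, hη', hτ₀, hs⟩ :=
    sbmP_thm i (d i) L (fun l : Fin i => d l) 2 τT p hL (by norm_num) hτT hp
  rw [← hη₀] at hη₀e
  rw [hη₀e] at hη₀' hs
  obtain ⟨τ₁, hτ₁, Us, hs⟩ := hs (k' + 1) (1 / 2) (by omega) (by norm_num)
  obtain ⟨K', Uw, hnw⟩ := nw_of (A := A) (K := K) hd0 hd hC₁ hC₂ hC₃ hin hκ₁ hκ₁1 hη'
  obtain ⟨τ, hτ⟩ : ∃ τ : ℝ, τ = min τ₀ τ₁ := ⟨_, rfl⟩
  have hτ0 : 0 < τ := by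
    rw [hτ]
    exact lt_min hτ₀ hτ₁
  obtain ⟨U₀, hU₀⟩ : ∃ U₀ : ℕ, U₀ = max (max U₁ Uw) (max (max Us UT) (max (⌈C₃ / τ⌉₊) 1)) :=
    ⟨_, rfl⟩
  refine ⟨τ₀, min ηT (η' / 4), max KT K', U₀, hτ₀, lt_min hηT (by positivity), ?_, ?_⟩
  · rw [hU₀]
    exact (le_max_right _ _).trans ((le_max_right _ _).trans (le_max_right _ _))
  intro U M hU
  have hUa : U₁ ≤ U := le_trans (by rw [hU₀]; exact (le_max_left _ _).trans (le_max_left _ _)) hU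
  have hUb : Uw ≤ U := le_trans (by rw [hU₀]; exact (le_max_right _ _).trans (le_max_left _ _)) hU
  have hUc : Us ≤ U := le_trans (by
    rw [hU₀]; exact (le_max_left _ _).trans ((le_max_left _ _).trans (le_max_right _ _))) hU
  have hUt : UT ≤ U := le_trans (by
    rw [hU₀]; exact (le_max_right _ _).trans ((le_max_left _ _).trans (le_max_right _ _))) hU
  have hUd : ⌈C₃ / τ⌉₊ ≤ U := le_trans (by
    rw [hU₀]; exact (le_max_left _ _).trans ((le_max_right _ _).trans (le_max_right _ _))) hU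
  have hU1 : 1 ≤ U := le_trans (by
    rw [hU₀]; exact (le_max_right _ _).trans ((le_max_right _ _).trans (le_max_right _ _))) hU
  obtain ⟨C₆T, κT, zT, hκT, hT2⟩ := hT1 U M hUt
  obtain ⟨C₆, zw, hnw⟩ := hnw U M hUb
  obtain ⟨zl, hlc⟩ := hLc U M hUa
  obtain ⟨z₀, hz₀⟩ : ∃ z₀ : ℕ, z₀ = max (max (max zw zl) zT) (max (k' + 1) (⌈2 / ρ'⌉₊)) :=
    ⟨_, rfl⟩
  refine ⟨max C₆T C₆, min κT (min 1 (η₀ * ρ' / 8)), z₀,
    lt_min hκT (lt_min one_pos (by positivity)), ?_⟩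
  intro J z k D q hz hOk hTm hk hInd hCnt hS
  have hza : zw ≤ z := le_trans (by
    rw [hz₀]; exact (le_max_left _ _).trans ((le_max_left _ _).trans (le_max_left _ _))) hz
  have hzb : zl ≤ z := le_trans (by
    rw [hz₀]; exact (le_max_right _ _).trans ((le_max_left _ _).trans (le_max_left _ _))) hz
  have hzt : zT ≤ z := le_trans (by
    rw [hz₀]; exact (le_max_right _ _).trans (le_max_left _ _)) hz
  have hzc : k' + 1 ≤ z := le_trans (by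
    rw [hz₀]; exact (le_max_left _ _).trans (le_max_right _ _)) hz
  have hzd : ⌈2 / ρ'⌉₊ ≤ z := le_trans (by
    rw [hz₀]; exact (le_max_right _ _).trans (le_max_right _ _)) hz
  have hz1 : 1 ≤ z := by omega
  have hzr : (1 : ℝ) ≤ z := by exact_mod_cast hz1
  have hzz : z ≤ U * z := Nat.le_mul_of_pos_left z hU1
  have hTm1 : TmL1 D J z M k' (min 1 (η₀ * ρ' / 8)) εT q := hTm.mono (min_le_right _ _)
  have hti := (hTm1.ti (k + U) (by omega)).trans (add_le_add_right (show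
    min 1 (η₀ * ρ' / 8) * (z : ℝ) ≤ z by
      have := mul_le_mul_of_nonneg_right (min_le_left (1 : ℝ) (η₀ * ρ' / 8))
        (Nat.cast_nonneg (α := ℝ) z)
      linarith) _)
  obtain ⟨hG, hLC⟩ := hlc J z k D q hzb hOk hk hti hInd
  have hLC1 := hLC τ hτ0.le
  unfold LCi at hLC1
  have hLC2 := hLC1.mono84 (M31.big_U (z := z) hτ0 hUd) le_rfl
  have hκ2 : min 1 (η₀ * ρ' / 8) ≤ η₀ * ρ' / 8 := min_le_right _ _
  have hq := hOk.isLaw.nonneg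
  have hfe := fun ω => fld_sc hOk hd0 hd hC₂ hz1 (k + U) (U + 1) hi hin ω
  by_cases hV : Vis84 (fun l : Fin i => d l) (d i) (U * z) 2 q (D.wn J ((k + U) * z))
      (D.cs (k + 3 * U)) (D.thT K d z C₁ C₂ (k + U) (k + 3 * U))
      (shS D q K d z C₁ C₂ (k + U) (k + 3 * U)) κ₁ η'
  · exact ⟨i, hi, hin, M31.newLab_mono hq (hnw J z k D q hza hOk hk hG hV) (le_max_right _ _)
      (le_max_right _ _) (min_le_right _ _)⟩
  · have h1 := hs τ hτ0 hτ.le (U * z) (2 * U * z) (M31.le_Uz hUc hz1) ⟨0, hi⟩ Dg _ _ _ _ _ q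
      (D.wn J ((k + U) * z)) (D.cs (k + 3 * U)) (D.cs (k + U))
      (vr D q d J z (k + U) (U + 1) C₂ n) (D.tm J z (k + 3 * U)) (D.pT (k + U))
      (D.pN d z (k + U) i) (D.thT K d z C₁ C₂ (k + U) (k + 3 * U))
      (shS D q K d z C₁ C₂ (k + U) (k + 3 * U))
      (fun v _ => vfT1 d i hi (Real.exp ((C₂ + 1) * z)) v)
      (fun v _ => vfN d i (Real.exp ((C₂ + 1) * z)) v) (DdS D q J z U k k') hLC2
      (by
        unfold SbL at hS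
        exact M31.sbm_congr (fun ω => (hfe ω).1.symm) hS)
      (by
        intro l ω _ hω
        have h1 : ¬ ¬ dead q (D.wn J ((k + U) * z)) (D.tm J z (k + 3 * U)) (2 * U * z) (k' + 1) l
          ω ≤ 1 / 2 := hω
        rw [not_not] at h1
        linarith)
      (by
        refine dead_num hOk hTm1 hk ?_ (by omega) (hεle.trans (min_le_right _ _)) hη₀0.le hκ2
          (part_ge hρ' hU1 hzd)
        have hUz0 : (0 : ℝ) ≤ ((U * z : ℕ) : ℝ) := Nat.cast_nonneg _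
        refine Nat.floor_le_of_le ?_
        nlinarith) hV
    have h2 : SbL D q d C₂ J z U k (i + 1) n (2 * L + 1) τT p := by
      unfold SbL
      have h3 : Sbm (exd (fun l : Fin i => d l) (d i)) (2 * U * z) q (D.wn J ((k + U) * z))
          (D.cs (k + 3 * U)) (D.cs (k + U)) (vr D q d J z (k + U) (U + 1) C₂ n)
          (D.tm J z (k + 3 * U)) (fun v _ => exT (vfT1 d i hi (Real.exp ((C₂ + 1) * z)) v)
            (vfN d i (Real.exp ((C₂ + 1) * z)) v)) (2 * L + 1)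
          (Real.exp (-(τT * ((U * z : ℕ) : ℝ)))) p := by
        intro W _ r w hMC
        refine le_trans (Pool.Agent.H39.BFL.Pb_mono hMC.isLaw.nonneg ?_) (h1 W r w hMC)
        intro x _ h4 h5
        refine h4 ?_
        exact (tbig_ext (fun l : Fin i => d l) (d i) (lgT (D.cs (k + U))
          (vr D q d J z (k + U) (U + 1) C₂ n)
          (fun v _ => vfT1 d i hi (Real.exp ((C₂ + 1) * z)) v) (2 * L + 1) w x)
          (lgN (D.cs (k + U)) (vr D q d J z (k + U) (U + 1) C₂ n)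
          (fun v _ => vfN d i (Real.exp ((C₂ + 1) * z)) v) (2 * L + 1) w x) _ _).2 h5
      rw [exd_val] at h3
      refine M31.sbm_congr (fun ω => ?_) h3
      rw [(hfe ω).2, (hfe ω).1]
    obtain ⟨i', g1, g2, g3⟩ := hT2 J z k D q hzt hOk (hTm.mono (min_le_left _ _)) hk hInd hCnt h2
    exact ⟨i', g1, g2, M31.newLab_mono hq g3 (le_max_left _ _) (le_max_left _ _)
      (min_le_left _ _)⟩

/-- The tower. -/
theorem twl_all (hd0 : d 0 = 1) (hd : ∀ i, 1 ≤ d i) (hC₁ : 1 ≤ C₁) (hC₂ : 1 ≤ C₂)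
    (hCc : 1 ≤ Cc) (ha : 0 < a) (hρ : 0 < ρ) (hρ1 : ρ ≤ 1)
    (hW : ∀ i (hi : 0 < i), i ≤ n → ∃ (C₃ : ℝ) (Dg U₁ : ℕ), 1 ≤ C₃ ∧
      LcH n K d C₁ C₂ C₃ C₇ Dg U₁ i hi) :
    ∀ r i L : ℕ, i + r = n → 0 < i → 1 ≤ L →
      ∃ ε₀ : ℝ, 0 < ε₀ ∧ ∀ εT : ℝ, 0 < εT → εT ≤ ε₀ → ∀ k' : ℕ,
      TwL n K A d C₁ C₂ C₇ Cc a ρ i L k' εT ((1 / 16) ^ (r + 1))
  | 0, i, L, hr, hi, hL1 => by
    have hin : i = n := by omega
    subst hin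
    obtain ⟨C₃, Dg, U₁, hC₃, h1⟩ := hW i hi le_rfl
    rw [zero_add, pow_one]
    exact twl_top hd0 hd hC₁ hC₂ hC₃ hCc hi ha hρ hρ1 h1 hL1
  | r + 1, i, L, hr, hi, hL1 => by
    obtain ⟨C₃, Dg, U₁, hC₃, h1⟩ := hW i hi (by omega)
    have h2 := twl_step (A := A) (Cc := Cc) (a := a) (ρ := ρ) hd0 hd hC₁ hC₂ hC₃ hi (by omega) h1
      hL1 (p := (1 / 16) ^ (r + 1)) (by positivity)
      (twl_all hd0 hd hC₁ hC₂ hCc ha hρ hρ1 hW r (i + 1) (2 * L + 1) (by omega) (by omega)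
        (by omega))
    have e : ((1 : ℝ) / 16) ^ (r + 1 + 1) = (1 / 16) ^ (r + 1) / 16 := by
      rw [pow_succ]
      ring
    rw [e]
    exact h2

end

end Pool.STL
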